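import Pool.Agent.W_MP_94b3e1_an.Defs

/-!
# Existence of the frame (the Banach space generated by the evaluations and its operator)
-/

set_option autoImplicit false

namespace Pool.Agent.W_MP_94b3e1_an

theorem ext_homog {K : Set (ℕ → ℝ)} (g : K → ℝ)
    (h : ∀ ε : ℝ, 0 < ε → ∃ z : ℕ →₀ ℝ, ∀ f : K, |g f - z.sum (fun n b => b * f.1 n)| ≤ ε)
    (f : ℕ → ℝ) (C D : ℝ) (hC : 0 < C) (hD : 0 < D)
    (hfC : (fun n => f n / C) ∈ K) (hfD : (fun n => f n / D) ∈ K) :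
    C * g ⟨_, hfC⟩ = D * g ⟨_, hfD⟩ := by
  have key : ∀ ε : ℝ, 0 < ε → |C * g ⟨_, hfC⟩ - D * g ⟨_, hfD⟩| ≤ (C + D) * ε := by
    intro ε hε
    obtain ⟨z, hz⟩ := h ε hε
    have h1 := hz ⟨_, hfC⟩
    have h2 := hz ⟨_, hfD⟩
    have e1 : z.sum (fun n b => b * (f n / C)) = (z.sum (fun n b => b * f n)) / C := by
      rw [Finsupp.sum, Finsupp.sum, Finset.sum_div]
      refine Finset.sum_congr rfl (fun n _ => ?_)
      ring
    have e2 : z.sum (fun n b => b * (f n / D)) = (z.sum (fun n b => b * f n)) / D := by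
      rw [Finsupp.sum, Finsupp.sum, Finset.sum_div]
      refine Finset.sum_congr rfl (fun n _ => ?_)
      ring
    simp only at h1 h2
    rw [e1] at h1
    rw [e2] at h2
    set S := z.sum (fun n b => b * f n) with hS
    have h1' : |C * g ⟨_, hfC⟩ - S| ≤ C * ε := by
      have : C * g ⟨_, hfC⟩ - S = C * (g ⟨_, hfC⟩ - S / C) := by field_simp
      rw [this, abs_mul, abs_of_pos hC]
      exact mul_le_mul_of_nonneg_left h1 hC.le
    have h2' : |D * g ⟨_, hfD⟩ - S| ≤ D * ε := by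
      have : D * g ⟨_, hfD⟩ - S = D * (g ⟨_, hfD⟩ - S / D) := by field_simp
      rw [this, abs_mul, abs_of_pos hD]
      exact mul_le_mul_of_nonneg_left h2 hD.le
    rw [abs_le] at h1' h2' ⊢
    constructor <;> nlinarith [h1'.1, h1'.2, h2'.1, h2'.2]
  by_contra hne
  have hpos : 0 < |C * g ⟨_, hfC⟩ - D * g ⟨_, hfD⟩| := abs_pos.mpr (sub_ne_zero.mpr hne)
  have hCD : 0 < C + D := by linarith
  have := key (|C * g ⟨_, hfC⟩ - D * g ⟨_, hfD⟩| / (2 * (C + D))) (by positivity)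
  have h3 : (C + D) * (|C * g ⟨_, hfC⟩ - D * g ⟨_, hfD⟩| / (2 * (C + D))) =
      |C * g ⟨_, hfC⟩ - D * g ⟨_, hfD⟩| / 2 := by field_simp
  rw [h3] at this
  linarith

theorem isV_ext {K : Set (ℕ → ℝ)} (g : K → ℝ)
    (h : ∀ ε : ℝ, 0 < ε → ∃ z : ℕ →₀ ℝ, ∀ f : K, |g f - z.sum (fun n b => b * f.1 n)| ≤ ε) :
    IsV K (ext K g) := by
  intro ε hε
  obtain ⟨z, hz⟩ := h ε hε
  refine ⟨z, fun f C hC hfC => ?_⟩
  have hex : ∃ C : ℝ, 0 < C ∧ (fun n => f n / C) ∈ K := ⟨C, hC, hfC⟩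
  have hval : ext K g f = C * g ⟨_, hfC⟩ := by
    unfold ext
    rw [dif_pos hex]
    exact ext_homog g h f _ _ (Classical.choose_spec hex).1 hC _ _
  rw [hval]
  have h1 := hz ⟨_, hfC⟩
  have e1 : z.sum (fun n b => b * (f n / C)) = (z.sum (fun n b => b * f n)) / C := by
    rw [Finsupp.sum, Finsupp.sum, Finset.sum_div]
    refine Finset.sum_congr rfl (fun n _ => ?_)
    ring
  simp only at h1
  rw [e1] at h1
  have : C * g ⟨_, hfC⟩ - z.sum (fun n b => b * f n) =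
      C * (g ⟨_, hfC⟩ - z.sum (fun n b => b * f n) / C) := by field_simp
  rw [this, abs_mul, abs_of_pos hC]
  exact mul_le_mul_of_nonneg_left h1 hC.le

theorem ext_eq {K : Set (ℕ → ℝ)} (g : K → ℝ)
    (h : ∀ ε : ℝ, 0 < ε → ∃ z : ℕ →₀ ℝ, ∀ f : K, |g f - z.sum (fun n b => b * f.1 n)| ≤ ε)
    (f : K) : ext K g f.1 = g f := by
  have h1 : (fun n => f.1 n / 1) ∈ K := by
    have : (fun n => f.1 n / 1) = f.1 := by
      funext n
      simp
    rw [this]
    exact f.2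
  have hex : ∃ C : ℝ, 0 < C ∧ (fun n => f.1 n / C) ∈ K := ⟨1, one_pos, h1⟩
  have hval : ext K g f.1 = 1 * g ⟨_, h1⟩ := by
    unfold ext
    rw [dif_pos hex]
    exact ext_homog g h f.1 _ _ (Classical.choose_spec hex).1 one_pos _ _
  rw [hval, one_mul]
  congr 1
  apply Subtype.ext
  funext n
  simp

/-- index set of the coordinates -/
structure Idx {Γ : Type} (𝒦 : Γ → Kind) : Type where
  /-- the kind -/
  a : Γ
  /-- the function -/
  f : (𝒦 a).K

instance {Γ : Type} (𝒦 : Γ → Kind) : TopologicalSpace (Idx 𝒦) := ⊥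

instance {Γ : Type} (𝒦 : Γ → Kind) : DiscreteTopology (Idx 𝒦) := ⟨rfl⟩

/-- the ambient space -/
abbrev LL {Γ : Type} (𝒦 : Γ → Kind) : Type := BoundedContinuousFunction (Idx 𝒦) ℝ

/-- the shift on a kind -/
noncomputable def sh (κ : Kind) (f : κ.K) : κ.K := ⟨fun n => f.1 (n + 1) / 2, κ.shift f.1 f.2⟩

open Classical in
/-- the evaluation as an element of the ambient space -/
noncomputable def evL {Γ : Type} (𝒦 : Γ → Kind) (a : Γ) (n : ℕ) : LL 𝒦 :=
  BoundedContinuousFunction.ofNormedAddCommGroupDiscrete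
    (fun i : Idx 𝒦 => if i.a = a then i.f.1 n else 0)
    (max 0 (Classical.choose ((𝒦 a).bdd n))) (by
      rintro ⟨b, f⟩
      by_cases hb : b = a
      · subst hb
        simp only [if_true, Real.norm_eq_abs]
        exact le_max_of_le_right (Classical.choose_spec ((𝒦 b).bdd n) f.1 f.2)
      · simp [hb])

open Classical in
theorem evL_apply {Γ : Type} (𝒦 : Γ → Kind) (a : Γ) (n : ℕ) (b : Γ) (f : (𝒦 b).K) :
    evL 𝒦 a n (⟨b, f⟩ : Idx 𝒦) = if b = a then f.1 n else 0 := rfl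

/-- the operator on the ambient space -/
noncomputable def TL {Γ : Type} (𝒦 : Γ → Kind) : LL 𝒦 →L[ℝ] LL 𝒦 :=
  LinearMap.mkContinuous
    { toFun := fun Φ => BoundedContinuousFunction.ofNormedAddCommGroupDiscrete
        (fun i : Idx 𝒦 => 2 * Φ (⟨i.a, sh (𝒦 i.a) i.f⟩ : Idx 𝒦)) (2 * ‖Φ‖) (by
          intro i
          rw [norm_mul, Real.norm_ofNat]
          exact mul_le_mul_of_nonneg_left (Φ.norm_coe_le_norm _) (by norm_num))
      map_add' := by
        intro Φ Ψ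
        ext i
        change 2 * (Φ + Ψ) _ = 2 * Φ _ + 2 * Ψ _
        rw [BoundedContinuousFunction.add_apply]
        ring
      map_smul' := by
        intro c Φ
        ext i
        change 2 * (c • Φ) _ = c * (2 * Φ _)
        rw [BoundedContinuousFunction.smul_apply, smul_eq_mul]
        ring } 2 (by
    intro Φ
    refine (BoundedContinuousFunction.norm_le (by positivity)).mpr (fun i => ?_)
    change ‖2 * Φ _‖ ≤ _
    rw [norm_mul, Real.norm_ofNat]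
    exact mul_le_mul_of_nonneg_left (Φ.norm_coe_le_norm _) (by norm_num))

theorem TL_apply {Γ : Type} (𝒦 : Γ → Kind) (Φ : LL 𝒦) (b : Γ) (f : (𝒦 b).K) :
    TL 𝒦 Φ (⟨b, f⟩ : Idx 𝒦) = 2 * Φ (⟨b, sh (𝒦 b) f⟩ : Idx 𝒦) := rfl

theorem TL_norm {Γ : Type} (𝒦 : Γ → Kind) : ‖TL 𝒦‖ ≤ 2 :=
  LinearMap.mkContinuous_norm_le _ (by norm_num) _

theorem TL_ev {Γ : Type} (𝒦 : Γ → Kind) (a : Γ) (n : ℕ) :
    TL 𝒦 (evL 𝒦 a n) = evL 𝒦 a (n + 1) := by
  ext ⟨b, f⟩
  rw [TL_apply, evL_apply, evL_apply]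
  by_cases hb : b = a
  · simp only [hb, if_true, sh]
    ring
  · simp [hb]

/-- the span of the evaluations -/
noncomputable def SS {Γ : Type} (𝒦 : Γ → Kind) : Submodule ℝ (LL 𝒦) :=
  Submodule.span ℝ (Set.range fun x : Γ × ℕ => evL 𝒦 x.1 x.2)

/-- the closed span of the evaluations -/
noncomputable def XX {Γ : Type} (𝒦 : Γ → Kind) : Submodule ℝ (LL 𝒦) :=
  (SS 𝒦).topologicalClosure

theorem ev_mem_SS {Γ : Type} (𝒦 : Γ → Kind) (a : Γ) (n : ℕ) : evL 𝒦 a n ∈ SS 𝒦 :=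
  Submodule.subset_span ⟨(a, n), rfl⟩

theorem ev_mem_XX {Γ : Type} (𝒦 : Γ → Kind) (a : Γ) (n : ℕ) : evL 𝒦 a n ∈ XX 𝒦 :=
  Submodule.le_topologicalClosure _ (ev_mem_SS 𝒦 a n)

theorem TL_mem_SS {Γ : Type} (𝒦 : Γ → Kind) {x : LL 𝒦} (hx : x ∈ SS 𝒦) : TL 𝒦 x ∈ SS 𝒦 := by
  unfold SS at hx
  induction hx using Submodule.span_induction with
  | mem y hy =>
    obtain ⟨⟨a, n⟩, rfl⟩ := hy
    simp only
    rw [TL_ev]
    exact ev_mem_SS 𝒦 a (n + 1)
  | zero => rw [map_zero]; exact Submodule.zero_mem _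
  | add y z _ _ h1 h2 => rw [map_add]; exact Submodule.add_mem _ h1 h2
  | smul c y _ h1 => rw [map_smul]; exact Submodule.smul_mem _ c h1

theorem TL_mem_XX {Γ : Type} (𝒦 : Γ → Kind) {x : LL 𝒦} (hx : x ∈ XX 𝒦) : TL 𝒦 x ∈ XX 𝒦 := by
  have h1 : x ∈ closure (SS 𝒦 : Set (LL 𝒦)) := hx
  have h2 := map_mem_closure (TL 𝒦).continuous h1 (t := (SS 𝒦 : Set (LL 𝒦)))
    (fun y hy => TL_mem_SS 𝒦 hy)
  exact h2

theorem exists_close {Γ : Type} (𝒦 : Γ → Kind) {x : LL 𝒦} (hx : x ∈ XX 𝒦) (ε : ℝ)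
    (hε : 0 < ε) : ∃ y ∈ SS 𝒦, ‖x - y‖ < ε := by
  have h1 : x ∈ closure (SS 𝒦 : Set (LL 𝒦)) := hx
  obtain ⟨y, hy, hd⟩ := Metric.mem_closure_iff.mp h1 ε hε
  exact ⟨y, hy, by rwa [dist_eq_norm] at hd⟩

theorem countable_SS {Γ : Type} (𝒦 : Γ → Kind) {x : LL 𝒦} (hx : x ∈ SS 𝒦) :
    {a : Γ | ∃ f : (𝒦 a).K, x (⟨a, f⟩ : Idx 𝒦) ≠ 0}.Countable := by
  unfold SS at hx
  induction hx using Submodule.span_induction with
  | mem y hy =>
    obtain ⟨⟨a, n⟩, rfl⟩ := hy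
    refine (Set.countable_singleton a).mono ?_
    rintro b ⟨f, hf⟩
    simp only at hf
    rw [evL_apply] at hf
    by_contra hb
    exact hf (if_neg hb)
  | zero =>
    refine Set.countable_empty.mono ?_
    rintro b ⟨f, hf⟩
    exact absurd rfl hf
  | add y z _ _ h1 h2 =>
    refine (h1.union h2).mono ?_
    rintro b ⟨f, hf⟩
    rw [BoundedContinuousFunction.add_apply] at hf
    by_cases h : y (⟨b, f⟩ : Idx 𝒦) = 0
    · right
      refine ⟨f, fun h' => hf ?_⟩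
      rw [h, h', add_zero]
    · left
      exact ⟨f, h⟩
  | smul c y _ h1 =>
    refine h1.mono ?_
    rintro b ⟨f, hf⟩
    rw [BoundedContinuousFunction.smul_apply] at hf
    exact ⟨f, fun h => hf (by rw [h, smul_zero])⟩

theorem countable_XX {Γ : Type} (𝒦 : Γ → Kind) {x : LL 𝒦} (hx : x ∈ XX 𝒦) :
    {a : Γ | ∃ f : (𝒦 a).K, x (⟨a, f⟩ : Idx 𝒦) ≠ 0}.Countable := by
  have h : ∀ k : ℕ, ∃ y ∈ SS 𝒦, ‖x - y‖ < 1 / ((k : ℝ) + 1) := fun k =>
    exists_close 𝒦 hx _ (by positivity)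
  choose y hy hxy using h
  refine (Set.countable_iUnion (fun k => countable_SS 𝒦 (hy k))).mono ?_
  rintro a ⟨f, hf⟩
  have hpos : 0 < |x (⟨a, f⟩ : Idx 𝒦)| := abs_pos.mpr hf
  obtain ⟨k, hk⟩ := exists_nat_one_div_lt hpos
  rw [Set.mem_iUnion]
  refine ⟨k, f, fun h0 => ?_⟩
  have h1 := (x - y k).norm_coe_le_norm (⟨a, f⟩ : Idx 𝒦)
  rw [BoundedContinuousFunction.sub_apply, h0, sub_zero, Real.norm_eq_abs] at h1
  linarith [hxy k]

theorem approx_SS {Γ : Type} (𝒦 : Γ → Kind) (a : Γ) {x : LL 𝒦} (hx : x ∈ SS 𝒦) :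
    ∃ z : ℕ →₀ ℝ, ∀ f : (𝒦 a).K,
      x (⟨a, f⟩ : Idx 𝒦) = z.sum (fun n b => b * f.1 n) := by
  unfold SS at hx
  induction hx using Submodule.span_induction with
  | mem y hy =>
    obtain ⟨⟨b, n⟩, rfl⟩ := hy
    by_cases hb : a = b
    · refine ⟨Finsupp.single n 1, fun f => ?_⟩
      simp only
      rw [evL_apply, if_pos hb, Finsupp.sum_single_index (by ring), one_mul]
    · refine ⟨0, fun f => ?_⟩
      simp only
      rw [evL_apply, if_neg hb, Finsupp.sum_zero_index]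
  | zero =>
    refine ⟨0, fun f => ?_⟩
    rw [Finsupp.sum_zero_index]
    rfl
  | add y z _ _ h1 h2 =>
    obtain ⟨z1, hz1⟩ := h1
    obtain ⟨z2, hz2⟩ := h2
    refine ⟨z1 + z2, fun f => ?_⟩
    rw [BoundedContinuousFunction.add_apply, hz1, hz2, Finsupp.sum_add_index']
    · intro n
      ring
    · intro n b c
      ring
  | smul c y _ h1 =>
    obtain ⟨z1, hz1⟩ := h1
    refine ⟨c • z1, fun f => ?_⟩
    rw [BoundedContinuousFunction.smul_apply, hz1, Finsupp.sum_smul_index' (fun n => by ring),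
      Finsupp.smul_sum]
    refine Finset.sum_congr rfl (fun n _ => ?_)
    simp only [smul_eq_mul]
    ring

theorem nonempty_frame {Γ : Type} (𝒦 : Γ → Kind) : Nonempty (Frame 𝒦) := by
  have hcl : IsClosed (XX 𝒦 : Set (LL 𝒦)) := Submodule.isClosed_topologicalClosure _
  have : CompleteSpace (XX 𝒦) := hcl.completeSpace_coe
  let T : XX 𝒦 →L[ℝ] XX 𝒦 :=
    ((TL 𝒦).comp (XX 𝒦).subtypeL).codRestrict (XX 𝒦) (fun x => TL_mem_XX 𝒦 x.2)
  have hT : ∀ x : XX 𝒦, ((T x : XX 𝒦) : LL 𝒦) = TL 𝒦 (x : LL 𝒦) := fun x => rfl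
  refine ⟨{
    X := XX 𝒦
    T := T
    ev := fun a n => ⟨evL 𝒦 a n, ev_mem_XX 𝒦 a n⟩
    val := fun a x f => (x : LL 𝒦) (⟨a, f⟩ : Idx 𝒦)
    T_norm := ?_
    T_ev := ?_
    dense := ?_
    val_add := ?_
    val_sub := ?_
    val_T := ?_
    val_le := ?_
    norm_le := ?_
    val_ev_self := ?_
    val_ev_ne := ?_
    countable := ?_
    approx := ?_ }⟩
  · refine ContinuousLinearMap.opNorm_le_bound _ (by norm_num) (fun x => ?_)
    change ‖TL 𝒦 (x : LL 𝒦)‖ ≤ 2 * ‖(x : LL 𝒦)‖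
    exact (TL 𝒦).le_of_opNorm_le (TL_norm 𝒦) _
  · intro a n
    apply Subtype.ext
    rw [hT]
    exact TL_ev 𝒦 a n
  · have hmap : Submodule.map (XX 𝒦).subtype (Submodule.span ℝ (Set.range fun x : Γ × ℕ =>
        (⟨evL 𝒦 x.1 x.2, ev_mem_XX 𝒦 x.1 x.2⟩ : XX 𝒦))) = SS 𝒦 := by
      rw [Submodule.map_span, ← Set.range_comp]
      rfl
    intro x
    rw [Metric.mem_closure_iff]
    intro ε hε
    obtain ⟨y, hy, hxy⟩ := exists_close 𝒦 x.2 ε hε
    rw [← hmap] at hy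
    obtain ⟨y', hy', rfl⟩ := hy
    refine ⟨y', hy', ?_⟩
    rw [Subtype.dist_eq, dist_eq_norm]
    exact hxy
  · intro a x y f
    rfl
  · intro a x y f
    rfl
  · intro a x n
    induction n with
    | zero =>
      intro f g hg
      have : g = f := by
        apply Subtype.ext
        funext v
        rw [hg v]
        simp
      rw [this]
      simp
    | succ n ih =>
      intro f g hg
      have h1 : (T ^ (n + 1)) x = T ((T ^ n) x) := by
        rw [pow_succ']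
        rfl
      rw [h1, hT, TL_apply, ih (sh (𝒦 a) f) g, pow_succ]
      · ring
      · intro v
        rw [hg v]
        simp only [sh]
        rw [pow_succ, ← add_assoc]
        field_simp
  · intro a x f
    have := (x : LL 𝒦).norm_coe_le_norm (⟨a, f⟩ : Idx 𝒦)
    rw [Real.norm_eq_abs] at this
    exact this
  · intro x C hC h
    change ‖(x : LL 𝒦)‖ ≤ C
    refine (BoundedContinuousFunction.norm_le hC).mpr ?_
    rintro ⟨a, f⟩
    rw [Real.norm_eq_abs]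
    exact h a f
  · intro a n f
    simp only
    rw [evL_apply, if_pos rfl]
  · intro a b n f hab
    simp only
    rw [evL_apply, if_neg hab]
  · intro x
    exact countable_XX 𝒦 x.2
  · intro a x ε hε
    obtain ⟨y, hy, hxy⟩ := exists_close 𝒦 x.2 ε hε
    obtain ⟨z, hz⟩ := approx_SS 𝒦 a hy
    refine ⟨z, fun f => ?_⟩
    rw [← hz f]
    have := ((x : LL 𝒦) - y).norm_coe_le_norm (⟨a, f⟩ : Idx 𝒦)
    rw [BoundedContinuousFunction.sub_apply, Real.norm_eq_abs] at this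
    linarith

end Pool.Agent.W_MP_94b3e1_an
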