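import Pool.Agent.W_MP_94b3e1_an.Theta

/-!
# Joint reiterative recurrence of the `X_0` sequence and finitely many adversary sequences,
from the alignment of the adversary sequences
(MP_94b3e1_an, frozen statement S05452).
-/

set_option autoImplicit false

namespace Pool.Agent.W_MP_94b3e1_an

namespace Joint

lemma InR_congr (P : Params) (s : ℕ) (σ : Bool) {x y : ℕ} (h : x % P.q s σ = y % P.q s σ) :
    P.InR s σ x ↔ P.InR s σ y := by
  unfold Params.InR
  rw [h]

lemma om_of_not_InR (P : Params) (s : ℕ) (σ : Bool) (x : ℕ) (h : ¬ P.InR s σ x) :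
    P.om s σ (x % P.q s σ) = 1 / 2 ^ s := by
  unfold Params.InR at h
  unfold Params.om
  split_ifs with h1 h2 h3
  · rfl
  · exfalso; apply h; constructor <;> omega
  · exfalso; apply h; constructor <;> omega
  · rfl

lemma M_pos (P : Params) (m : ℕ) : 0 < P.M m := by
  induction m with
  | zero => have := P.M_zero; omega
  | succ m ihm => have := P.M_succ m; omega

lemma lt_G (P : Params) (j : ℕ) : j < P.G j := by
  have h1 := P.G_ge j
  have h2 := M_pos P j
  have h3 : j < 2 ^ j := Nat.lt_two_pow_self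
  have h4 : 2 ^ j * 1 ≤ 1000 * 2 ^ j * P.M j := by
    calc 2 ^ j * 1 ≤ 2 ^ j * (1000 * P.M j) := Nat.mul_le_mul_left _ (by omega)
      _ = _ := by ring
  omega

lemma not_InR_small (P : Params) (s : ℕ) (σ : Bool) {x j : ℕ} (h : x < 2 * P.G j) (hj : j ≤ s) :
    ¬ P.InR s σ x := by
  intro hx
  have h1 : P.G j ≤ P.G s := by
    apply Nat.le_of_dvd _ (Theta.G_dvd_of_le P hj)
    have := lt_G P s
    omega
  have h2 := P.G_le_a s σ
  have h3 := P.a_le s σ
  have h4 : x < P.q s σ := by omega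
  have h5 := hx.1
  rw [Nat.mod_eq_of_lt h4] at h5
  omega

lemma K0_diff (P : Params) (S x y : ℕ)
    (h1 : ∀ s < S, ∀ σ, x % P.q s σ = y % P.q s σ)
    (h2 : ∀ s, S ≤ s → ∀ σ, ¬ P.InR s σ x) (h3 : ∀ s, S ≤ s → ∀ σ, ¬ P.InR s σ y)
    (f : ℕ → ℝ) (hf : f ∈ P.K0) : |f x - f y| ≤ (1 / 2) ^ S := by
  have hpos : (0 : ℝ) ≤ (1 / 2) ^ S := by positivity
  rcases hf with ⟨c, _, rfl⟩ | ⟨s, σ, r, c, hc, hr, rfl⟩
  · simp
  · dsimp only
    rcases lt_or_ge s S with hs | hs
    · rw [h1 s hs σ]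
      simp
    · have hom : ∀ z, ¬ P.InR s σ z → z % P.q s σ = r → P.om s σ r = 1 / 2 ^ s := by
        intro z hz hzr
        rw [← hzr]
        exact om_of_not_InR P s σ z hz
      have hle : |c| * (1 / 2 ^ s) ≤ (1 / 2 : ℝ) ^ S := by
        have h4 : (1 / 2 ^ s : ℝ) ≤ (1 / 2) ^ S := by
          rw [← one_div_pow]
          exact pow_le_pow_of_le_one (by norm_num) (by norm_num) hs
        have h5 : |c| * (1 / 2 ^ s) ≤ 1 * (1 / 2 ^ s) :=
          mul_le_mul_of_nonneg_right hc (by positivity)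
        linarith
      have habs : |c * (1 / 2 ^ s)| = |c| * (1 / 2 ^ s) := by
        rw [abs_mul, abs_of_nonneg (by positivity : (0 : ℝ) ≤ 1 / 2 ^ s)]
      by_cases hx : x % P.q s σ = r
      · by_cases hy : y % P.q s σ = r
        · simp [hx, hy]
        · rw [if_pos hx, if_neg hy, hom x (h2 s hs σ) hx, sub_zero, habs]
          exact hle
      · by_cases hy : y % P.q s σ = r
        · rw [if_neg hx, if_pos hy, hom y (h3 s hs σ) hy, zero_sub, abs_neg, habs]
          exact hle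
        · simp [hx, hy]

/-- some window of length `N` contains many elements -/
lemma window (T : Set ℕ) (st L N : ℕ) (hN : 1 ≤ N) (hNL : N ≤ L) (F : Finset ℕ)
    (hF : ∀ n ∈ F, n ∈ T ∧ st ≤ n ∧ n < st + L) :
    ∃ m, (F.card : ℝ) * N / (2 * L) ≤ ({n : ℕ | m ≤ n ∧ n < m + N ∧ n ∈ T}.ncard : ℝ) := by
  classical
  set K := L / N + 1 with hK
  have hsub : F ⊆ (Finset.range K).biUnion
      (fun i => F.filter (fun n => st + i * N ≤ n ∧ n < st + i * N + N)) := by
    intro n hn
    obtain ⟨_, h1, h2⟩ := hF n hn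
    rw [Finset.mem_biUnion]
    have h3 := Nat.div_add_mod (n - st) N
    have h4 := Nat.mod_lt (n - st) (show N > 0 by omega)
    refine ⟨(n - st) / N, ?_, ?_⟩
    · rw [Finset.mem_range, hK]
      have : (n - st) / N ≤ L / N := Nat.div_le_div_right (by omega)
      omega
    · rw [Finset.mem_filter]
      have h5 : N * ((n - st) / N) = (n - st) / N * N := Nat.mul_comm _ _
      refine ⟨hn, by omega, by omega⟩
  have hcard : (F.card : ℝ) ≤ ∑ i ∈ Finset.range K,
      ({n : ℕ | st + i * N ≤ n ∧ n < st + i * N + N ∧ n ∈ T}.ncard : ℝ) := by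
    have h1 : F.card ≤ ∑ i ∈ Finset.range K,
        (F.filter (fun n => st + i * N ≤ n ∧ n < st + i * N + N)).card :=
      le_trans (Finset.card_le_card hsub) Finset.card_biUnion_le
    refine le_trans (Nat.cast_le.mpr h1) ?_
    rw [Nat.cast_sum]
    refine Finset.sum_le_sum fun i _ => ?_
    rw [Nat.cast_le, ← Set.ncard_coe_finset]
    apply Set.ncard_le_ncard
    · intro n hn
      rw [Finset.mem_coe, Finset.mem_filter] at hn
      exact ⟨hn.2.1, hn.2.2, (hF n hn.1).1⟩
    · exact (Set.finite_Iio (st + i * N + N)).subset fun n hn => hn.2.1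
  have hsum : ∑ _i ∈ Finset.range K, (F.card : ℝ) * N / (2 * L) ≤ ∑ i ∈ Finset.range K,
      ({n : ℕ | st + i * N ≤ n ∧ n < st + i * N + N ∧ n ∈ T}.ncard : ℝ) := by
    refine le_trans ?_ hcard
    rw [Finset.sum_const, Finset.card_range, nsmul_eq_mul]
    have h1 : K * N ≤ 2 * L := by
      have := Nat.div_mul_le_self L N
      rw [hK, Nat.add_mul]
      omega
    have h2 : (K : ℝ) * N ≤ 2 * L := by exact_mod_cast h1
    have hL : (0 : ℝ) < 2 * L := by
      have : (0 : ℝ) < L := by exact_mod_cast (show 0 < L by omega)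
      linarith
    have h3 : (K : ℝ) * ((F.card : ℝ) * N / (2 * L)) = (F.card : ℝ) * (K * N) / (2 * L) := by
      ring
    rw [h3, div_le_iff₀ hL]
    exact mul_le_mul_of_nonneg_left h2 (Nat.cast_nonneg _)
  obtain ⟨i, _, hi⟩ := Finset.exists_le_of_sum_le
    (Finset.nonempty_range_iff.mpr (hK ▸ Nat.succ_ne_zero _)) hsum
  exact ⟨_, hi⟩

end Joint

open Joint in
theorem joint_of_align (P : Params) {ι : Type} [Fintype ι] (p : ι → ℕ → ℕ) (κ : ℕ)
    (halign : ∃ (A : ℕ → ℕ) (B : ι → ℕ → ℕ) (nst : ℕ → ℕ),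
      (∀ k, k ≤ A k) ∧ (∀ i, B i 0 = 0) ∧ (∀ j, P.toTower.G (A (kk j)) ∣ nst j) ∧
      (∀ i j, ∀ f ∈ KW P.toTower (p i), |f (B i (j + 1)) - f (B i j)| ≤ (1 / 2) ^ (κ + j)) ∧
      (∀ j y, y ≤ j → ∀ i, ∀ j', j < j' → ∀ f ∈ KW P.toTower (p i),
        |f (B i j' + (nst j + y * P.toTower.G (A (kk j)))) - f (B i j')|
          ≤ 5 * (1 / 2) ^ (kk j))) :
    ∃ (B0 : ℕ → ℕ) (B : ι → ℕ → ℕ), B0 0 = 0 ∧ (∀ i, B i 0 = 0) ∧
      (∀ j, ∀ f ∈ P.K0, |f (B0 (j + 1)) - f (B0 j)| ≤ (1 / 2) ^ (κ + j)) ∧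
      (∀ i j, ∀ f ∈ KW P.toTower (p i), |f (B i (j + 1)) - f (B i j)| ≤ (1 / 2) ^ (κ + j)) ∧
      ∀ ε : ℝ, 0 < ε → ∃ δ : ℝ, 0 < δ ∧ ∀ N : ℕ, 1 ≤ N → ∃ m : ℕ,
        δ * (N : ℝ) ≤ ({n : ℕ | m ≤ n ∧ n < m + N ∧ ∃ J, ∀ j ≥ J,
          (∀ f ∈ P.K0, |f (B0 j + n) - f (B0 j)| ≤ ε) ∧
          ∀ i, ∀ f ∈ KW P.toTower (p i), |f (B i j + n) - f (B i j)| ≤ ε}.ncard : ℝ) := by
  obtain ⟨A, B, nst, hA, hB0, hdvd, hCauchy, hret⟩ := halign
  obtain ⟨θ, hθ0, hθq, hθR, hθret⟩ := exists_theta P A nst hA hdvd κ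
  obtain ⟨Nn, hNn⟩ := exists_N P θ hθq
  set b : ℕ → ℕ := fun j => if j = 0 then 0 else Nn (κ + j) with hb
  -- the main properties of `b`
  have hb1 : ∀ j, b j < P.G (κ + j) := by
    intro j
    by_cases h : j = 0
    · simp only [hb, h, if_true]
      have := lt_G P (κ + 0)
      omega
    · simp only [hb, h, if_false]
      exact (hNn _).1
  have hb2 : ∀ j, ∀ s < κ + j, ∀ σ, b j % P.q s σ = θ s σ := by
    intro j s hs σ
    by_cases h : j = 0
    · subst h
      simp only [hb, if_true]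
      rw [hθ0 s (by omega) σ, Nat.zero_mod]
    · simp only [hb, h, if_false]
      exact (hNn _).2 s hs σ
  have hθmod : ∀ s σ, θ s σ % P.q s σ = θ s σ := fun s σ => Nat.mod_eq_of_lt (hθq s σ)
  have hb3 : ∀ j s σ, ¬ P.InR s σ (b j) := by
    intro j s σ
    by_cases h : s < κ + j
    · rw [InR_congr P s σ (y := θ s σ) (by rw [hb2 j s h σ, hθmod])]
      exact hθR s σ
    · exact not_InR_small P s σ (j := κ + j) (by have := hb1 j; omega) (by omega)
  refine ⟨b, B, by simp [hb], hB0, ?_, hCauchy, ?_⟩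
  · intro j f hf
    apply K0_diff P (κ + j) _ _ _ _ _ f hf
    · intro s hs σ
      rw [hb2 j s hs σ, hb2 (j + 1) s (by omega) σ]
    · intro s _ σ
      exact hb3 _ s σ
    · intro s _ σ
      exact hb3 _ s σ
  · intro ε hε
    obtain ⟨k, hk⟩ : ∃ k : ℕ, 5 * (1 / 2 : ℝ) ^ k < ε := by
      obtain ⟨k, hk⟩ := exists_pow_lt_of_lt_one (show (0 : ℝ) < ε / 5 by linarith)
        (show (1 / 2 : ℝ) < 1 by norm_num)
      exact ⟨k, by linarith⟩
    have hGpos : 0 < P.G (A k) := by have := lt_G P (A k); omega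
    have hGposR : (0 : ℝ) < (P.G (A k) : ℝ) := by exact_mod_cast hGpos
    refine ⟨1 / (4 * (P.G (A k) : ℝ)), by positivity, ?_⟩
    intro N hN
    obtain ⟨J, hJ⟩ := hθret k
    obtain ⟨j, hj1, hj2, hj3⟩ : ∃ j, J ≤ j ∧ N ≤ j + 1 ∧ kk j = k := by
      refine ⟨Nat.pair k (J + N), ?_, ?_, ?_⟩
      · have := Nat.right_le_pair k (J + N); omega
      · have := Nat.right_le_pair k (J + N); omega
      · simp [kk]
    have hgood := hJ j hj1 hj3
    set Y : Set ℕ := {y : ℕ | y ≤ j ∧ ∀ s, A k ≤ s → ∀ σ,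
            ¬ P.InR s σ (θ s σ + (nst j + y * P.G (A k)))} with hY
    have hYfin : Y.Finite := (Set.finite_Iic j).subset fun y hy => hy.1
    set T : Set ℕ := {n : ℕ | ∃ J, ∀ j ≥ J,
          (∀ f ∈ P.K0, |f (b j + n) - f (b j)| ≤ ε) ∧
          ∀ i, ∀ f ∈ KW P.toTower (p i), |f (B i j + n) - f (B i j)| ≤ ε} with hT
    have hYT : ∀ y ∈ Y, nst j + y * P.G (A k) ∈ T := by
      intro y hy
      refine ⟨max (j + 1) (nst j + y * P.G (A k)), ?_⟩
      intro j' hj'
      have hj'1 : j < j' := by have := le_max_left (j + 1) (nst j + y * P.G (A k)); omega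
      have hj'2 : nst j + y * P.G (A k) ≤ j' := by
        have := le_max_right (j + 1) (nst j + y * P.G (A k)); omega
      constructor
      · intro f hf
        have h1 : |f (b j' + (nst j + y * P.G (A k))) - f (b j')| ≤ (1 / 2) ^ (A k) := by
          apply K0_diff P (A k) _ _ _ _ _ f hf
          · intro s hs σ
            have h2 : P.q s σ ∣ nst j + y * P.G (A k) := by
              have h3 : P.q s σ ∣ P.G (A k) :=
                (P.q_dvd s σ).trans (Theta.G_dvd_of_le P hs)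
              have h4 := hdvd j
              rw [hj3] at h4
              exact dvd_add (h3.trans h4) (h3.mul_left y)
            obtain ⟨w, hw⟩ := h2
            rw [hw, Nat.add_mul_mod_self_left]
          · intro s hs σ
            by_cases h : s < κ + j'
            · rw [InR_congr P s σ (y := θ s σ + (nst j + y * P.G (A k)))]
              · exact hy.2 s hs σ
              · exact Nat.ModEq.add_right _ (show b j' % P.q s σ = θ s σ % P.q s σ by
                  rw [hb2 j' s h σ, hθmod])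
            · apply not_InR_small P s σ (j := κ + j') _ (by omega)
              have h5 := hb1 j'
              have h6 := lt_G P (κ + j')
              omega
          · intro s _ σ
            exact hb3 _ s σ
        have h2 : (1 / 2 : ℝ) ^ (A k) ≤ (1 / 2) ^ k :=
          pow_le_pow_of_le_one (by norm_num) (by norm_num) (hA k)
        have h3 : (0 : ℝ) ≤ (1 / 2 : ℝ) ^ k := by positivity
        linarith
      · intro i f hf
        have h1 := hret j y hy.1 i j' hj'1 f hf
        rw [hj3] at h1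
        linarith
    set F : Finset ℕ := hYfin.toFinset.image (fun y => nst j + y * P.G (A k)) with hF
    have hFcard : F.card = Y.ncard := by
      rw [hF, Finset.card_image_of_injective, Set.ncard_eq_toFinset_card Y hYfin]
      intro x y hxy
      have hxy' : nst j + x * P.G (A k) = nst j + y * P.G (A k) := hxy
      exact Nat.eq_of_mul_eq_mul_right hGpos (by omega)
    have hF' : ∀ n ∈ F, n ∈ T ∧ nst j ≤ n ∧ n < nst j + (j + 1) * P.G (A k) := by
      intro n hn
      obtain ⟨y, hy, rfl⟩ := Finset.mem_image.mp hn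
      have hy' : y ∈ Y := (Set.Finite.mem_toFinset hYfin).mp hy
      refine ⟨hYT y hy', by omega, ?_⟩
      have h1 : y * P.G (A k) < (j + 1) * P.G (A k) :=
        Nat.mul_lt_mul_of_pos_right (by have := hy'.1; omega) hGpos
      omega
    have hNL : N ≤ (j + 1) * P.G (A k) :=
      le_trans hj2 (Nat.le_mul_of_pos_right _ hGpos)
    obtain ⟨m, hm⟩ := window T (nst j) ((j + 1) * P.G (A k)) N hN hNL F hF'
    refine ⟨m, le_trans ?_ hm⟩
    rw [hFcard]
    have hNR : (0 : ℝ) < (N : ℝ) := by exact_mod_cast hN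
    have hjR : (0 : ℝ) < ((j + 1 : ℕ) : ℝ) := by positivity
    rw [le_div_iff₀ (by push_cast; push_cast at hjR; positivity)]
    have h7 : 1 / (4 * (P.G (A k) : ℝ)) * N * (2 * (((j + 1) * P.G (A k) : ℕ) : ℝ)) =
        ((j + 1 : ℕ) : ℝ) / 2 * N := by
      push_cast
      field_simp
      ring
    rw [h7]
    exact mul_le_mul_of_nonneg_right hgood hNR.le

end Pool.Agent.W_MP_94b3e1_an
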