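import Pool.Agent.W_MP_94b3e1_an.Align
import Pool.Agent.W_MP_94b3e1_an.JointAux

/-!
# Joint reiterative recurrence of the `X_0` sequence and finitely many adversary sequences
(MP_94b3e1_an, frozen statement S05452).
-/

set_option autoImplicit false

namespace Pool.Agent.W_MP_94b3e1_an

theorem joint (P : Params) {ι : Type} [Fintype ι] (p : ι → ℕ → ℕ)
    (hp : ∀ i, IsPos P.toTower (p i)) (κ : ℕ) :
    ∃ (B0 : ℕ → ℕ) (B : ι → ℕ → ℕ), B0 0 = 0 ∧ (∀ i, B i 0 = 0) ∧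
      (∀ j, ∀ f ∈ P.K0, |f (B0 (j + 1)) - f (B0 j)| ≤ (1 / 2) ^ (κ + j)) ∧
      (∀ i j, ∀ f ∈ KW P.toTower (p i), |f (B i (j + 1)) - f (B i j)| ≤ (1 / 2) ^ (κ + j)) ∧
      ∀ ε : ℝ, 0 < ε → ∃ δ : ℝ, 0 < δ ∧ ∀ N : ℕ, 1 ≤ N → ∃ m : ℕ,
        δ * (N : ℝ) ≤ ({n : ℕ | m ≤ n ∧ n < m + N ∧ ∃ J, ∀ j ≥ J,
          (∀ f ∈ P.K0, |f (B0 j + n) - f (B0 j)| ≤ ε) ∧
          ∀ i, ∀ f ∈ KW P.toTower (p i), |f (B i j + n) - f (B i j)| ≤ ε}.ncard : ℝ) :=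
  joint_of_align P p κ (align P.toTower p hp κ)

end Pool.Agent.W_MP_94b3e1_an
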