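import Pool.Agent.W_MP_94b3e1_an.Defs

/-!
# `K0` and `KW` are kinds; linear relations; phases (MP_94b3e1_an, frozen statement S05452)
-/

set_option autoImplicit false

namespace Pool.Agent.W_MP_94b3e1_an

/-! ### the weights -/

lemma Params.G_pos (P : Params) (s : ℕ) : 2 ^ s < P.G s := by
  have h1 := P.G_ge s
  have h2 : 1 ≤ P.M s := by
    rcases Nat.eq_zero_or_pos s with rfl | hs
    · have := P.M_zero; omega
    · have : ∀ t, 1 ≤ P.M t := by
        intro t
        induction t with
        | zero => have := P.M_zero; omega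
        | succ t ih => have := P.M_succ t; omega
      exact this s
  have h3 : 0 < 2 ^ s := by positivity
  nlinarith

lemma Params.a_pos (P : Params) (s : ℕ) (σ : Bool) : 0 < P.a s σ := by
  have h1 := P.G_le_a s σ
  have h2 := P.G_pos s
  have h3 : 0 < 2 ^ s := by positivity
  omega

lemma Params.q_pos (P : Params) (s : ℕ) (σ : Bool) : 0 < P.q s σ := by
  have h1 := P.a_le s σ
  have h2 := P.a_pos s σ
  omega

lemma Params.le_om (P : Params) (s : ℕ) (σ : Bool) (r : ℕ) : 1 / 2 ^ s ≤ P.om s σ r := by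
  have h0 : (0 : ℝ) < 2 ^ s := by positivity
  unfold Params.om
  split_ifs
  · exact le_rfl
  · exact div_le_div_of_nonneg_right (one_le_pow₀ (by norm_num)) h0.le
  · exact div_le_div_of_nonneg_right (one_le_pow₀ (by norm_num)) h0.le
  · exact le_rfl

lemma Params.om_pos (P : Params) (s : ℕ) (σ : Bool) (r : ℕ) : 0 < P.om s σ r :=
  lt_of_lt_of_le (by positivity) (P.le_om s σ r)

lemma Params.om_le (P : Params) (s : ℕ) (σ : Bool) (r : ℕ) : P.om s σ r ≤ 2 ^ P.h s σ := by
  have h0 : (1 : ℝ) ≤ 2 ^ s := one_le_pow₀ (by norm_num)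
  have h1 : (1 : ℝ) ≤ 2 ^ P.h s σ := one_le_pow₀ (by norm_num)
  have h2 : (1 : ℝ) / 2 ^ s ≤ 2 ^ P.h s σ := by
    calc (1 : ℝ) / 2 ^ s ≤ 1 := by
          rw [div_le_one (by positivity)]
          exact h0
      _ ≤ _ := h1
  unfold Params.om
  split_ifs with h3 h4
  · exact h2
  · calc (2 : ℝ) ^ (r - P.a s σ) / 2 ^ s ≤ 2 ^ (r - P.a s σ) := div_le_self (by positivity) h0
      _ ≤ 2 ^ P.h s σ := pow_le_pow_right₀ (by norm_num) (by omega)
  · exact div_le_self (by positivity) h0
  · exact h2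

lemma Params.om_lt_a (P : Params) (s : ℕ) (σ : Bool) (r : ℕ) (hr : r < P.a s σ) :
    P.om s σ r = 1 / 2 ^ s := by
  rw [Params.om, if_pos hr]

/-- the weight at most doubles from `r` to `r + 1` -/
lemma Params.om_succ_le (P : Params) (s : ℕ) (σ : Bool) (r : ℕ) :
    P.om s σ (r + 1) ≤ 2 * P.om s σ r := by
  have h0 : (0 : ℝ) < 2 ^ s := by positivity
  have h1 := P.le_om s σ r
  have h2 := P.om_pos s σ r
  have h3 : 1 / 2 ^ s ≤ 2 * P.om s σ r := by linarith
  by_cases c1 : r + 1 ≤ P.a s σ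
  · have : P.om s σ (r + 1) = 1 / 2 ^ s := by
      unfold Params.om
      rcases c1.lt_or_eq with c1 | c1
      · rw [if_pos c1]
      · rw [if_neg (by omega)]
        by_cases c2 : r + 1 < P.a s σ + P.h s σ
        · rw [if_pos c2, c1, Nat.sub_self, pow_zero]
        · rw [if_neg c2]
          have c3 : P.h s σ = 0 := by omega
          rw [c3, pow_zero]
          simp
    rw [this]
    exact h3
  · push Not at c1
    by_cases c2 : r + 1 < P.a s σ + P.h s σ
    · have e1 : P.om s σ (r + 1) = 2 ^ (r + 1 - P.a s σ) / 2 ^ s := by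
        rw [Params.om, if_neg (by omega), if_pos c2]
      have e2 : P.om s σ r = 2 ^ (r - P.a s σ) / 2 ^ s := by
        rw [Params.om, if_neg (by omega), if_pos (by omega)]
      rw [e1, e2, show r + 1 - P.a s σ = (r - P.a s σ) + 1 by omega, pow_succ]
      apply le_of_eq
      ring
    · push Not at c2
      by_cases c3 : r + 1 < P.a s σ + P.h s σ + P.H s
      · have e1 : P.om s σ (r + 1) = 2 ^ (P.h s σ) / 2 ^ s := by
          rw [Params.om, if_neg (by omega), if_neg (by omega), if_pos c3]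
        rw [e1]
        by_cases c4 : r < P.a s σ + P.h s σ
        · have e2 : P.om s σ r = 2 ^ (r - P.a s σ) / 2 ^ s := by
            rw [Params.om, if_neg (by omega), if_pos (by omega)]
          rw [e2, show P.h s σ = (r - P.a s σ) + 1 by omega, pow_succ]
          apply le_of_eq
          ring
        · have e2 : P.om s σ r = 2 ^ (P.h s σ) / 2 ^ s := by
            rw [Params.om, if_neg (by omega), if_neg (by omega), if_pos (by omega)]
          rw [e2] at h2 ⊢
          linarith
      · have e1 : P.om s σ (r + 1) = 1 / 2 ^ s := by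
          rw [Params.om, if_neg (by omega), if_neg (by omega), if_neg (by omega)]
        rw [e1]
        exact h3

/-! ### `K0` -/

lemma const_mem_K0 (P : Params) (c : ℝ) (hc : |c| ≤ 1) : (fun _ => c) ∈ P.K0 :=
  Or.inl ⟨c, hc, rfl⟩

lemma block_mem_K0 (P : Params) (s : ℕ) (σ : Bool) (r : ℕ) (c : ℝ) (hc : |c| ≤ 1)
    (hr : r < P.q s σ) :
    (fun n => if n % P.q s σ = r then c * P.om s σ r else 0) ∈ P.K0 :=
  Or.inr ⟨s, σ, r, c, hc, hr, rfl⟩

theorem K0_bdd (P : Params) (n : ℕ) : ∃ C : ℝ, ∀ f ∈ P.K0, |f n| ≤ C := by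
  refine ⟨1 + ∑ s ∈ Finset.range (n + 1), ((2 : ℝ) ^ P.h s true + 2 ^ P.h s false), ?_⟩
  have hS : (0 : ℝ) ≤ ∑ s ∈ Finset.range (n + 1), ((2 : ℝ) ^ P.h s true + 2 ^ P.h s false) :=
    Finset.sum_nonneg fun s _ => by positivity
  rintro f (⟨c, hc, rfl⟩ | ⟨s, σ, r, c, hc, hr, rfl⟩)
  · linarith
  · show |if n % P.q s σ = r then c * P.om s σ r else 0| ≤ _
    split_ifs with h
    · rw [abs_mul, abs_of_pos (P.om_pos s σ r)]
      have h1 : |c| * P.om s σ r ≤ P.om s σ r :=
        mul_le_of_le_one_left (P.om_pos s σ r).le hc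
      refine h1.trans ?_
      by_cases hs : s < n + 1
      · have h2 : (2 : ℝ) ^ P.h s true + 2 ^ P.h s false ≤
            ∑ s ∈ Finset.range (n + 1), ((2 : ℝ) ^ P.h s true + 2 ^ P.h s false) :=
          Finset.single_le_sum (f := fun s => (2 : ℝ) ^ P.h s true + 2 ^ P.h s false)
            (fun s _ => by positivity) (Finset.mem_range.2 hs)
        have h3 := P.om_le s σ r
        have h4 : (2 : ℝ) ^ P.h s σ ≤ 2 ^ P.h s true + 2 ^ P.h s false := by
          cases σ
          · have : (0 : ℝ) < 2 ^ P.h s true := by positivity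
            linarith
          · have : (0 : ℝ) < 2 ^ P.h s false := by positivity
            linarith
        linarith
      · push Not at hs
        have h2 : n < P.a s σ := by
          have e1 := P.G_pos s
          have e2 := P.G_le_a s σ
          have e3 : s < 2 ^ s := Nat.lt_two_pow_self
          omega
        have h3 : r < P.a s σ := by
          have := Nat.mod_le n (P.q s σ)
          omega
        rw [P.om_lt_a s σ r h3]
        have h4 : (1 : ℝ) / 2 ^ s ≤ 1 := by
          rw [div_le_one (by positivity)]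
          exact one_le_pow₀ (by norm_num)
        linarith
    · rw [abs_zero]
      linarith

theorem K0_shift (P : Params) (f : ℕ → ℝ) (hf : f ∈ P.K0) : (fun n => f (n + 1) / 2) ∈ P.K0 := by
  rcases hf with ⟨c, hc, rfl⟩ | ⟨s, σ, r, c, hc, hr, rfl⟩
  · exact const_mem_K0 P (c / 2) (by rw [abs_div, abs_two]; linarith [abs_nonneg c])
  · have hq := P.q_pos s σ
    -- the previous residue
    obtain ⟨r', hr', hiff, hom⟩ : ∃ r' < P.q s σ, (∀ n, (n + 1) % P.q s σ = r ↔ n % P.q s σ = r') ∧
        P.om s σ r ≤ 2 * P.om s σ r' := by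
      rcases Nat.eq_zero_or_pos r with rfl | hr0
      · refine ⟨P.q s σ - 1, by omega, fun n => ?_, ?_⟩
        · rw [Nat.add_mod_eq_ite]
          have h1 : n % P.q s σ < P.q s σ := Nat.mod_lt _ hq
          rcases Nat.lt_or_ge 1 (P.q s σ) with hq1 | hq1
          · rw [Nat.mod_eq_of_lt hq1]
            split_ifs with h2
            · omega
            · exact ⟨fun h => h.elim, fun h => h2 (by omega)⟩
          · have : P.q s σ = 1 := by omega
            rw [this] at h1 ⊢
            simp [Nat.mod_one]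
        · rw [P.om_lt_a s σ 0 (P.a_pos s σ)]
          have h1 := P.le_om s σ (P.q s σ - 1)
          have h2 := P.om_pos s σ (P.q s σ - 1)
          linarith
      · obtain ⟨r', rfl⟩ : ∃ r', r = r' + 1 := ⟨r - 1, by omega⟩
        refine ⟨r', by omega, fun n => ?_, P.om_succ_le s σ r'⟩
        rw [Nat.add_mod_eq_ite]
        have h1 : n % P.q s σ < P.q s σ := Nat.mod_lt _ hq
        have hq1 : 1 < P.q s σ := by omega
        rw [Nat.mod_eq_of_lt hq1]
        split_ifs <;> omega
    have h1 := P.om_pos s σ r'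
    have h2 := P.om_pos s σ r
    have h3 : (fun n => (if (n + 1) % P.q s σ = r then c * P.om s σ r else 0) / 2) =
        fun n => if n % P.q s σ = r' then (c * P.om s σ r / (2 * P.om s σ r')) * P.om s σ r'
          else 0 := by
      funext n
      by_cases h : n % P.q s σ = r'
      · rw [if_pos h, if_pos ((hiff n).2 h)]
        field_simp
      · rw [if_neg h, if_neg fun h' => h ((hiff n).1 h')]
        simp
    show (fun n => (if (n + 1) % P.q s σ = r then c * P.om s σ r else 0) / 2) ∈ P.K0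
    rw [h3]
    refine block_mem_K0 P s σ r' _ ?_ hr'
    rw [abs_div, abs_mul, abs_of_pos h2, abs_of_pos (by positivity : 0 < 2 * P.om s σ r'),
      div_le_one (by positivity)]
    calc |c| * P.om s σ r ≤ 1 * P.om s σ r := by gcongr
      _ ≤ _ := by rw [one_mul]; exact hom

theorem K0_zero (P : Params) (f : ℕ → ℝ) (hf : f ∈ P.K0) : |f 0| ≤ 1 := by
  rcases hf with ⟨c, hc, rfl⟩ | ⟨s, σ, r, c, hc, hr, rfl⟩
  · exact hc
  · show |if 0 % P.q s σ = r then c * P.om s σ r else 0| ≤ 1
    split_ifs with h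
    · rw [Nat.zero_mod] at h
      subst h
      rw [P.om_lt_a s σ 0 (P.a_pos s σ), abs_mul, abs_of_pos (by positivity : (0 : ℝ) < 1 / 2 ^ s)]
      have h4 : (1 : ℝ) / 2 ^ s ≤ 1 := by
        rw [div_le_one (by positivity)]
        exact one_le_pow₀ (by norm_num)
      calc |c| * (1 / 2 ^ s) ≤ 1 * 1 := by gcongr
        _ = 1 := by norm_num
    · simp

/-! ### `KW` -/

theorem KW_bdd (τ : Tower) (p : ℕ → ℕ) (n : ℕ) : ∃ C : ℝ, ∀ f ∈ KW τ p, |f n| ≤ C :=
  ⟨2 ^ n, fun _ hf => hf.1 n⟩

theorem KW_shift (τ : Tower) (p : ℕ → ℕ) (f : ℕ → ℝ) (hf : f ∈ KW τ p) :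
    (fun n => f (n + 1) / 2) ∈ KW τ p := by
  refine ⟨fun v => ?_, fun s i hi v => ?_⟩
  · have h := hf.1 (v + 1)
    rw [pow_succ] at h
    show |f (v + 1) / 2| ≤ 2 ^ v
    rw [abs_div, abs_two]
    linarith
  · have h := hf.2 s i hi (v + 1)
    show |f (p s + i * τ.G (τ.c s) + v + 1) / 2 - f (v + 1) / 2| ≤ 2 ^ v / 2 ^ (τ.M (τ.c s))
    rw [← sub_div, abs_div, abs_two]
    rw [← add_assoc, pow_succ] at h
    have e : (2 : ℝ) ^ v * 2 / 2 ^ (τ.M (τ.c s)) = 2 * (2 ^ v / 2 ^ (τ.M (τ.c s))) := by ring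
    rw [e] at h
    linarith

/-! ### linear relations -/

/-- general linear relations pass to `φ` -/
theorem isV_rel {K : Set (ℕ → ℝ)} {φ : (ℕ → ℝ) → ℝ} (hφ : IsV K φ) {ι : Type} (t : Finset ι)
    (F : ι → ℕ → ℝ) (co : ι → ℝ) (hF : ∀ i ∈ t, ∃ C : ℝ, 0 < C ∧ (fun n => F i n / C) ∈ K)
    (hrel : ∀ x, ∑ i ∈ t, co i * F i x = 0) : ∑ i ∈ t, co i * φ (F i) = 0 := by
  classical
  have hF' : ∀ i, ∃ C : ℝ, 0 < C ∧ (i ∈ t → (fun n => F i n / C) ∈ K) := by
    intro i
    by_cases hi : i ∈ t
    · obtain ⟨C, hC, h⟩ := hF i hi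
      exact ⟨C, hC, fun _ => h⟩
    · exact ⟨1, one_pos, fun h => absurd h hi⟩
  choose C hC hCK using hF'
  set B : ℝ := ∑ i ∈ t, |co i| * C i with hB
  have hB0 : 0 ≤ B := Finset.sum_nonneg fun i _ => mul_nonneg (abs_nonneg _) (hC i).le
  have key : ∀ ε : ℝ, 0 < ε → |∑ i ∈ t, co i * φ (F i)| ≤ B * ε := by
    intro ε hε
    obtain ⟨z, hz⟩ := hφ ε hε
    have h1 : ∑ i ∈ t, co i * z.sum (fun n a => a * F i n) = 0 := by
      simp only [Finsupp.sum, Finset.mul_sum]
      rw [Finset.sum_comm]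
      refine Finset.sum_eq_zero fun n _ => ?_
      have : ∑ i ∈ t, co i * (z n * F i n) = z n * ∑ i ∈ t, co i * F i n := by
        rw [Finset.mul_sum]
        exact Finset.sum_congr rfl fun i _ => by ring
      rw [this, hrel n, mul_zero]
    have h2 : ∑ i ∈ t, co i * φ (F i) =
        ∑ i ∈ t, co i * (φ (F i) - z.sum (fun n a => a * F i n)) := by
      simp only [mul_sub, Finset.sum_sub_distrib]
      rw [h1, sub_zero]
    rw [h2]
    refine (Finset.abs_sum_le_sum_abs _ _).trans ?_
    rw [hB, Finset.sum_mul]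
    refine Finset.sum_le_sum fun i hi => ?_
    rw [abs_mul, mul_assoc]
    exact mul_le_mul_of_nonneg_left (hz (F i) (C i) (hC i) (hCK i hi)) (abs_nonneg _)
  have h3 : |∑ i ∈ t, co i * φ (F i)| ≤ 0 := by
    refine le_of_forall_pos_le_add fun ε hε => ?_
    have h4 := key (ε / (B + 1)) (by positivity)
    refine h4.trans ?_
    rw [zero_add, ← mul_div_assoc, div_le_iff₀ (by positivity)]
    nlinarith
  exact abs_eq_zero.1 (le_antisymm h3 (abs_nonneg _))

/-- homogeneity of `φ` -/
theorem isV_smul {K : Set (ℕ → ℝ)} {φ : (ℕ → ℝ) → ℝ} (hφ : IsV K φ) (f : ℕ → ℝ) (c : ℝ)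
    (hc : 0 < c) (hf : ∃ C : ℝ, 0 < C ∧ (fun n => f n / C) ∈ K) :
    φ (fun x => c * f x) = c * φ f := by
  have h := isV_rel hφ (Finset.univ : Finset Bool)
    (fun b => if b then (fun x => c * f x) else f) (fun b => if b then 1 else -c) ?_ ?_
  · simp only [Fintype.sum_bool, if_true, Bool.false_eq_true, if_false, one_mul] at h
    linarith
  · intro b _
    obtain ⟨C, hC, hK⟩ := hf
    cases b
    · exact ⟨C, hC, by simpa using hK⟩
    · refine ⟨c * C, by positivity, ?_⟩
      have : (fun n => c * f n / (c * C)) = fun n => f n / C := by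
        funext n
        field_simp
      simp only [if_true]
      rw [this]
      exact hK
  · intro x
    simp only [Fintype.sum_bool, if_true, Bool.false_eq_true, if_false, one_mul]
    ring

/-- phases of a vector of `X_0` close to `ev 0` -/
theorem exists_phase (P : Params) (φ : (ℕ → ℝ) → ℝ) (hφ : IsV P.K0 φ)
    (h0 : ∀ f ∈ P.K0, |φ f - f 0| ≤ 1 / 4) :
    ∃ m : ℕ → Bool → ℕ, ∀ n, (∀ f ∈ P.K0, |φ (fun x => f (x + n))| ≤ 3) →
      ∀ s σ, ¬ P.InHigh s σ (n + m s σ) := by
  classical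
  -- indicator functions of residue classes
  let u : ℕ → Bool → ℕ → ℕ → ℝ := fun s σ r x => if x % P.q s σ = r then 1 else 0
  have hu : ∀ s σ r, r < P.q s σ → ∃ C : ℝ, 0 < C ∧ (fun n => u s σ r n / C) ∈ P.K0 := by
    intro s σ r hr
    have h1 := P.om_pos s σ r
    refine ⟨1 / P.om s σ r, by positivity, ?_⟩
    have h2 : (fun n => u s σ r n / (1 / P.om s σ r)) =
        fun n => if n % P.q s σ = r then 1 * P.om s σ r else 0 := by
      funext n
      simp only [u]
      split_ifs
      · rw [one_div, one_div, inv_inv, one_mul]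
      · simp
    rw [h2]
    exact block_mem_K0 P s σ r 1 (by simp) hr
  have hone : 3 / 4 ≤ φ (fun _ => 1) := by
    have h1 := h0 (fun _ => 1) (const_mem_K0 P 1 (by simp))
    have h2 := (abs_le.1 h1).1
    linarith
  have hex : ∀ s σ, ∃ r, r < P.q s σ ∧ 3 / 4 / (P.q s σ : ℝ) ≤ |φ (u s σ r)| := by
    intro s σ
    by_contra hcon
    push Not at hcon
    have hq := P.q_pos s σ
    have hq' : (0 : ℝ) < P.q s σ := by exact_mod_cast hq
    have h1 := isV_rel hφ (Finset.univ : Finset (Option (Fin (P.q s σ))))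
      (fun o => o.elim (fun _ => 1) fun r => u s σ r) (fun o => o.elim 1 fun _ => -1) ?_ ?_
    · rw [Fintype.sum_option] at h1
      simp only [Option.elim_none, Option.elim_some, one_mul, neg_mul, Finset.sum_neg_distrib] at h1
      have h2 : φ (fun _ => 1) = ∑ r : Fin (P.q s σ), φ (u s σ r) := by linarith
      have h3 : |∑ r : Fin (P.q s σ), φ (u s σ r)| < 3 / 4 := by
        refine (Finset.abs_sum_le_sum_abs _ _).trans_lt ?_
        have : ∑ r : Fin (P.q s σ), |φ (u s σ r)| <
            ∑ r : Fin (P.q s σ), 3 / 4 / (P.q s σ : ℝ) := by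
          refine Finset.sum_lt_sum_of_nonempty ⟨⟨0, hq⟩, Finset.mem_univ _⟩ fun r _ => ?_
          exact hcon r r.2
        refine this.trans_eq ?_
        rw [Finset.sum_const, Finset.card_univ, Fintype.card_fin, nsmul_eq_mul]
        field_simp
      rw [← h2] at h3
      have := le_abs_self (φ fun _ => 1)
      linarith
    · intro o _
      cases o with
      | none => exact ⟨1, one_pos, by simpa using const_mem_K0 P 1 (by simp)⟩
      | some r => exact hu s σ r r.2
    · intro x
      rw [Fintype.sum_option]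
      simp only [Option.elim_none, Option.elim_some, one_mul, neg_mul, Finset.sum_neg_distrib]
      have h2 : ∑ r : Fin (P.q s σ), u s σ r x = 1 := by
        rw [Finset.sum_eq_single (⟨x % P.q s σ, Nat.mod_lt _ hq⟩ : Fin (P.q s σ))]
        · simp [u]
        · intro b _ hb
          simp only [u]
          rw [if_neg]
          intro h
          exact hb (Fin.ext h.symm)
        · simp
      rw [h2]
      norm_num
  choose m hm hmφ using hex
  refine ⟨m, fun n hn s σ hH => ?_⟩
  have hq := P.q_pos s σ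
  have hq' : (0 : ℝ) < P.q s σ := by exact_mod_cast hq
  obtain ⟨hH1, hH2⟩ := hH
  set r' := (n + m s σ) % P.q s σ with hr'
  have hr'q : r' < P.q s σ := Nat.mod_lt _ hq
  have hom : P.om s σ r' = 2 ^ P.h s σ / 2 ^ s := by
    rw [Params.om, if_neg (by omega), if_neg (by omega), if_pos hH2]
  have h1 := hn _ (block_mem_K0 P s σ r' 1 (by simp) hr'q)
  have h2 : (fun x => (fun n => if n % P.q s σ = r' then 1 * P.om s σ r' else 0) (x + n)) =
      fun x => P.om s σ r' * u s σ (m s σ) x := by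
    funext x
    simp only [u]
    have h3 : (x + n) % P.q s σ = r' ↔ x % P.q s σ = m s σ := by
      rw [hr', add_comm x n]
      constructor
      · intro h
        have h4 : x ≡ m s σ [MOD P.q s σ] := Nat.ModEq.add_left_cancel' n h
        have h5 : x % P.q s σ = m s σ % P.q s σ := h4
        rw [h5, Nat.mod_eq_of_lt (hm s σ)]
      · intro h
        have h4 : x ≡ m s σ [MOD P.q s σ] := by
          show x % P.q s σ = m s σ % P.q s σ
          rw [h, Nat.mod_eq_of_lt (hm s σ)]
        exact h4.add_left n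
    by_cases h : x % P.q s σ = m s σ
    · rw [if_pos h, if_pos (h3.2 h)]
      ring
    · rw [if_neg h, if_neg fun h' => h (h3.1 h')]
      ring
  rw [h2, isV_smul hφ (u s σ (m s σ)) _ (P.om_pos s σ r') (hu s σ _ (hm s σ)), abs_mul,
    abs_of_pos (P.om_pos s σ r'), hom] at h1
  have h4 : (8 : ℝ) * P.q s σ ≤ 2 ^ P.h s σ / 2 ^ s := by
    rw [le_div_iff₀ (by positivity)]
    exact_mod_cast P.h_ge s σ
  have h5 := hmφ s σ
  have h6 : (8 : ℝ) * P.q s σ * (3 / 4 / (P.q s σ : ℝ)) ≤
      2 ^ P.h s σ / 2 ^ s * |φ (u s σ (m s σ))| := by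
    apply mul_le_mul h4 h5 (by positivity) (by positivity)
  have h7 : (8 : ℝ) * P.q s σ * (3 / 4 / (P.q s σ : ℝ)) = 6 := by
    field_simp
    norm_num
  linarith

end Pool.Agent.W_MP_94b3e1_an
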