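import Pool.Agent.W_MP_94b3e1_an.Defs

set_option autoImplicit false

namespace Pool.Agent.W_MP_94b3e1_an

/-- one step: a modulus `q` coprime to `B`, huge compared with `h + H`, where `h` is about
`log q`. -/
lemma step (s H B : ℕ) : ∃ q h : ℕ, 0 < B → (q.Coprime B ∧
    2 ^ (2 * s + 14) * (h + H) ^ 2 ≤ q ∧ 8 * q * 2 ^ s ≤ 2 ^ h ∧ 4 * B ≤ q ∧ 2 ≤ h + H) := by
  obtain ⟨m, hm⟩ : ∃ m, m = (2 * s + 14) + (B + 1 + s + 3) + H + 1 := ⟨_, rfl⟩
  refine ⟨2 ^ (4 * m) * B + 1, 4 * m + (B + 1 + s + 3), fun hB => ⟨?_, ?_, ?_, ?_, ?_⟩⟩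
  · rw [Nat.coprime_comm]
    simp
  · have h1 : 4 * m + (B + 1 + s + 3) + H ≤ 5 * m := by omega
    have h2 : 2 ^ (2 * s + 14) ≤ 2 ^ m := Nat.pow_le_pow_right (by norm_num) (by omega)
    have h3 : m ≤ 2 ^ m := Nat.lt_two_pow_self.le
    have h4 : (25 : ℕ) ≤ 2 ^ m := by
      calc (25 : ℕ) ≤ 2 ^ 14 := by norm_num
        _ ≤ 2 ^ m := Nat.pow_le_pow_right (by norm_num) (by omega)
    calc 2 ^ (2 * s + 14) * (4 * m + (B + 1 + s + 3) + H) ^ 2
        ≤ 2 ^ m * (5 * m) ^ 2 := Nat.mul_le_mul h2 (Nat.pow_le_pow_left h1 2)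
      _ = 2 ^ m * (25 * m ^ 2) := by ring
      _ ≤ 2 ^ m * (2 ^ m * (2 ^ m) ^ 2) :=
          Nat.mul_le_mul le_rfl (Nat.mul_le_mul h4 (Nat.pow_le_pow_left h3 2))
      _ = 2 ^ (4 * m) := by
          rw [show 4 * m = m + (m + 2 * m) by ring, pow_add, pow_add, mul_comm 2 m, pow_mul]
      _ ≤ 2 ^ (4 * m) * B + 1 := by nlinarith [Nat.one_le_two_pow (n := 4 * m)]
  · have h1 : 2 ^ (4 * m) * B + 1 ≤ 2 ^ (4 * m) * (B + 1) := by
      have : 1 ≤ 2 ^ (4 * m) := Nat.one_le_two_pow
      nlinarith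
    have h2 : B + 1 ≤ 2 ^ (B + 1) := Nat.lt_two_pow_self.le
    calc 8 * (2 ^ (4 * m) * B + 1) * 2 ^ s ≤ 8 * (2 ^ (4 * m) * 2 ^ (B + 1)) * 2 ^ s := by
          gcongr
          exact h1.trans (Nat.mul_le_mul le_rfl h2)
      _ = 2 ^ (4 * m + (B + 1 + s + 3)) := by
          rw [show 4 * m + (B + 1 + s + 3) = 4 * m + (B + 1) + s + 3 by ring, pow_add, pow_add,
            pow_add]
          ring
  · have : 4 ≤ 2 ^ (4 * m) := by
      calc 4 = 2 ^ 2 := by norm_num
        _ ≤ 2 ^ (4 * m) := Nat.pow_le_pow_right (by norm_num) (by omega)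
    nlinarith
  · omega

open Classical in
/-- chosen modulus -/
noncomputable def qf (s H B : ℕ) : ℕ := (step s H B).choose

open Classical in
/-- chosen ramp length -/
noncomputable def hf (s H B : ℕ) : ℕ := (step s H B).choose_spec.choose

lemma qhf (s H B : ℕ) (hB : 0 < B) : (qf s H B).Coprime B ∧
    2 ^ (2 * s + 14) * (hf s H B + H) ^ 2 ≤ qf s H B ∧
    8 * qf s H B * 2 ^ s ≤ 2 ^ (hf s H B) ∧ 4 * B ≤ qf s H B ∧ 2 ≤ hf s H B + H :=
  (step s H B).choose_spec.choose_spec hB

/-- The `D` of a state -/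
def dd (s : ℕ) (st : ℕ × ℕ) : ℕ := (s + 1) * st.2 + 2 * st.1

/-- The `H` of a state -/
def hh (s : ℕ) (st : ℕ × ℕ) : ℕ := dd s st + 3 * st.1 + 1

/-- the argument `B` used for block `σ` -/
noncomputable def bb (s : ℕ) (st : ℕ × ℕ) : Bool → ℕ
  | true => st.2
  | false => st.2 * qf s (hh s st) st.2

/-- next state -/
noncomputable def nx (s : ℕ) (st : ℕ × ℕ) : ℕ × ℕ :=
  let M' := 10 * st.1 + qf s (hh s st) (bb s st true) * qf s (hh s st) (bb s st false) * st.2
    + dd s st
  (M', st.2 * qf s (hh s st) (bb s st true) * qf s (hh s st) (bb s st false) *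
    (1000 * 2 ^ (s + 1) * M'))

/-- the states -/
noncomputable def sta : ℕ → ℕ × ℕ
  | 0 => (256, 256000)
  | s + 1 => nx s (sta s)

lemma sta_pos (s : ℕ) : 0 < (sta s).1 ∧ 0 < (sta s).2 := by
  induction s with
  | zero => simp [sta]
  | succ s ih =>
    have h1 : 0 < qf s (hh s (sta s)) (bb s (sta s) true) := by
      have := (qhf s (hh s (sta s)) (bb s (sta s) true) ih.2).2.2.2.1
      have h2 : 0 < bb s (sta s) true := ih.2
      omega
    have hb : 0 < bb s (sta s) false := Nat.mul_pos ih.2 h1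
    have h2 : 0 < qf s (hh s (sta s)) (bb s (sta s) false) := by
      have := (qhf s (hh s (sta s)) (bb s (sta s) false) hb).2.2.2.1
      omega
    have hM : 0 < 10 * (sta s).1 + qf s (hh s (sta s)) (bb s (sta s) true) *
      qf s (hh s (sta s)) (bb s (sta s) false) * (sta s).2 + dd s (sta s) := by
      have := ih.1
      omega
    refine ⟨?_, ?_⟩
    · exact hM
    · have h3 : 0 < 1000 * 2 ^ (s + 1) * (10 * (sta s).1 +
        qf s (hh s (sta s)) (bb s (sta s) true) *
        qf s (hh s (sta s)) (bb s (sta s) false) * (sta s).2 + dd s (sta s)) := by positivity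
      exact Nat.mul_pos (Nat.mul_pos (Nat.mul_pos ih.2 h1) h2) h3

/-- the moduli -/
noncomputable def qq (s : ℕ) (σ : Bool) : ℕ := qf s (hh s (sta s)) (bb s (sta s) σ)

/-- the ramp lengths -/
noncomputable def hr (s : ℕ) (σ : Bool) : ℕ := hf s (hh s (sta s)) (bb s (sta s) σ)

lemma bb_pos (s : ℕ) (σ : Bool) : 0 < bb s (sta s) σ := by
  have ih := sta_pos s
  have h1 : 0 < qf s (hh s (sta s)) (bb s (sta s) true) := by
    have := (qhf s (hh s (sta s)) (bb s (sta s) true) ih.2).2.2.2.1
    have h2 : 0 < bb s (sta s) true := ih.2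
    omega
  cases σ with
  | true => exact ih.2
  | false => exact Nat.mul_pos ih.2 h1

lemma qq_spec (s : ℕ) (σ : Bool) : (qq s σ).Coprime (bb s (sta s) σ) ∧
    2 ^ (2 * s + 14) * (hr s σ + hh s (sta s)) ^ 2 ≤ qq s σ ∧
    8 * qq s σ * 2 ^ s ≤ 2 ^ (hr s σ) ∧ 4 * bb s (sta s) σ ≤ qq s σ ∧
    2 ≤ hr s σ + hh s (sta s) :=
  qhf s (hh s (sta s)) (bb s (sta s) σ) (bb_pos s σ)

lemma sta_dvd_bb (s : ℕ) (σ : Bool) : (sta s).2 ∣ bb s (sta s) σ := by
  cases σ with
  | true => exact dvd_rfl
  | false => exact dvd_mul_right _ _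

lemma qq_pos (s : ℕ) (σ : Bool) : 0 < qq s σ := by
  have h1 := (qq_spec s σ).2.2.2.1
  have h2 := bb_pos s σ
  omega

lemma sta_succ_fst (s : ℕ) : (sta (s + 1)).1 =
    10 * (sta s).1 + qq s true * qq s false * (sta s).2 + dd s (sta s) := rfl

lemma sta_succ_snd (s : ℕ) : (sta (s + 1)).2 =
    (sta s).2 * qq s true * qq s false * (1000 * 2 ^ (s + 1) * (sta (s + 1)).1) := rfl

theorem exists_params : Nonempty Params := by
  refine ⟨{
    M := fun s => (sta s).1
    G := fun s => (sta s).2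
    c := kk
    M_zero := le_of_eq rfl
    M_succ := fun s => by
      rw [sta_succ_fst]; omega
    c_le := fun s => Nat.unpair_left_le s
    c_inf := fun A L => ⟨Nat.pair A L, Nat.right_le_pair A L, by simp [kk]⟩
    G_dvd := fun s => by
      rw [sta_succ_snd, mul_assoc, mul_assoc]
      exact dvd_mul_right _ _
    G_ge := fun s => by
      cases s with
      | zero => simp [sta]
      | succ s =>
        rw [sta_succ_snd]
        apply Nat.le_mul_of_pos_left
        exact Nat.mul_pos (Nat.mul_pos (sta_pos s).2 (qq_pos s true)) (qq_pos s false)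
    q := qq
    a := fun s σ => (qq s σ + 1) / 2
    h := hr
    q_dvd := fun s σ => by
      show qq s σ ∣ (sta (s + 1)).2
      rw [sta_succ_snd]
      cases σ with
      | true =>
        exact Dvd.dvd.mul_right (Dvd.dvd.mul_right (dvd_mul_left _ _) _) _
      | false =>
        exact Dvd.dvd.mul_right (dvd_mul_left _ _) _
    q_cop := fun s σ => Nat.Coprime.coprime_dvd_right (sta_dvd_bb s σ) (qq_spec s σ).1
    q_cop' := fun s => by
      have h1 := (qq_spec s false).1
      have h2 : qq s true ∣ bb s (sta s) false := dvd_mul_left _ _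
      exact (Nat.Coprime.coprime_dvd_right h2 h1).symm
    q_le := fun s σ => by
      show qq s σ ≤ 2 * ((qq s σ + 1) / 2)
      omega
    a_le := fun s σ => ?_
    h_ge := fun s σ => (qq_spec s σ).2.2.1
    G_le_a := fun s σ => ?_
    q_big := fun s σ => (qq_spec s σ).2.1
    M_succ_ge := fun s => by
      show 10 * (sta s).1 + qq s true * qq s false * (sta s).2 + dd s (sta s) ≤ (sta (s + 1)).1
      rw [sta_succ_fst]
    prod_le := fun s => by
      show (sta s).2 * qq s true * qq s false ≤ (sta (s + 1)).2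
      rw [sta_succ_snd]
      apply Nat.le_mul_of_pos_right
      have := (sta_pos (s + 1)).1
      positivity }⟩
  · show (qq s σ + 1) / 2 + hr s σ + hh s (sta s) ≤ qq s σ
    obtain ⟨-, h2, -, -, h5⟩ := qq_spec s σ
    have h3 : 4 * (hr s σ + hh s (sta s)) ≤ qq s σ := by
      refine le_trans ?_ h2
      have h6 : 4 ≤ 2 ^ (2 * s + 14) := by
        calc 4 = 2 ^ 2 := by norm_num
          _ ≤ _ := Nat.pow_le_pow_right (by norm_num) (by omega)
      have h7 : hr s σ + hh s (sta s) ≤ (hr s σ + hh s (sta s)) ^ 2 := by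
        nlinarith
      exact Nat.mul_le_mul h6 h7
    omega
  · show 2 * (sta s).2 ≤ (qq s σ + 1) / 2
    have h4 := (qq_spec s σ).2.2.2.1
    have h5 : (sta s).2 ≤ bb s (sta s) σ := Nat.le_of_dvd (bb_pos s σ) (sta_dvd_bb s σ)
    omega

lemma Params.G_pos1 (P : Params) (s : ℕ) : 0 < P.G s := by
  have h1 := P.G_ge s
  have h2 : ∀ s, 0 < P.M s := by
    intro s
    induction s with
    | zero => have := P.M_zero; omega
    | succ s ih => have := P.M_succ s; omega
  have h3 : 0 < 1000 * 2 ^ s * P.M s := by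
    have := h2 s
    positivity
  omega

lemma Params.q_pos1 (P : Params) (s : ℕ) (σ : Bool) : 0 < P.q s σ := by
  have h1 := P.a_le s σ
  omega

/-- one window position -/
lemma exists_pos_one (P : Params) (m : ℕ → Bool → ℕ) (s : ℕ) : ∃ x : ℕ,
    10 * P.M s ≤ x ∧ x + P.toTower.D s ≤ P.M (s + 1) ∧ P.G s ∣ x ∧
    (x + m s true ≡ P.a s true + P.h s true + 3 * P.M s [MOD P.q s true]) ∧
    (m s false ≡ P.a s false + P.h s false + x + P.toTower.D s [MOD P.q s false]) := by
  set G := P.G s with hG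
  set u := P.q s true with hu
  set v := P.q s false with hv
  have hGp : 0 < G := P.G_pos1 s
  have hup : 0 < u := P.q_pos1 s true
  have hvp : 0 < v := P.q_pos1 s false
  have c1 : Nat.Coprime u v := P.q_cop' s
  have c2 : Nat.Coprime G (u * v) :=
    Nat.Coprime.mul_right (P.q_cop s true).symm (P.q_cop s false).symm
  obtain ⟨y, hy1, hy2⟩ := Nat.chineseRemainder c1
    (P.a s true + P.h s true + 3 * P.M s + (u - 1) * m s true)
    (m s false + (v - 1) * (P.a s false + P.h s false + P.toTower.D s))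
  obtain ⟨z, hz1, hz2⟩ := Nat.chineseRemainder c2 0 y
  set N := G * (u * v) with hN
  have hNp : 0 < N := by positivity
  set L := 10 * P.M s with hL
  set x := L + (z + L * (N - 1)) % N with hx
  have hxz : x ≡ z [MOD N] := by
    have h1 : x ≡ L + (z + L * (N - 1)) [MOD N] :=
      Nat.ModEq.add_left L (Nat.mod_modEq _ _)
    have h2 : L + (z + L * (N - 1)) = z + L * N := by
      obtain ⟨k, hk⟩ : ∃ k, N = k + 1 := ⟨N - 1, by omega⟩
      rw [hk]
      simp only [Nat.add_sub_cancel]
      ring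
    rw [h2] at h1
    refine h1.trans ?_
    simp
  have hxlt : x < L + N := by
    have := Nat.mod_lt (z + L * (N - 1)) hNp
    omega
  have hxG : x ≡ 0 [MOD G] := (hxz.of_dvd (dvd_mul_right G (u * v))).trans hz1
  have hxy : x ≡ y [MOD u * v] := (hxz.of_dvd (dvd_mul_left (u * v) G)).trans hz2
  have hxu : x ≡ y [MOD u] := hxy.of_dvd (dvd_mul_right u v)
  have hxv : x ≡ y [MOD v] := hxy.of_dvd (dvd_mul_left v u)
  refine ⟨x, by omega, ?_, (Nat.modEq_zero_iff_dvd).1 hxG, ?_, ?_⟩
  · have h1 := P.M_succ_ge s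
    have h2 : u * v * G = N := by rw [hN]; ring
    have h3 : 10 * P.M s + N + P.toTower.D s ≤ P.M (s + 1) := by
      rw [← h2]; exact h1
    omega
  · have h1 : x + m s true ≡ P.a s true + P.h s true + 3 * P.M s + (u - 1) * m s true
        + m s true [MOD u] := Nat.ModEq.add_right _ (hxu.trans hy1)
    refine h1.trans ?_
    have h2 : P.a s true + P.h s true + 3 * P.M s + (u - 1) * m s true + m s true =
        P.a s true + P.h s true + 3 * P.M s + u * m s true := by
      obtain ⟨k, hk⟩ : ∃ k, u = k + 1 := ⟨u - 1, by omega⟩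
      rw [hk]
      simp only [Nat.add_sub_cancel]
      ring
    rw [h2]
    simp
  · have h1 : P.a s false + P.h s false + x + P.toTower.D s ≡
        P.a s false + P.h s false +
        (m s false + (v - 1) * (P.a s false + P.h s false + P.toTower.D s)) +
        P.toTower.D s [MOD v] :=
      Nat.ModEq.add_right _ (Nat.ModEq.add_left _ (hxv.trans hy2))
    have h2 : P.a s false + P.h s false +
        (m s false + (v - 1) * (P.a s false + P.h s false + P.toTower.D s)) +
        P.toTower.D s = m s false + v * (P.a s false + P.h s false + P.toTower.D s) := by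
      obtain ⟨k, hk⟩ : ∃ k, v = k + 1 := ⟨v - 1, by omega⟩
      rw [hk]
      simp only [Nat.add_sub_cancel]
      ring
    rw [h2] at h1
    exact (h1.trans (by simp)).symm

theorem exists_posM (P : Params) (m : ℕ → Bool → ℕ) : ∃ p, IsPosM P m p := by
  choose p h1 h2 h3 h4 h5 using exists_pos_one P m
  exact ⟨p, ⟨⟨h1, h3, h2⟩, h4, h5⟩⟩

theorem D3_of_high (P : Params) (m : ℕ → Bool → ℕ) (p : ℕ → ℕ) (hp : IsPosM P m p) (n : ℕ)
    (hn : ∀ s σ, ¬ P.InHigh s σ (n + m s σ)) : D3 P.toTower p n := by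
  intro s x hx1 hx2
  have hqT : ((P.q s true : ℕ) : ℤ) ∣ (P.G (s + 1) : ℤ) := by exact_mod_cast P.q_dvd s true
  have hqF : ((P.q s false : ℕ) : ℤ) ∣ (P.G (s + 1) : ℤ) := by exact_mod_cast P.q_dvd s false
  constructor
  · intro hd
    have hd' := hqT.trans hd
    apply hn s true
    obtain ⟨y, hy⟩ : ∃ y : ℕ, (y : ℤ) = x - (p s - 3 * P.M s) :=
      ⟨(x - (p s - 3 * P.M s)).toNat, by rw [Int.toNat_of_nonneg]; linarith⟩
    have hyH : y + 1 ≤ P.H s := by
      have : (y : ℤ) + 1 ≤ P.H s := by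
        rw [hy]
        simp only [Params.H]
        push_cast
        linarith
      exact_mod_cast this
    have hal := P.a_le s true
    have hH : P.H s = P.toTower.D s + 3 * P.M s + 1 := rfl
    have key : (n + m s true) % P.q s true = P.a s true + P.h s true + y := by
      have h1 : n + m s true ≡ P.a s true + P.h s true + y [MOD P.q s true] := by
        have h2 := (Nat.modEq_iff_dvd.1 (hp.plus s))
        apply Nat.modEq_iff_dvd.2
        push_cast at h2 ⊢
        have h3 : ((P.a s true : ℤ) + P.h s true + y - (n + m s true)) =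
          ((P.a s true : ℤ) + P.h s true + 3 * P.M s - (p s + m s true)) - (n - x) := by
          rw [hy]; ring
        rw [h3]
        exact dvd_sub h2 hd'
      rw [h1]
      apply Nat.mod_eq_of_lt
      omega
    unfold Params.InHigh
    rw [key]
    omega
  · intro hd
    have hd' := hqF.trans hd
    apply hn s false
    obtain ⟨y, hy⟩ : ∃ y : ℕ, (y : ℤ) = p s + P.toTower.D s - x :=
      ⟨(p s + P.toTower.D s - x).toNat, by rw [Int.toNat_of_nonneg]; linarith⟩
    have hyH : y + 1 ≤ P.H s := by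
      have : (y : ℤ) + 1 ≤ P.H s := by
        rw [hy]
        simp only [Params.H]
        push_cast
        linarith
      exact_mod_cast this
    have hal := P.a_le s false
    have hH : P.H s = P.toTower.D s + 3 * P.M s + 1 := rfl
    have key : (n + m s false) % P.q s false = P.a s false + P.h s false + y := by
      have h1 : n + m s false ≡ P.a s false + P.h s false + y [MOD P.q s false] := by
        have h2 := (Nat.modEq_iff_dvd.1 (hp.minus s))
        apply Nat.modEq_iff_dvd.2
        push_cast at h2 ⊢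
        have h3 : ((P.a s false : ℤ) + P.h s false + y - (n + m s false)) =
          ((P.a s false : ℤ) + P.h s false + p s + P.toTower.D s - m s false) - (n + x) := by
          rw [hy]; ring
        rw [h3]
        exact dvd_sub h2 hd'
      rw [h1]
      apply Nat.mod_eq_of_lt
      omega
    unfold Params.InHigh
    rw [key]
    omega

end Pool.Agent.W_MP_94b3e1_an
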