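import Pool.Agent.W_MP_94b3e1_an.Mass
import Pool.Agent.W_MP_94b3e1_an.Kinds
import Pool.Agent.W_MP_94b3e1_an.Params
import Pool.Agent.W_MP_94b3e1_an.Joint
import Pool.Agent.W_MP_94b3e1_an.FrameEx

/-!
# Assembly of the counterexample
-/

set_option autoImplicit false

open Topology

namespace Pool.Agent.W_MP_94b3e1_an

theorem Kind.shift_n (𝓚 : Kind) (f : ℕ → ℝ) (hf : f ∈ 𝓚.K) (n : ℕ) :
    (fun v => f (v + n) / 2 ^ n) ∈ 𝓚.K := by
  induction n with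
  | zero => simpa using hf
  | succ n ih =>
    have := 𝓚.shift _ ih
    convert this using 1
    funext v
    rw [pow_succ, div_div, show v + 1 + n = v + (n + 1) by ring]

section frame

variable {Γ : Type} {𝒦 : Γ → Kind} (F : Frame 𝒦)

/-- reiteratively recurrent vectors of a frame, metric form -/
def RR (x : F.X) : Prop := ∀ ε : ℝ, 0 < ε → ∃ δ : ℝ, 0 < δ ∧ ∀ N : ℕ, 1 ≤ N → ∃ m : ℕ,
  δ * (N : ℝ) ≤ ({n : ℕ | m ≤ n ∧ n < m + N ∧ ‖(F.T ^ n) x - x‖ < ε}.ncard : ℝ)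

theorem finite_window (m N : ℕ) (Q : ℕ → Prop) : {n : ℕ | m ≤ n ∧ n < m + N ∧ Q n}.Finite :=
  (Set.finite_Ico m (m + N)).subset (fun _ hn => ⟨hn.1, hn.2.1⟩)

theorem RR_iff (x : F.X) : RR F x ↔ ∀ U ∈ 𝓝 x, ∃ δ : ℝ, 0 < δ ∧ ∀ N : ℕ, 1 ≤ N → ∃ m : ℕ,
    δ * (N : ℝ) ≤ (({n : ℕ | m ≤ n ∧ n < m + N ∧ (F.T ^ n) x ∈ U}).ncard : ℝ) := by
  constructor
  · intro h U hU
    obtain ⟨ε, hε, hball⟩ := Metric.mem_nhds_iff.mp hU
    obtain ⟨δ, hδ, h1⟩ := h ε hε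
    refine ⟨δ, hδ, fun N hN => ?_⟩
    obtain ⟨m, hm⟩ := h1 N hN
    refine ⟨m, hm.trans ?_⟩
    have : {n : ℕ | m ≤ n ∧ n < m + N ∧ ‖(F.T ^ n) x - x‖ < ε} ⊆
        {n : ℕ | m ≤ n ∧ n < m + N ∧ (F.T ^ n) x ∈ U} := by
      rintro n ⟨h2, h3, h4⟩
      exact ⟨h2, h3, hball (by rwa [Metric.mem_ball, dist_eq_norm])⟩
    exact_mod_cast Set.ncard_le_ncard this (finite_window _ _ _)
  · intro h ε hε
    obtain ⟨δ, hδ, h1⟩ := h (Metric.ball x ε) (Metric.ball_mem_nhds x hε)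
    refine ⟨δ, hδ, fun N hN => ?_⟩
    obtain ⟨m, hm⟩ := h1 N hN
    refine ⟨m, ?_⟩
    simpa [Metric.mem_ball, dist_eq_norm] using hm

theorem norm_T_pow (n : ℕ) (x : F.X) : ‖(F.T ^ n) x‖ ≤ 2 ^ n * ‖x‖ := by
  induction n with
  | zero => simp
  | succ n ih =>
    rw [pow_succ', mul_apply_eq_comp]
    calc ‖F.T ((F.T ^ n) x)‖ ≤ ‖F.T‖ * ‖(F.T ^ n) x‖ := F.T.le_opNorm _
      _ ≤ 2 * (2 ^ n * ‖x‖) := mul_le_mul F.T_norm ih (norm_nonneg _) (by norm_num)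
      _ = 2 ^ (n + 1) * ‖x‖ := by rw [pow_succ]; ring

theorem T_pow_ev (a : Γ) (u n : ℕ) : (F.T ^ n) (F.ev a u) = F.ev a (u + n) := by
  induction n with
  | zero => simp
  | succ n ih => rw [pow_succ', mul_apply_eq_comp, ih, F.T_ev]; rfl

theorem norm_ev_sub (a : Γ) (u v : ℕ) (C : ℝ) (hC : 0 ≤ C)
    (h : ∀ f ∈ (𝒦 a).K, |f u - f v| ≤ C) : ‖F.ev a u - F.ev a v‖ ≤ C := by
  refine F.norm_le _ C hC ?_
  intro b f
  by_cases hb : b = a
  · subst hb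
    rw [F.val_sub, F.val_ev_self, F.val_ev_self]
    exact h f.1 f.2
  · rw [F.val_sub, F.val_ev_ne _ _ _ _ hb, F.val_ev_ne _ _ _ _ hb]
    simpa using hC

theorem exists_lim (a : Γ) (b : ℕ → ℕ) (κ : ℕ) (hb0 : b 0 = 0)
    (hb : ∀ j, ∀ f ∈ (𝒦 a).K, |f (b (j + 1)) - f (b j)| ≤ (1 / 2) ^ (κ + j)) :
    ∃ y : F.X, ‖y - F.ev a 0‖ ≤ 2 * (1 / 2) ^ κ ∧
      ∀ n (ε : ℝ), 0 ≤ ε → (∃ J, ∀ j ≥ J, ∀ f ∈ (𝒦 a).K, |f (b j + n) - f (b j)| ≤ ε) →
        ‖(F.T ^ n) y - y‖ ≤ ε := by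
  have hdist : ∀ j, dist (F.ev a (b j)) (F.ev a (b (j + 1))) ≤ (1 / 2) ^ κ * (1 / 2) ^ j := by
    intro j
    rw [dist_comm, dist_eq_norm, ← pow_add]
    exact norm_ev_sub F a _ _ _ (by positivity) (hb j)
  have hcau := cauchySeq_of_le_geometric (1 / 2) ((1 / 2) ^ κ) (by norm_num) hdist
  obtain ⟨y, hy⟩ := cauchySeq_tendsto_of_complete hcau
  refine ⟨y, ?_, ?_⟩
  · have h1 := dist_le_of_le_geometric_of_tendsto₀ (1 / 2) ((1 / 2) ^ κ) (by norm_num) hdist hy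
    rw [hb0, dist_comm, dist_eq_norm] at h1
    refine h1.trans (le_of_eq ?_)
    ring
  · rintro n ε hε ⟨J, hJ⟩
    have h1 : Filter.Tendsto (fun j => (F.T ^ n) (F.ev a (b j)) - F.ev a (b j)) Filter.atTop
        (𝓝 ((F.T ^ n) y - y)) := (((F.T ^ n).continuous.tendsto y).comp hy).sub hy
    refine le_of_tendsto h1.norm ?_
    filter_upwards [Filter.eventually_ge_atTop J] with j hj
    rw [T_pow_ev]
    exact norm_ev_sub F a _ _ _ hε (hJ j hj)

/-- transport of the bound along the operator -/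
theorem phi_shift (a : Γ) (x W : F.X) (hxW : ∀ f, F.val a W f = F.val a x f)
    (hx : ‖x - F.ev a 0‖ ≤ 1 / 4) (n : ℕ) (hn : ‖(F.T ^ n) W - W‖ < 1)
    (hK : ∀ f ∈ (𝒦 a).K, |f 0| ≤ 1) (f : ℕ → ℝ) (hf : f ∈ (𝒦 a).K) :
    |ext (𝒦 a).K (F.val a x) (fun v => f (v + n))| ≤ 3 := by
  have hV := isV_ext (F.val a x) (F.approx a x)
  set f' : (𝒦 a).K := ⟨fun v => f (v + n) / 2 ^ n, (𝒦 a).shift_n f hf n⟩ with hf'
  have h1 : ext (𝒦 a).K (F.val a x) (fun v => f (v + n)) = 2 ^ n * F.val a x f' := by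
    rw [← ext_eq (F.val a x) (F.approx a x) f']
    have h2 := hV.rel (Finset.univ : Finset (Fin 2)) ![fun v => f (v + n), f'.1] ![1, -(2 ^ n)] (by
      intro i _
      fin_cases i
      · exact ⟨2 ^ n, by positivity, f'.2⟩
      · exact ⟨1, one_pos, by simp⟩) (by
      intro v
      simp [Fin.sum_univ_two, hf']
      field_simp
      ring)
    simp [Fin.sum_univ_two] at h2
    linarith
  have h2 : F.val a ((F.T ^ n) W) ⟨f, hf⟩ = 2 ^ n * F.val a x f' := by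
    rw [F.val_T a W n ⟨f, hf⟩ f' (fun v => rfl), hxW]
  have h3 : |F.val a ((F.T ^ n) W) ⟨f, hf⟩ - F.val a W ⟨f, hf⟩| ≤ 1 := by
    rw [← F.val_sub]
    exact (F.val_le _ _ _).trans hn.le
  have h4 : |F.val a x ⟨f, hf⟩ - f 0| ≤ 1 / 4 := by
    have : F.val a x ⟨f, hf⟩ - f 0 = F.val a (x - F.ev a 0) ⟨f, hf⟩ := by
      rw [F.val_sub, F.val_ev_self]
    rw [this]
    exact (F.val_le _ _ _).trans hx
  have h5 := hK f hf
  rw [h1, ← h2]
  rw [hxW] at h3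
  rw [abs_le] at *
  constructor <;> linarith [h3.1, h3.2, h4.1, h4.2, h5.1, h5.2]

theorem ext_near (a : Γ) (x : F.X) (hx : ‖x - F.ev a 0‖ ≤ 1 / 4) (f : ℕ → ℝ)
    (hf : f ∈ (𝒦 a).K) : |ext (𝒦 a).K (F.val a x) f - f 0| ≤ 1 / 4 := by
  have h1 := ext_eq (F.val a x) (F.approx a x) ⟨f, hf⟩
  simp only at h1
  rw [h1]
  have : F.val a x ⟨f, hf⟩ - f 0 = F.val a (x - F.ev a 0) ⟨f, hf⟩ := by
    rw [F.val_sub, F.val_ev_self]
  rw [this]
  exact (F.val_le _ _ _).trans hx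

end frame

section family

variable (P : Params)

/-- the kind of `X_0` -/
def kind0 : Kind := ⟨P.K0, K0_bdd P, K0_shift P⟩

/-- the adversary kinds -/
def kindW (τ : Tower) (p : ℕ → ℕ) : Kind := ⟨KW τ p, KW_bdd τ p, KW_shift τ p⟩

/-- chosen window positions -/
noncomputable def posOf (m : ℕ → Bool → ℕ) : ℕ → ℕ := (exists_posM P m).choose

theorem posOf_spec (m : ℕ → Bool → ℕ) : IsPosM P m (posOf P m) := (exists_posM P m).choose_spec

/-- first index set -/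
abbrev Ix0 : Type := Set (P.K0 → ℝ)

/-- second index set -/
abbrev Ix1 : Type := Set (Ix0 P)

/-- all indices -/
abbrev Ga : Type := Ix0 P ⊕ ((ℕ → Bool → ℕ) × Ix1 P)

/-- the family -/
noncomputable def fam : Ga P → Kind
  | Sum.inl _ => kind0 P
  | Sum.inr x => kindW P.toTower (posOf P x.1)

theorem dense_RR (F : Frame (fam P)) : Dense {x : F.X | RR F x} := by
  classical
  rw [Metric.dense_iff]
  intro x0 r hr
  obtain ⟨z, hz1, hz2⟩ := Metric.dense_iff.mp F.dense x0 (r / 2) (by positivity)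
  rw [SetLike.mem_coe, Finsupp.mem_span_range_iff_exists_finsupp] at hz2
  obtain ⟨c, hc⟩ := hz2
  -- constants
  set Cst : ℝ := (∑ i ∈ c.support, |c i| * 2 ^ i.2) + 1 with hCst
  have hCst0 : 0 < Cst := by
    have : 0 ≤ ∑ i ∈ c.support, |c i| * (2:ℝ) ^ i.2 :=
      Finset.sum_nonneg (fun i _ => by positivity)
    linarith
  obtain ⟨κ, hκ⟩ := exists_pow_lt_of_lt_one (show 0 < r / (4 * Cst) by positivity)
    (by norm_num : (1 / 2 : ℝ) < 1)
  set A : Finset (Ga P) := c.support.image Prod.fst with hA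
  set p : A → ℕ → ℕ := fun i => match i.1 with
    | Sum.inl _ => posOf P (fun _ _ => 0)
    | Sum.inr x => posOf P x.1 with hp
  have hpos : ∀ i, IsPos P.toTower (p i) := by
    rintro ⟨a, ha⟩
    rcases a with a | a
    · exact (posOf_spec P _).pos
    · exact (posOf_spec P _).pos
  obtain ⟨B0, B, hB0, hB, hc0, hcW, hret⟩ := joint P p hpos κ
  -- limit vectors
  have hy : ∀ a : Ga P, ∃ y : F.X, a ∈ A → ‖y - F.ev a 0‖ ≤ 2 * (1 / 2) ^ κ ∧
      ∀ n (ε : ℝ), 0 ≤ ε → (∃ J, ∀ j ≥ J,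
        (∀ f ∈ P.K0, |f (B0 j + n) - f (B0 j)| ≤ ε) ∧
          ∀ i, ∀ f ∈ KW P.toTower (p i), |f (B i j + n) - f (B i j)| ≤ ε) →
        ‖(F.T ^ n) y - y‖ ≤ ε := by
    intro a
    by_cases ha : a ∈ A
    · match a, ha with
      | Sum.inl ξ, ha =>
        obtain ⟨y, hy1, hy2⟩ := exists_lim F (Sum.inl ξ) B0 κ hB0 hc0
        refine ⟨y, fun _ => ⟨hy1, fun n ε hε => ?_⟩⟩
        rintro ⟨J, hJ⟩
        exact hy2 n ε hε ⟨J, fun j hj => (hJ j hj).1⟩
      | Sum.inr x, ha =>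
        obtain ⟨y, hy1, hy2⟩ := exists_lim F (Sum.inr x) (B ⟨Sum.inr x, ha⟩) κ (hB _)
          (hcW ⟨Sum.inr x, ha⟩)
        refine ⟨y, fun _ => ⟨hy1, fun n ε hε => ?_⟩⟩
        rintro ⟨J, hJ⟩
        exact hy2 n ε hε ⟨J, fun j hj => (hJ j hj).2 ⟨Sum.inr x, ha⟩⟩
    · exact ⟨0, fun h => absurd h ha⟩
  choose y hy using hy
  set w : F.X := ∑ i ∈ c.support, c i • (F.T ^ i.2) (y i.1) with hw
  have hmem : ∀ i ∈ c.support, i.1 ∈ A := fun i hi => Finset.mem_image_of_mem _ hi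
  refine ⟨w, ?_, ?_⟩
  · -- distance
    have hz : z = ∑ i ∈ c.support, c i • (F.T ^ i.2) (F.ev i.1 0) := by
      rw [← hc]
      refine Finset.sum_congr rfl fun i _ => ?_
      rw [T_pow_ev, zero_add]
    have h1 : ‖w - z‖ ≤ (∑ i ∈ c.support, |c i| * 2 ^ i.2) * (2 * (1 / 2) ^ κ) := by
      rw [hz, hw, ← Finset.sum_sub_distrib, Finset.sum_mul]
      refine (norm_sum_le _ _).trans (Finset.sum_le_sum fun i hi => ?_)
      rw [← smul_sub, ← map_sub, norm_smul, Real.norm_eq_abs, mul_assoc]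
      refine mul_le_mul_of_nonneg_left ?_ (abs_nonneg _)
      refine (norm_T_pow F _ _).trans ?_
      exact mul_le_mul_of_nonneg_left (hy i.1 (hmem i hi)).1 (by positivity)
    have h2 : (∑ i ∈ c.support, |c i| * (2:ℝ) ^ i.2) * (2 * (1 / 2) ^ κ) < r / 2 := by
      have h3 : (∑ i ∈ c.support, |c i| * (2:ℝ) ^ i.2) * (2 * (1 / 2) ^ κ) ≤
          Cst * (2 * (1 / 2) ^ κ) :=
        mul_le_mul_of_nonneg_right (by linarith) (by positivity)
      have h4 : Cst * (2 * (1 / 2) ^ κ) < Cst * (2 * (r / (4 * Cst))) := by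
        apply mul_lt_mul_of_pos_left _ hCst0
        linarith
      have h5 : Cst * (2 * (r / (4 * Cst))) = r / 2 := by field_simp; ring
      linarith
    rw [Metric.mem_ball] at hz1 ⊢
    have h6 : dist w z < r / 2 := by rw [dist_eq_norm]; exact h1.trans_lt h2
    calc dist w x0 ≤ dist w z + dist z x0 := dist_triangle _ _ _
      _ < r := by linarith
  · -- recurrence
    intro ε hε
    obtain ⟨δ, hδ, h1⟩ := hret (ε / (2 * Cst)) (by positivity)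
    refine ⟨δ, hδ, fun N hN => ?_⟩
    obtain ⟨m, hm⟩ := h1 N hN
    refine ⟨m, hm.trans ?_⟩
    have hsub : {n : ℕ | m ≤ n ∧ n < m + N ∧ ∃ J, ∀ j ≥ J,
          (∀ f ∈ P.K0, |f (B0 j + n) - f (B0 j)| ≤ ε / (2 * Cst)) ∧
          ∀ i, ∀ f ∈ KW P.toTower (p i), |f (B i j + n) - f (B i j)| ≤ ε / (2 * Cst)} ⊆
        {n : ℕ | m ≤ n ∧ n < m + N ∧ ‖(F.T ^ n) w - w‖ < ε} := by
      rintro n ⟨h2, h3, h4⟩
      refine ⟨h2, h3, ?_⟩
      have h5 : (F.T ^ n) w - w = ∑ i ∈ c.support,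
          c i • (F.T ^ i.2) ((F.T ^ n) (y i.1) - y i.1) := by
        rw [hw, map_sum, ← Finset.sum_sub_distrib]
        refine Finset.sum_congr rfl fun i _ => ?_
        rw [map_smul, ← smul_sub, map_sub]
        congr 2
        rw [← mul_apply_eq_comp, ← mul_apply_eq_comp, ← pow_add,
          ← pow_add, add_comm]
      rw [h5]
      have h6 : ‖∑ i ∈ c.support, c i • (F.T ^ i.2) ((F.T ^ n) (y i.1) - y i.1)‖ ≤
          (∑ i ∈ c.support, |c i| * 2 ^ i.2) * (ε / (2 * Cst)) := by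
        rw [Finset.sum_mul]
        refine (norm_sum_le _ _).trans (Finset.sum_le_sum fun i hi => ?_)
        rw [norm_smul, Real.norm_eq_abs, mul_assoc]
        refine mul_le_mul_of_nonneg_left ?_ (abs_nonneg _)
        refine (norm_T_pow F _ _).trans ?_
        exact mul_le_mul_of_nonneg_left ((hy i.1 (hmem i hi)).2 n _ (by positivity) h4)
          (by positivity)
      have h7 : (∑ i ∈ c.support, |c i| * (2:ℝ) ^ i.2) * (ε / (2 * Cst)) ≤
          Cst * (ε / (2 * Cst)) := mul_le_mul_of_nonneg_right (by linarith) (by positivity)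
      have h8 : Cst * (ε / (2 * Cst)) = ε / 2 := by field_simp
      linarith
    exact_mod_cast Set.ncard_le_ncard hsub (finite_window _ _ _)

theorem exists_uncountable_fiber (g : Ix0 P → (P.K0 → ℝ)) :
    ∃ u, ¬ (g ⁻¹' {u}).Countable := by
  by_contra hcon
  push Not at hcon
  have hinf : Cardinal.aleph0 ≤ Cardinal.mk (P.K0 → ℝ) := by
    have : Nonempty P.K0 := ⟨⟨fun _ => 0, Or.inl ⟨0, by simp, rfl⟩⟩⟩
    have : Infinite (P.K0 → ℝ) := inferInstance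
    exact Cardinal.aleph0_le_mk _
  have h1 : Cardinal.mk (Ix0 P) ≤ Cardinal.mk (P.K0 → ℝ) * Cardinal.aleph0 := by
    have h2 : (Set.univ : Set (Ix0 P)) = ⋃ u, g ⁻¹' {u} := by
      ext ξ; simp
    rw [← Cardinal.mk_univ, h2]
    refine (Cardinal.mk_iUnion_le _).trans ?_
    refine mul_le_mul_right ?_ _
    exact ciSup_le' (fun u => (hcon u).le_aleph0)
  rw [Cardinal.mul_aleph0_eq hinf] at h1
  have h3 : Cardinal.mk (Ix0 P) = 2 ^ Cardinal.mk (P.K0 → ℝ) := Cardinal.mk_set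
  rw [h3] at h1
  exact absurd (Cardinal.cantor _) (not_lt.mpr h1)

theorem exists_outside (S : Ix0 P → Set (Ix1 P)) (hS : ∀ ξ, (S ξ).Countable) :
    ∃ η, ∀ ξ, η ∉ S ξ := by
  by_contra hcon
  push Not at hcon
  have hinf : Cardinal.aleph0 ≤ Cardinal.mk (Ix0 P) := by
    have : Nonempty P.K0 := ⟨⟨fun _ => 0, Or.inl ⟨0, by simp, rfl⟩⟩⟩
    have : Infinite (P.K0 → ℝ) := inferInstance
    exact Cardinal.aleph0_le_mk _
  have h1 : Cardinal.mk (Ix1 P) ≤ Cardinal.mk (Ix0 P) * Cardinal.aleph0 := by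
    have h2 : (Set.univ : Set (Ix1 P)) = ⋃ ξ, S ξ := by
      ext η; simpa using hcon η
    rw [← Cardinal.mk_univ, h2]
    refine (Cardinal.mk_iUnion_le _).trans ?_
    refine mul_le_mul_right ?_ _
    exact ciSup_le' (fun u => (hS u).le_aleph0)
  rw [Cardinal.mul_aleph0_eq hinf] at h1
  have h3 : Cardinal.mk (Ix1 P) = 2 ^ Cardinal.mk (Ix0 P) := Cardinal.mk_set
  rw [h3] at h1
  exact absurd (Cardinal.cantor _) (not_lt.mpr h1)

theorem no_dense (F : Frame (fam P)) (M : Submodule ℝ F.X) (hM : Dense (M : Set F.X))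
    (hR : ∀ x ∈ M, RR F x) : False := by
  have hw : ∀ a : Ga P, ∃ w ∈ M, ‖w - F.ev a 0‖ ≤ 1 / 4 := by
    intro a
    obtain ⟨w, hw1, hw2⟩ := Metric.dense_iff.mp hM (F.ev a 0) (1 / 4) (by norm_num)
    rw [Metric.mem_ball, dist_eq_norm] at hw1
    exact ⟨w, hw2, hw1.le⟩
  choose w hwM hw using hw
  obtain ⟨u, hu⟩ := exists_uncountable_fiber P
    (fun ξ => (F.val (Sum.inl ξ) (w (Sum.inl ξ)) : P.K0 → ℝ))
  set A := (fun ξ => (F.val (Sum.inl ξ) (w (Sum.inl ξ)) : P.K0 → ℝ)) ⁻¹' {u} with hA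
  obtain ⟨ξ0, hξ0⟩ : A.Nonempty := by
    by_contra h
    rw [Set.not_nonempty_iff_eq_empty] at h
    exact hu (by rw [h]; exact Set.countable_empty)
  have hval : ∀ ξ ∈ A, (F.val (Sum.inl ξ) (w (Sum.inl ξ)) : P.K0 → ℝ) = u := fun ξ hξ => hξ
  -- phases of u
  have hVu : IsV P.K0 (ext P.K0 u) := by
    rw [← hval ξ0 hξ0]
    exact isV_ext _ (F.approx (Sum.inl ξ0) (w (Sum.inl ξ0)))
  have hnu : ∀ f ∈ P.K0, |ext P.K0 u f - f 0| ≤ 1 / 4 := by
    rw [← hval ξ0 hξ0]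
    exact ext_near F (Sum.inl ξ0) (w (Sum.inl ξ0)) (hw _)
  obtain ⟨m, hm⟩ := exists_phase P (ext P.K0 u) hVu hnu
  -- choose η
  obtain ⟨η, hη⟩ := exists_outside P
    (fun ξ => {η | ∃ f, F.val (Sum.inr (m, η)) (w (Sum.inl ξ)) f ≠ 0}) (by
      intro ξ
      have h1 := F.countable (w (Sum.inl ξ))
      refine (h1.preimage_of_injOn (f := fun η : Ix1 P => (Sum.inr (m, η) : Ga P)) ?_).mono ?_
      · intro a _ b _ hab
        have h2 := Sum.inr_injective hab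
        exact (Prod.mk.inj h2).2
      · intro η hη
        exact hη)
  set wη := w (Sum.inr (m, η)) with hwη
  -- choose ξ
  obtain ⟨ξ, hξA, hξ⟩ : ∃ ξ ∈ A, ∀ f, F.val (Sum.inl ξ) wη f = 0 := by
    by_contra hcon
    push Not at hcon
    apply hu
    have h1 := F.countable wη
    refine (h1.preimage_of_injOn (f := fun ξ : Ix0 P => (Sum.inl ξ : Ga P)) ?_).mono ?_
    · intro a _ b _ hab
      exact Sum.inl_injective hab
    · intro ξ hξ
      exact hcon ξ hξ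
  -- the bad vector
  set W := w (Sum.inl ξ) + wη with hW
  have hWM : W ∈ M := M.add_mem (hwM _) (hwM _)
  obtain ⟨δ, hδ, hret⟩ := hR W hWM 1 one_pos
  have hW0 : ∀ f, F.val (Sum.inl ξ) W f = F.val (Sum.inl ξ) (w (Sum.inl ξ)) f := by
    intro f
    rw [hW, F.val_add, hξ f, add_zero]
  have hW1 : ∀ f, F.val (Sum.inr (m, η)) W f = F.val (Sum.inr (m, η)) wη f := by
    intro f
    have h1 : F.val (Sum.inr (m, η)) (w (Sum.inl ξ)) f = 0 := by
      by_contra hne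
      exact hη ξ ⟨f, hne⟩
    rw [hW, F.val_add, h1, zero_add]
  have hVy : IsV (KW P.toTower (posOf P m))
      (ext (KW P.toTower (posOf P m)) (F.val (Sum.inr (m, η)) wη)) :=
    isV_ext _ (F.approx (Sum.inr (m, η)) wη)
  have hny : ∀ f ∈ KW P.toTower (posOf P m),
      |ext (KW P.toTower (posOf P m)) (F.val (Sum.inr (m, η)) wη) f - f 0| ≤ 1 / 4 :=
    ext_near F (Sum.inr (m, η)) wη (hw _)
  obtain ⟨N, hN, hlt⟩ := incompat (posOf_spec P m).pos hVy hny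
    {n | ‖(F.T ^ n) W - W‖ < 1} (by
      intro n hn
      constructor
      · apply D3_of_high P m (posOf P m) (posOf_spec P m)
        apply hm n
        intro f hf
        rw [← hval ξ hξA]
        exact phi_shift F (Sum.inl ξ) (w (Sum.inl ξ)) W hW0 (hw _) n hn (K0_zero P) f hf
      · intro f hf
        refine phi_shift F (Sum.inr (m, η)) wη W hW1 (hw _) n hn ?_ f hf
        intro f' hf'
        have := hf'.1 0
        simpa using this) δ hδ
  obtain ⟨m', hm'⟩ := hret N hN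
  exact absurd (hlt m') (not_lt.mpr hm')

end family

end Pool.Agent.W_MP_94b3e1_an
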