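import Pool.Agent.W_MP_94b3e1_an.Defs

/-!
# Simultaneous alignment of finitely many adversary types (helper8)
-/

set_option autoImplicit false

namespace Pool.Agent.W_MP_94b3e1_an

namespace Align

/-! ### Recursion with history -/

theorem rec_exists {X : Type} (x0 : ℕ → X) (SP : ℕ → (ℕ → X) → Prop)
    (hloc : ∀ m x x', (∀ k ≤ m, x k = x' k) → SP m x → SP m x')
    (hstep : ∀ j x, (∀ m < j, SP m x) → ∃ y, SP j (Function.update x j y)) :
    ∃ x, ∀ j, SP j x := by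
  classical
  -- sequence of good histories
  have key : ∀ j (x : {x : ℕ → X // ∀ m < j, SP m x}),
      ∃ x' : {x : ℕ → X // ∀ m < j + 1, SP m x}, ∀ k, k ≠ j → x'.1 k = x.1 k := by
    intro j x
    obtain ⟨y, hy⟩ := hstep j x.1 x.2
    refine ⟨⟨Function.update x.1 j y, ?_⟩, ?_⟩
    · intro m hm
      rcases Nat.lt_succ_iff_lt_or_eq.mp hm with h | h
      · refine hloc m x.1 _ ?_ (x.2 m h)
        intro k hk
        rw [Function.update_of_ne (by omega)]
      · subst h; exact hy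
    · intro k hk
      exact Function.update_of_ne hk _ _
  choose nx hnx using key
  let F : (j : ℕ) → {x : ℕ → X // ∀ m < j, SP m x} := fun j =>
    Nat.rec ⟨x0, fun m hm => absurd hm (Nat.not_lt_zero m)⟩ (fun j x => nx j x) j
  have hF : ∀ j, F (j + 1) = nx j (F j) := fun j => rfl
  have hst : ∀ j d, (F (j + 1 + d)).1 j = (F (j + 1)).1 j := by
    intro j d
    induction d with
    | zero => rfl
    | succ d ih =>
      rw [← ih]
      have : F (j + 1 + (d + 1)) = nx (j + 1 + d) (F (j + 1 + d)) := hF _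
      rw [this]
      exact hnx _ _ _ (by omega)
  refine ⟨fun j => (F (j + 1)).1 j, fun j => ?_⟩
  refine hloc j (F (j + 1)).1 _ ?_ ((F (j + 1)).2 j (Nat.lt_succ_self j))
  intro k hk
  obtain ⟨d, rfl⟩ := Nat.exists_eq_add_of_le hk
  have := hst k d
  rw [show k + d + 1 = k + 1 + d by ring]
  exact this

/-! ### Facts on towers -/

theorem lt_M (τ : Tower) (s : ℕ) : s < τ.M s := by
  induction s with
  | zero => have := τ.M_zero; omega
  | succ s ih => have := τ.M_succ s; omega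

theorem G_pos (τ : Tower) (s : ℕ) : 0 < τ.G s := by
  refine lt_of_lt_of_le ?_ (τ.G_ge s)
  have := lt_M τ s
  have : 0 < τ.M s := by omega
  positivity

theorem G_dvd_of_le (τ : Tower) {a b : ℕ} (h : a ≤ b) : τ.G a ∣ τ.G b := by
  obtain ⟨d, rfl⟩ := Nat.exists_eq_add_of_le h
  clear h
  induction d with
  | zero => exact dvd_rfl
  | succ d ih => exact ih.trans (τ.G_dvd _)

theorem dvd_eq {a b c : ℤ} (h : a ∣ b) (e : b = c) : a ∣ c := e ▸ h

theorem exists_corr (d g : ℕ) (hg : 0 < g) (hdg : d ∣ g) (Q : ℤ) (hQ : (d : ℤ) ∣ Q) :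
    ∃ σ : ℕ, σ ≤ g ∧ (g : ℤ) ∣ Q + σ * d := by
  obtain ⟨q, rfl⟩ := hQ
  obtain ⟨h, rfl⟩ := hdg
  have hh : 0 < h := Nat.pos_of_mul_pos_left hg |> fun _ => by
    rcases Nat.eq_zero_or_pos h with h0 | h0
    · simp [h0] at hg
    · exact h0
  have hd : 0 < d := by
    rcases Nat.eq_zero_or_pos d with h0 | h0
    · simp [h0] at hg
    · exact h0
  have hh' : (0 : ℤ) < h := by exact_mod_cast hh
  have h1 : 0 ≤ (-q) % (h : ℤ) := Int.emod_nonneg _ hh'.ne'
  have h2 : (-q) % (h : ℤ) < h := Int.emod_lt_of_pos _ hh'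
  refine ⟨((-q) % (h : ℤ)).toNat, ?_, ?_⟩
  · have h3 : ((-q) % (h : ℤ)).toNat ≤ h := by omega
    exact h3.trans (Nat.le_mul_of_pos_left _ hd)
  · rw [Int.toNat_of_nonneg h1]
    have h4 : (h : ℤ) ∣ q + (-q) % (h : ℤ) := by
      have := Int.emod_add_mul_ediv (-q) (h : ℤ)
      refine ⟨-((-q) / (h : ℤ)), ?_⟩
      linarith
    obtain ⟨e, he⟩ := h4
    refine ⟨e, ?_⟩
    push_cast
    linear_combination (d : ℤ) * he

theorem kw_win {τ : Tower} {p : ℕ → ℕ} {f : ℕ → ℝ} (hf : f ∈ KW τ p) {s x C : ℕ} (hx : x ≤ s)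
    (hC : τ.c s = C) (v e : ℕ) (hv : v + e ≤ τ.M C) :
    |f (p s + x * τ.G C + v) - f v| ≤ (1 / 2) ^ e := by
  subst hC
  refine (hf.2 s x hx v).trans ?_
  rw [div_le_iff₀ (by positivity)]
  have h1 : (2 : ℝ) ^ (v + e) ≤ 2 ^ (τ.M (τ.c s)) := pow_le_pow_right₀ (by norm_num) hv
  have h2 : (1 / 2 : ℝ) ^ e * 2 ^ e = 1 := by
    rw [← mul_pow]; norm_num
  calc (2 : ℝ) ^ v = (1 / 2 : ℝ) ^ e * 2 ^ (v + e) := by
        rw [pow_add, mul_comm ((2 : ℝ) ^ v), ← mul_assoc, h2, one_mul]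
    _ ≤ _ := mul_le_mul_of_nonneg_left h1 (by positivity)

/-! ### The stage lemma -/

section Stage

variable {ι : Type}

/-- the inner induction: choose the low windows one type after another -/
theorem inner (τ : Tower) (p : ι → ℕ → ℕ) (hp : ∀ i, IsPos τ (p i)) (β γ : ι → ℕ)
    (A cs t L : ℕ) (hA : A ≤ cs) (hAt : A ≤ t) (hd : ∀ i, (τ.G A : ℤ) ∣ (β i : ℤ) - γ i)
    (S : Finset ι) :
    ∃ (R : ℤ) (c' : ℕ) (b σ cc : ι → ℕ), cs ≤ c' ∧ (τ.G A : ℤ) ∣ R ∧ ∀ i ∈ S,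
      (∃ s x, x ≤ s ∧ τ.c s = cs ∧ b i = p i s + x * τ.G cs) ∧ σ i ≤ τ.G cs ∧ cs ≤ cc i ∧
      cc i ≤ c' ∧ b i + p i t + σ i * τ.G A + β i + γ i + L ≤ τ.M (cc i) ∧
      (τ.G (cc i) : ℤ) ∣ R - ((p i t : ℤ) + γ i - β i - b i + σ i * τ.G A) := by
  classical
  induction S using Finset.induction_on with
  | empty =>
    exact ⟨0, cs, fun _ => 0, fun _ => 0, fun _ => 0, le_rfl, dvd_zero _, by simp⟩
  | insert i0 S hi0 ih =>
    obtain ⟨R, c', b, σ, cc, hc', hR, hS⟩ := ih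
    obtain ⟨s, hs, hcs⟩ := τ.c_inf cs (c' + τ.G c')
    have hAt' : (τ.G A : ℤ) ∣ (p i0 t : ℤ) := by
      exact_mod_cast (G_dvd_of_le τ hAt).trans ((hp i0).dvd t)
    have hQ : (τ.G A : ℤ) ∣ (p i0 t : ℤ) + γ i0 - β i0 - R := by
      exact dvd_eq (dvd_sub (dvd_sub hAt' (hd i0)) hR) (by ring)
    obtain ⟨σ0, hσ0, hσd⟩ := exists_corr (τ.G A) (τ.G cs) (G_pos τ _) (G_dvd_of_le τ hA) _ hQ
    obtain ⟨x0, hx0, hxd⟩ := exists_corr (τ.G cs) (τ.G c') (G_pos τ _) (G_dvd_of_le τ hc') _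
      (dvd_neg.mpr hσd)
    set b0 : ℕ := p i0 s + x0 * τ.G cs with hb0
    set R' : ℤ := (p i0 t : ℤ) + γ i0 - β i0 - b0 + σ0 * τ.G A with hR'
    set c2 : ℕ := c' + (b0 + p i0 t + σ0 * τ.G A + β i0 + γ i0 + L) with hc2
    have hps : (τ.G c' : ℤ) ∣ (p i0 s : ℤ) := by
      exact_mod_cast (G_dvd_of_le τ (by omega : c' ≤ s)).trans ((hp i0).dvd s)
    have hRR : (τ.G c' : ℤ) ∣ R' - R := by
      refine dvd_eq (dvd_sub (dvd_neg.mpr hxd) hps) ?_
      rw [hR', hb0]; push_cast; ring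
    have hAc' : (τ.G A : ℤ) ∣ (τ.G c' : ℤ) := by
      exact_mod_cast G_dvd_of_le τ (hA.trans hc')
    refine ⟨R', c2, Function.update b i0 b0, Function.update σ i0 σ0, Function.update cc i0 c2,
      by omega, ?_, ?_⟩
    · exact dvd_eq (dvd_add (hAc'.trans hRR) hR) (by ring)
    · intro i hi
      rw [Finset.mem_insert] at hi
      by_cases hii : i = i0
      · subst hii
        simp only [Function.update_self]
        refine ⟨⟨s, x0, by omega, hcs, rfl⟩, hσ0, by omega, le_rfl, ?_, ?_⟩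
        · have := lt_M τ c2
          omega
        · rw [← hR', sub_self]; exact dvd_zero _
      · simp only [Function.update_of_ne hii]
        obtain ⟨h1, h2, h3, h4, h5, h6⟩ := hS i (hi.resolve_left hii)
        refine ⟨h1, h2, h3, by omega, h5, ?_⟩
        have h7 : (τ.G (cc i) : ℤ) ∣ (τ.G c' : ℤ) := by
          exact_mod_cast G_dvd_of_le τ h4
        exact dvd_eq (dvd_add (h7.trans hRR) h6) (by ring)

theorem stage [Fintype ι] (τ : Tower) (p : ι → ℕ → ℕ) (hp : ∀ i, IsPos τ (p i))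
    (β γ : ι → ℕ) (A a1 j N E k : ℕ) (hA : A ≤ a1)
    (hd : ∀ i, (τ.G A : ℤ) ∣ (β i : ℤ) - γ i) (hγ : ∀ i, γ i + k ≤ τ.M A) :
    ∃ (nst : ℕ) (w : ι → ℕ), τ.G A ∣ nst ∧ (∀ i, τ.G a1 ∣ w i) ∧
      (∀ i, ∀ f ∈ KW τ (p i), ∀ n ≤ N, |f (β i + w i + n) - f (β i + n)| ≤ (1 / 2) ^ E) ∧
      (∀ i, ∀ y ≤ j, ∀ f ∈ KW τ (p i),
        |f (β i + w i + (nst + y * τ.G A)) - f (γ i)| ≤ 2 * (1 / 2) ^ k) := by
  classical
  set cs : ℕ := a1 + (∑ i, β i + N + E + 1) with hcs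
  have hβ : ∀ i, β i ≤ ∑ i, β i := fun i => Finset.single_le_sum (fun _ _ => Nat.zero_le _)
    (Finset.mem_univ i)
  have hMcs : ∀ i, β i + N + E + 1 ≤ τ.M cs := by
    intro i
    have := lt_M τ cs
    have := hβ i
    omega
  obtain ⟨t, ht, hct⟩ := τ.c_inf A (j + τ.G cs)
  have hAt : A ≤ t := hct ▸ τ.c_le t
  obtain ⟨R, c', b, σ, cc, hc', hR, hS⟩ := inner τ p hp β γ A cs t (N + E + 1 + k + j * τ.G A)
    (by omega) hAt hd Finset.univ
  choose hb hσ hcc hcc' hM hdiv using fun i => hS i (Finset.mem_univ i)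
  choose s x hxs hcss hb using hb
  -- the time
  set W : ℕ := ∑ i, (p i t + γ i + σ i * τ.G A) + R.natAbs with hW
  have hWi : ∀ i, p i t + γ i + σ i * τ.G A + R.natAbs ≤ W := by
    intro i
    have : p i t + γ i + σ i * τ.G A ≤ ∑ i, (p i t + γ i + σ i * τ.G A) :=
      Finset.single_le_sum (f := fun i => p i t + γ i + σ i * τ.G A)
        (fun _ _ => Nat.zero_le _) (Finset.mem_univ i)
    omega
  have hWG : W ≤ W * τ.G c' := Nat.le_mul_of_pos_right _ (G_pos τ c')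
  have hnn : 0 ≤ R + (W : ℤ) * τ.G c' := by
    have h1 : (R.natAbs : ℤ) ≤ (W : ℤ) * τ.G c' := by
      have : R.natAbs ≤ W * τ.G c' := le_trans (by omega) hWG
      exact_mod_cast this
    have h2 : -R ≤ (R.natAbs : ℤ) := by omega
    linarith
  obtain ⟨nst, hnst⟩ := Int.eq_ofNat_of_zero_le hnn
  have hl : ∀ i, ∃ l : ℕ, nst + β i + b i = l * τ.G (cc i) + (p i t + σ i * τ.G A + γ i) := by
    intro i
    have h1 : (τ.G (cc i) : ℤ) ∣ (nst : ℤ) - ((p i t : ℤ) + γ i - β i - b i + σ i * τ.G A) := by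
      have h7 : (τ.G (cc i) : ℤ) ∣ (τ.G c' : ℤ) := by
        exact_mod_cast G_dvd_of_le τ (hcc' i)
      refine dvd_eq (dvd_add (hdiv i) (h7.mul_left (W : ℤ))) ?_
      rw [show (nst : ℤ) = R + (W : ℤ) * τ.G c' from hnst.symm]; ring
    obtain ⟨l, hl⟩ := h1
    have h2 : 0 ≤ (nst : ℤ) - ((p i t : ℤ) + γ i - β i - b i + σ i * τ.G A) := by
      rw [← hnst]
      have h3 : ((p i t + γ i + σ i * τ.G A + R.natAbs : ℕ) : ℤ) ≤ (W : ℤ) * τ.G c' := by
        exact_mod_cast (hWi i).trans hWG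
      push_cast at h3
      have h4 : -R ≤ (R.natAbs : ℤ) := by omega
      have h4' : -R ≤ |R| := neg_le_abs R
      have h5 : (0 : ℤ) ≤ β i := Int.natCast_nonneg _
      have h6 : (0 : ℤ) ≤ b i := Int.natCast_nonneg _
      linarith
    have h3 : 0 ≤ l := by
      rw [hl] at h2
      have hG : (0 : ℤ) < τ.G (cc i) := by exact_mod_cast G_pos τ _
      exact nonneg_of_mul_nonneg_right h2 hG
    obtain ⟨l', rfl⟩ := Int.eq_ofNat_of_zero_le h3
    refine ⟨l', ?_⟩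
    have h4 : ((nst + β i + b i : ℕ) : ℤ)
        = ((l' * τ.G (cc i) + (p i t + σ i * τ.G A + γ i) : ℕ) : ℤ) := by
      push_cast
      linarith
    exact_mod_cast h4
  choose l hl using hl
  have hs' : ∀ i, ∃ s', l i ≤ s' ∧ τ.c s' = cc i := fun i => τ.c_inf (cc i) (l i)
  choose s' hs' hcs' using hs'
  have hcs_s : ∀ i, cs ≤ s i := fun i => hcss i ▸ τ.c_le (s i)
  have hcs_s' : ∀ i, cs ≤ s' i := fun i => (hcc i).trans (hcs' i ▸ τ.c_le (s' i))
  refine ⟨nst, fun i => p i (s' i) + b i, ?_, ?_, ?_, ?_⟩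
  · have h1 : (τ.G A : ℤ) ∣ (nst : ℤ) := by
      have h7 : (τ.G A : ℤ) ∣ (τ.G c' : ℤ) := by
        exact_mod_cast G_dvd_of_le τ (by omega : A ≤ c')
      have := dvd_add hR (h7.mul_left (W : ℤ))
      rw [hnst] at this
      exact this
    exact_mod_cast h1
  · intro i
    have h1 : τ.G a1 ∣ τ.G cs := G_dvd_of_le τ (by omega)
    refine dvd_add ?_ ?_
    · exact (h1.trans (G_dvd_of_le τ (hcs_s' i))).trans ((hp i).dvd _)
    · rw [hb i]
      refine dvd_add ?_ (h1.mul_left _)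
      exact (h1.trans (G_dvd_of_le τ (hcs_s i))).trans ((hp i).dvd _)
  · intro i f hf n hn
    have h1 : |f (p i (s' i) + 0 * τ.G (cc i) + (b i + (β i + n))) - f (b i + (β i + n))|
        ≤ (1 / 2) ^ (E + 1) :=
      kw_win hf (Nat.zero_le _) (hcs' i) _ _ (by have := hM i; omega)
    have h2 : |f (p i (s i) + x i * τ.G cs + (β i + n)) - f (β i + n)| ≤ (1 / 2) ^ (E + 1) :=
      kw_win hf (hxs i) (hcss i) _ _ (by have := hMcs i; omega)
    rw [← hb i] at h2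
    have e1 : β i + (p i (s' i) + b i) + n
        = p i (s' i) + 0 * τ.G (cc i) + (b i + (β i + n)) := by ring
    rw [e1]
    have h3 := abs_add_le
      (f (p i (s' i) + 0 * τ.G (cc i) + (b i + (β i + n))) - f (b i + (β i + n)))
      (f (b i + (β i + n)) - f (β i + n))
    rw [sub_add_sub_cancel] at h3
    refine h3.trans ?_
    have h4 : (1 / 2 : ℝ) ^ E = (1 / 2) ^ (E + 1) + (1 / 2) ^ (E + 1) := by
      rw [pow_succ]; ring
    rw [h4]
    exact add_le_add h1 h2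
  · intro i y hy f hf
    have hyG : y * τ.G A ≤ j * τ.G A := Nat.mul_le_mul_right _ hy
    have h1 : |f (p i (s' i) + l i * τ.G (cc i) + (p i t + (σ i + y) * τ.G A + γ i))
        - f (p i t + (σ i + y) * τ.G A + γ i)| ≤ (1 / 2) ^ k :=
      kw_win hf (hs' i) (hcs' i) _ _ (by
        have := hM i
        have e : (σ i + y) * τ.G A = σ i * τ.G A + y * τ.G A := by ring
        rw [e]; omega)
    have h2 : |f (p i t + (σ i + y) * τ.G A + γ i) - f (γ i)| ≤ (1 / 2) ^ k :=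
      kw_win hf (by have := hσ i; omega) hct _ _ (hγ i)
    have e1 : β i + (p i (s' i) + b i) + (nst + y * τ.G A)
        = p i (s' i) + l i * τ.G (cc i) + (p i t + (σ i + y) * τ.G A + γ i) := by
      have := hl i
      have e : (σ i + y) * τ.G A = σ i * τ.G A + y * τ.G A := by ring
      rw [e]; omega
    rw [e1]
    have h3 := abs_add_le
      (f (p i (s' i) + l i * τ.G (cc i) + (p i t + (σ i + y) * τ.G A + γ i))
        - f (p i t + (σ i + y) * τ.G A + γ i))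
      (f (p i t + (σ i + y) * τ.G A + γ i) - f (γ i))
    rw [sub_add_sub_cancel] at h3
    refine h3.trans ?_
    rw [two_mul]
    exact add_le_add h1 h2

end Stage

/-! ### Assembly -/

section Assembly

variable {ι : Type}

/-- partial sums of the increments -/
def Bx (x : ℕ → ℕ × ℕ × (ι → ℕ)) (i : ι) (j : ℕ) : ℕ := ∑ m ∈ Finset.range j, (x m).2.2 i

/-- the property of stage `m` -/
structure SP (τ : Tower) (p : ι → ℕ → ℕ) (κ : ℕ) (m : ℕ) (x : ℕ → ℕ × ℕ × (ι → ℕ)) : Prop where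
  a : m ≤ (x m).1
  b : ∀ i, Bx x i m + m ≤ τ.M (x m).1
  d : ∀ k ≤ m, ∀ i, τ.G (x k).1 ∣ (x m).2.2 i
  e : τ.G (x (kk m)).1 ∣ (x m).2.1
  f : ∀ i, ∀ f ∈ KW τ (p i), ∀ n,
    (n = 0 ∨ ∃ m' < m, ∃ y ≤ m', n = (x m').2.1 + y * τ.G (x (kk m')).1) →
      |f (Bx x i (m + 1) + n) - f (Bx x i m + n)| ≤ (1 / 2) ^ (κ + m)
  g : ∀ i, ∀ y ≤ m, ∀ f ∈ KW τ (p i),
    |f (Bx x i (m + 1) + ((x m).2.1 + y * τ.G (x (kk m)).1)) - f (Bx x i (kk m))|
      ≤ 2 * (1 / 2) ^ (kk m)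

theorem kk_le (m : ℕ) : kk m ≤ m := Nat.unpair_left_le m

theorem Bx_congr {x x' : ℕ → ℕ × ℕ × (ι → ℕ)} {m : ℕ} (h : ∀ k < m, x k = x' k) (i : ι) :
    Bx x i m = Bx x' i m := by
  unfold Bx
  refine Finset.sum_congr rfl fun k hk => ?_
  rw [h k (Finset.mem_range.mp hk)]

theorem SP_loc (τ : Tower) (p : ι → ℕ → ℕ) (κ : ℕ) (m : ℕ) (x x' : ℕ → ℕ × ℕ × (ι → ℕ))
    (h : ∀ k ≤ m, x k = x' k) (hx : SP τ p κ m x) : SP τ p κ m x' := by
  have hk := kk_le m
  have hB : ∀ i, ∀ j, j ≤ m + 1 → Bx x' i j = Bx x i j := fun i j hj =>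
    (Bx_congr (fun k hk => h k (by omega)) i).symm
  have hm := h m le_rfl
  have hkm := h _ hk
  refine ⟨?_, ?_, ?_, ?_, ?_, ?_⟩
  · rw [← hm]; exact hx.a
  · intro i; rw [hB i m (by omega), ← hm]; exact hx.b i
  · intro k hk i; rw [← hm, ← h k hk]; exact hx.d k hk i
  · rw [← hm, ← hkm]; exact hx.e
  · intro i f hf n hn
    rw [hB i m (by omega), hB i (m + 1) le_rfl]
    refine hx.f i f hf n ?_
    rcases hn with h0 | ⟨m', hm', y, hy, hn⟩
    · exact Or.inl h0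
    · refine Or.inr ⟨m', hm', y, hy, ?_⟩
      rw [h m' hm'.le, h (kk m') ((kk_le m').trans hm'.le)]; exact hn
  · intro i y hy f hf
    rw [hB i (kk m) (by omega), hB i (m + 1) le_rfl, ← hm, ← hkm]
    exact hx.g i y hy f hf

theorem SP_step [Fintype ι] (τ : Tower) (p : ι → ℕ → ℕ) (hp : ∀ i, IsPos τ (p i)) (κ : ℕ)
    (j : ℕ) (x : ℕ → ℕ × ℕ × (ι → ℕ)) (hx : ∀ m < j, SP τ p κ m x) :
    ∃ y, SP τ p κ j (Function.update x j y) := by
  classical
  set a : ℕ := j + ∑ i, Bx x i j + j with ha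
  set k : ℕ := kk j with hk
  have hkj : k ≤ j := kk_le j
  set A : ℕ := if k = j then a else (x k).1 with hA
  set a1 : ℕ := a + ∑ m ∈ Finset.range j, (x m).1 with ha1
  set N : ℕ := ∑ m ∈ Finset.range j, ((x m).2.1 + m * τ.G (x (kk m)).1) with hN
  have hle1 : ∀ m < j, (x m).1 ≤ ∑ m ∈ Finset.range j, (x m).1 := fun m hm =>
    Finset.single_le_sum (f := fun m => (x m).1) (fun _ _ => Nat.zero_le _)
      (Finset.mem_range.mpr hm)
  have hleB : ∀ i, Bx x i j ≤ ∑ i, Bx x i j := fun i =>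
    Finset.single_le_sum (f := fun i => Bx x i j) (fun _ _ => Nat.zero_le _) (Finset.mem_univ i)
  have hAa1 : A ≤ a1 := by
    rw [hA]
    split_ifs with h
    · omega
    · have := hle1 k (by omega)
      omega
  have hd : ∀ i, (τ.G A : ℤ) ∣ (Bx x i j : ℤ) - Bx x i k := by
    intro i
    by_cases h : k = j
    · rw [h, sub_self]; exact dvd_zero _
    · have h1 : τ.G A ∣ ∑ m ∈ Finset.Ico k j, (x m).2.2 i := by
        refine Finset.dvd_sum fun m hm => ?_
        rw [Finset.mem_Ico] at hm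
        rw [hA, if_neg h]
        exact (hx m hm.2).d k hm.1 i
      have h2 : Bx x i k + ∑ m ∈ Finset.Ico k j, (x m).2.2 i = Bx x i j := by
        unfold Bx
        exact Finset.sum_range_add_sum_Ico (fun m => (x m).2.2 i) hkj
      have h3 : (Bx x i j : ℤ) - Bx x i k
          = ((∑ m ∈ Finset.Ico k j, (x m).2.2 i : ℕ) : ℤ) := by
        rw [← h2]; push_cast; ring
      rw [h3]
      exact_mod_cast h1
  have hγ : ∀ i, Bx x i k + k ≤ τ.M A := by
    intro i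
    by_cases h : k = j
    · rw [hA, if_pos h]
      have := lt_M τ a
      have := hleB i
      rw [h]
      omega
    · rw [hA, if_neg h]
      exact (hx k (by omega)).b i
  obtain ⟨nst, w, h1, h2, h3, h4⟩ := stage τ p hp (fun i => Bx x i j) (fun i => Bx x i k) A a1 j N
    (κ + j) k hAa1 hd hγ
  refine ⟨(a, nst, w), ?_⟩
  have hne : ∀ m, m < j → Function.update x j (a, nst, w) m = x m := fun m hm =>
    Function.update_of_ne (by omega) _ _
  have hsf : Function.update x j (a, nst, w) j = (a, nst, w) := Function.update_self _ _ _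
  have hBle : ∀ i m, m ≤ j → Bx (Function.update x j (a, nst, w)) i m = Bx x i m := fun i m hm =>
    Bx_congr (fun k hk => hne k (by omega)) i
  have hBs : ∀ i, Bx (Function.update x j (a, nst, w)) i (j + 1) = Bx x i j + w i := by
    intro i
    have : Bx (Function.update x j (a, nst, w)) i (j + 1)
        = Bx (Function.update x j (a, nst, w)) i j
          + (Function.update x j (a, nst, w) j).2.2 i := Finset.sum_range_succ _ _
    rw [this, hBle i j le_rfl, hsf]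
  have hAk : (Function.update x j (a, nst, w) (kk j)).1 = A := by
    rw [← hk, hA]
    split_ifs with h
    · rw [h, hsf]
    · rw [hne k (by omega)]
  refine ⟨?_, ?_, ?_, ?_, ?_, ?_⟩
  · rw [hsf]; simp only; omega
  · intro i
    rw [hBle i j le_rfl, hsf]
    simp only
    have := lt_M τ a
    have := hleB i
    omega
  · intro k' hk' i
    rw [hsf]
    simp only
    refine (G_dvd_of_le τ ?_).trans (h2 i)
    rcases Nat.lt_or_eq_of_le hk' with h | h
    · rw [hne k' h]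
      have := hle1 k' h
      omega
    · rw [h, hsf]; simp only; omega
  · rw [hAk, hsf]; exact h1
  · intro i f hf n hn
    rw [hBs, hBle i j le_rfl]
    refine h3 i f hf n ?_
    rcases hn with h0 | ⟨m', hm', y, hy, hn⟩
    · omega
    · rw [hne m' hm', hne (kk m') (lt_of_le_of_lt (kk_le m') hm')] at hn
      have h5 : (x m').2.1 + m' * τ.G (x (kk m')).1 ≤ N :=
        Finset.single_le_sum (f := fun m => (x m).2.1 + m * τ.G (x (kk m)).1)
          (fun _ _ => Nat.zero_le _) (Finset.mem_range.mpr hm')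
      have h6 : y * τ.G (x (kk m')).1 ≤ m' * τ.G (x (kk m')).1 := Nat.mul_le_mul_right _ hy
      omega
  · intro i y hy f hf
    rw [hBs, hBle i _ hkj, hAk, hsf]
    exact h4 i y hy f hf

theorem tail (g : ℕ → ℝ) (m0 : ℕ) (h : ∀ m, m0 ≤ m → |g (m + 1) - g m| ≤ (1 / 2) ^ m) (d : ℕ) :
    |g (m0 + d) - g m0| ≤ 2 * (1 / 2) ^ m0 - 2 * (1 / 2) ^ (m0 + d) := by
  induction d with
  | zero => simp
  | succ d ih =>
    have h1 := h (m0 + d) (by omega)
    have h2 := abs_add_le (g (m0 + d + 1) - g (m0 + d)) (g (m0 + d) - g m0)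
    rw [sub_add_sub_cancel] at h2
    have h3 : (1 / 2 : ℝ) ^ (m0 + (d + 1)) = (1 / 2) ^ (m0 + d) / 2 := by
      rw [← add_assoc, pow_succ]; ring
    rw [h3, ← add_assoc]
    linarith

theorem tail' (g : ℕ → ℝ) (m0 : ℕ) (h : ∀ m, m0 ≤ m → |g (m + 1) - g m| ≤ (1 / 2) ^ m) (m1 : ℕ)
    (hm : m0 ≤ m1) : |g m1 - g m0| ≤ 2 * (1 / 2) ^ m0 := by
  obtain ⟨d, rfl⟩ := Nat.exists_eq_add_of_le hm
  have := tail g m0 h d
  have h2 : (0 : ℝ) ≤ (1 / 2) ^ (m0 + d) := by positivity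
  linarith

end Assembly

end Align

open Align in
theorem align (τ : Tower) {ι : Type} [Fintype ι] (p : ι → ℕ → ℕ) (hp : ∀ i, IsPos τ (p i))
    (κ : ℕ) :
    ∃ (A : ℕ → ℕ) (B : ι → ℕ → ℕ) (nst : ℕ → ℕ),
      (∀ k, k ≤ A k) ∧ (∀ i, B i 0 = 0) ∧ (∀ j, τ.G (A (kk j)) ∣ nst j) ∧
      (∀ i j, ∀ f ∈ KW τ (p i), |f (B i (j + 1)) - f (B i j)| ≤ (1 / 2) ^ (κ + j)) ∧
      (∀ j y, y ≤ j → ∀ i, ∀ j', j < j' → ∀ f ∈ KW τ (p i),
        |f (B i j' + (nst j + y * τ.G (A (kk j)))) - f (B i j')| ≤ 5 * (1 / 2) ^ (kk j)) := by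
  obtain ⟨x, hx⟩ := rec_exists (fun _ => (0, 0, fun _ : ι => 0)) (SP τ p κ) (SP_loc τ p κ)
    (SP_step τ p hp κ)
  refine ⟨fun k => (x k).1, fun i j => Bx x i j, fun j => (x j).2.1, fun k => (hx k).a,
    fun i => rfl, fun j => (hx j).e, ?_, ?_⟩
  · intro i j f hf
    have := (hx j).f i f hf 0 (Or.inl rfl)
    simpa using this
  · intro j y hy i j' hj' f hf
    set n : ℕ := (x j).2.1 + y * τ.G (x (kk j)).1 with hn
    have hκ : ∀ m, (1 / 2 : ℝ) ^ (κ + m) ≤ (1 / 2) ^ m := fun m =>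
      pow_le_pow_of_le_one (by norm_num) (by norm_num) (by omega)
    have h1 : |f (Bx x i j' + n) - f (Bx x i (j + 1) + n)| ≤ 2 * (1 / 2) ^ (j + 1) :=
      tail' (fun m => f (Bx x i m + n)) (j + 1) (fun m hm =>
        ((hx m).f i f hf n (Or.inr ⟨j, by omega, y, hy, rfl⟩)).trans (hκ m)) j' hj'
    have h2 : |f (Bx x i (j + 1) + n) - f (Bx x i (kk j))| ≤ 2 * (1 / 2) ^ (kk j) :=
      (hx j).g i y hy f hf
    have hkj := kk_le j
    have h3 : |f (Bx x i j') - f (Bx x i (kk j))| ≤ 2 * (1 / 2) ^ (kk j) :=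
      tail' (fun m => f (Bx x i m)) (kk j) (fun m hm => by
        have := (hx m).f i f hf 0 (Or.inl rfl)
        exact (by simpa using this : _ ≤ _).trans (hκ m)) j' (by omega)
    have h4 : (2 : ℝ) * (1 / 2) ^ (j + 1) ≤ (1 / 2) ^ (kk j) := by
      have : (1 / 2 : ℝ) ^ j ≤ (1 / 2) ^ (kk j) :=
        pow_le_pow_of_le_one (by norm_num) (by norm_num) hkj
      rw [pow_succ]; linarith
    have e1 : f (Bx x i j' + n) - f (Bx x i j')
        = (f (Bx x i j' + n) - f (Bx x i (j + 1) + n))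
          + (f (Bx x i (j + 1) + n) - f (Bx x i (kk j)))
          + (f (Bx x i (kk j)) - f (Bx x i j')) := by ring
    rw [e1]
    rw [abs_sub_comm] at h3
    have h5 := abs_add_le ((f (Bx x i j' + n) - f (Bx x i (j + 1) + n))
          + (f (Bx x i (j + 1) + n) - f (Bx x i (kk j)))) (f (Bx x i (kk j)) - f (Bx x i j'))
    have h6 := abs_add_le (f (Bx x i j' + n) - f (Bx x i (j + 1) + n))
          (f (Bx x i (j + 1) + n) - f (Bx x i (kk j)))
    linarith

end Pool.Agent.W_MP_94b3e1_an
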