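import Pool.Agent.W_MP_94b3e1_an.Defs

/-!
# Combinatorial core: roots, links, and the sets `T`, `Q`
-/

set_option autoImplicit false

namespace Pool.Agent.W_MP_94b3e1_an

namespace Tower

theorem M_mono (τ : Tower) : Monotone τ.M :=
  monotone_nat_of_le_succ (fun s => by have := τ.M_succ s; omega)

theorem M_ge (τ : Tower) (s : ℕ) : 256 ≤ τ.M s :=
  τ.M_zero.trans (τ.M_mono (Nat.zero_le s))

theorem M_lt {τ : Tower} {s t : ℕ} (h : s < t) : 10 * τ.M s ≤ τ.M t :=
  (τ.M_succ s).trans (τ.M_mono h)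

theorem lt_of_M_lt {τ : Tower} {s t : ℕ} (h : τ.M s < τ.M t) : s < t := by
  by_contra hc
  exact absurd (τ.M_mono (not_lt.mp hc)) (by omega)

theorem G_dvd' (τ : Tower) {s t : ℕ} (h : s ≤ t) : τ.G s ∣ τ.G t := by
  induction t, h using Nat.le_induction with
  | base => exact dvd_rfl
  | succ t _ ih => exact ih.trans (τ.G_dvd t)

theorem G_ge' (τ : Tower) (s : ℕ) : 1000 * τ.M s ≤ τ.G s := by
  have h := τ.G_ge s
  have h1 : 1 ≤ 2 ^ s := Nat.one_le_two_pow
  nlinarith [Nat.zero_le (τ.M s)]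

theorem G_pos (τ : Tower) (s : ℕ) : 0 < τ.G s := by
  have := τ.G_ge' s
  have := τ.M_ge s
  omega

theorem G_le (τ : Tower) {s t : ℕ} (h : s ≤ t) : τ.G s ≤ τ.G t :=
  Nat.le_of_dvd (τ.G_pos t) (τ.G_dvd' h)

end Tower

/-- the region of window `s` -/
def Reg (τ : Tower) (p : ℕ → ℕ) (s x : ℕ) : Prop := p s ≤ x ∧ x ≤ p s + τ.D s

/-- `x` is the copy of `z` after an element of window `s`, class at least `lam`. -/
def StepS (τ : Tower) (p : ℕ → ℕ) (lam s z x : ℕ) : Prop :=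
  lam ≤ τ.c s ∧ z < τ.M (τ.c s) + τ.M lam ∧ ∃ i, i ≤ s ∧ x = p s + i * τ.G (τ.c s) + z

/-- one parent step -/
def Step (τ : Tower) (p : ℕ → ℕ) (lam z x : ℕ) : Prop := ∃ s, StepS τ p lam s z x

open Classical in
/-- the root of `x` -/
noncomputable def root (τ : Tower) (p : ℕ → ℕ) (lam : ℕ) (x : ℕ) : ℕ :=
  if h : ∃ z, Step τ p lam z x ∧ z < x then root τ p lam (Classical.choose h) else x
termination_by x
decreasing_by exact (Classical.choose_spec h).2

section basic

variable {τ : Tower} {p : ℕ → ℕ} (hp : IsPos τ p)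

include hp

omit hp in
theorem StepS.reg' {lam s z x : ℕ} (h : StepS τ p lam s z x) : Reg τ p s x := by
  obtain ⟨h1, h2, i, hi, rfl⟩ := h
  have hc := τ.c_le s
  have h3 : τ.M (τ.c s) ≤ τ.M s := τ.M_mono hc
  have h4 : τ.M lam ≤ τ.M s := τ.M_mono (h1.trans hc)
  have h5 : τ.G (τ.c s) ≤ τ.G s := τ.G_le hc
  have h6 : i * τ.G (τ.c s) ≤ s * τ.G s := Nat.mul_le_mul hi h5
  have h7 : (s + 1) * τ.G s = s * τ.G s + τ.G s := by ring
  refine ⟨by omega, ?_⟩
  unfold Tower.D
  omega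

theorem StepS.reg {lam s z x : ℕ} (h : StepS τ p lam s z x) : Reg τ p s x := by
  obtain ⟨h1, h2, i, hi, rfl⟩ := h
  have hc := τ.c_le s
  have h3 : τ.M (τ.c s) ≤ τ.M s := τ.M_mono hc
  have h4 : τ.M lam ≤ τ.M s := τ.M_mono (h1.trans hc)
  have h5 : τ.G (τ.c s) ≤ τ.G s := τ.G_le hc
  have h6 : i * τ.G (τ.c s) ≤ s * τ.G s := Nat.mul_le_mul hi h5
  have h7 : (s + 1) * τ.G s = s * τ.G s + τ.G s := by ring
  refine ⟨by omega, ?_⟩
  unfold Tower.D
  omega

theorem reg_unique {s s' x : ℕ} (h : Reg τ p s x) (h' : Reg τ p s' x) : s = s' := by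
  by_contra hne
  have key : ∀ {a b : ℕ}, a < b → Reg τ p a x → Reg τ p b x → False := by
    intro a b hab ha hb
    have h1 := hp.le a
    have h2 := hp.ge b
    have h3 : τ.M (a + 1) ≤ τ.M b := τ.M_mono hab
    have h4 := τ.M_ge b
    have h5 := ha.2
    have h6 := hb.1
    omega
  rcases lt_or_gt_of_ne hne with hlt | hlt
  · exact key hlt h h'
  · exact key hlt h' h

theorem StepS.lt {lam s z x : ℕ} (h : StepS τ p lam s z x) : z < x := by
  obtain ⟨h1, h2, i, hi, rfl⟩ := h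
  have := hp.ge s
  have := τ.M_ge s
  omega

theorem StepS.unique {lam s z s' z' x : ℕ} (h : StepS τ p lam s z x) (h' : StepS τ p lam s' z' x) :
    s = s' ∧ z = z' := by
  have hs : s = s' := reg_unique hp (h.reg hp) (h'.reg hp)
  subst hs
  refine ⟨rfl, ?_⟩
  obtain ⟨h1, h2, i, hi, hx⟩ := h
  obtain ⟨_, h2', i', hi', hx'⟩ := h'
  have h3 : τ.M lam ≤ τ.M (τ.c s) := τ.M_mono h1
  have h4 := τ.G_ge' (τ.c s)
  have h5 : i * τ.G (τ.c s) + z = i' * τ.G (τ.c s) + z' := by omega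
  have hz : z < τ.G (τ.c s) := by omega
  have hz' : z' < τ.G (τ.c s) := by omega
  have e1 : (i * τ.G (τ.c s) + z) % τ.G (τ.c s) = z := by
    rw [Nat.add_comm, Nat.add_mul_mod_self_right, Nat.mod_eq_of_lt hz]
  have e2 : (i' * τ.G (τ.c s) + z') % τ.G (τ.c s) = z' := by
    rw [Nat.add_comm, Nat.add_mul_mod_self_right, Nat.mod_eq_of_lt hz']
  rw [← e1, ← e2, h5]

theorem root_step {lam z x : ℕ} (h : Step τ p lam z x) : root τ p lam x = root τ p lam z := by
  obtain ⟨s, hs⟩ := h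
  have hex : ∃ z, Step τ p lam z x ∧ z < x := ⟨z, ⟨s, hs⟩, hs.lt hp⟩
  rw [root, dif_pos hex]
  obtain ⟨s', hs'⟩ := (Classical.choose_spec hex).1
  rw [(StepS.unique hp hs hs').2]

omit hp in
theorem root_self {lam x : ℕ} (h : ¬ ∃ z, Step τ p lam z x) : root τ p lam x = x := by
  rw [root, dif_neg]
  rintro ⟨z, hz, _⟩
  exact h ⟨z, hz⟩

theorem root_le (lam x : ℕ) : root τ p lam x ≤ x := by
  induction x using Nat.strong_induction_on with
  | _ x ih =>
    by_cases h : ∃ z, Step τ p lam z x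
    · obtain ⟨z, s, hz⟩ := h
      rw [root_step hp ⟨s, hz⟩]
      exact (ih z (hz.lt hp)).trans (hz.lt hp).le
    · rw [root_self h]

theorem root_isRoot (lam x : ℕ) : ¬ ∃ z, Step τ p lam z (root τ p lam x) := by
  induction x using Nat.strong_induction_on with
  | _ x ih =>
    by_cases h : ∃ z, Step τ p lam z x
    · obtain ⟨z, s, hz⟩ := h
      rw [root_step hp ⟨s, hz⟩]
      exact ih z (hz.lt hp)
    · rwa [root_self h]

theorem small_isRoot {lam x : ℕ} (hx : x < 10 * τ.M lam) : ¬ ∃ z, Step τ p lam z x := by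
  rintro ⟨z, s, hs⟩
  have h1 := (hs.reg hp).1
  have h2 := hp.ge s
  have h3 : τ.M lam ≤ τ.M s := τ.M_mono (hs.1.trans (τ.c_le s))
  omega

end basic

/-- links -/
def Lk (τ : Tower) (lam : ℕ) (ν : ℤ) (x w : ℕ) : Prop :=
  (w : ℤ) = x + ν ∨ ∃ c, lam ≤ c ∧ x < τ.M c + τ.M lam ∧ w < τ.M c + τ.M lam ∧
    (τ.G c : ℤ) ∣ (w : ℤ) - x - ν

theorem Lk.symm {τ : Tower} {lam : ℕ} {ν : ℤ} {x w : ℕ} (h : Lk τ lam ν x w) :
    Lk τ lam (-ν) w x := by
  rcases h with h | ⟨c, h1, h2, h3, h4⟩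
  · left; linarith
  · refine Or.inr ⟨c, h1, h3, h2, ?_⟩
    have : (x : ℤ) - w - (-ν) = -((w : ℤ) - x - ν) := by ring
    rw [this]
    exact (dvd_neg).mpr h4

/-- proper links -/
def PL (τ : Tower) (p : ℕ → ℕ) (x r : ℕ) : Prop :=
  x < r ∨ ∃ s, Reg τ p s x ∧ 3 * τ.M s < r

/-- avoiding condition for an integer -/
def D3Z (τ : Tower) (p : ℕ → ℕ) (ν : ℤ) : Prop :=
  ∀ s, ∀ x : ℤ, (p s : ℤ) - 3 * τ.M s ≤ x → x ≤ p s + τ.D s →
    ¬ ((τ.G (s + 1) : ℤ) ∣ ν - x) ∧ ¬ ((τ.G (s + 1) : ℤ) ∣ ν + x)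

theorem D3Z.neg {τ : Tower} {p : ℕ → ℕ} {ν : ℤ} (h : D3Z τ p ν) : D3Z τ p (-ν) := by
  intro s x h1 h2
  obtain ⟨h3, h4⟩ := h s x h1 h2
  constructor
  · intro h5
    apply h4
    have : ν + x = -(-ν - x) := by ring
    rw [this]; exact (dvd_neg).mpr h5
  · intro h5
    apply h3
    have : ν - x = -(-ν + x) := by ring
    rw [this]; exact (dvd_neg).mpr h5

section links

variable {τ : Tower} {p : ℕ → ℕ} (hp : IsPos τ p) {lam : ℕ} {ν : ℤ} (hD : D3Z τ p ν)

include hp hD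

theorem link_D {x w s : ℕ} (h : Lk τ lam ν x w) (hw : Reg τ p s w) (hx : x ≤ 3 * τ.M s) :
    False := by
  have h1 := hp.ge s
  have hw1 := hw.1
  have hw2 := hw.2
  have key := (hD s ((w : ℤ) - x) (by omega) (by omega)).1
  apply key
  rcases h with h | ⟨c, hc, h2, h3, h4⟩
  · have : ν - ((w : ℤ) - x) = 0 := by linarith
    rw [this]; exact dvd_zero _
  · have h5 : τ.M lam ≤ τ.M c := τ.M_mono hc
    have h6 : τ.M s < τ.M c := by omega
    have h7 : s + 1 ≤ c := Tower.lt_of_M_lt h6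
    have h8 : (τ.G (s + 1) : ℤ) ∣ (τ.G c : ℤ) := by exact_mod_cast τ.G_dvd' h7
    have : ν - ((w : ℤ) - x) = -((w : ℤ) - x - ν) := by ring
    rw [this]
    exact (dvd_neg).mpr (h8.trans h4)

theorem link_D' {x w s : ℕ} (h : Lk τ lam ν x w) (hx : Reg τ p s x) (hw : w ≤ 3 * τ.M s) :
    False :=
  link_D hp hD.neg h.symm hx hw

/-- uniqueness of small links -/
theorem link_U {x x' r : ℕ} (h : Lk τ lam ν x r) (hpl : PL τ p x r) (h' : Lk τ lam ν x' r)
    (hne : x ≠ x') : 4 * r < x' ∧ ∀ s, ¬ Reg τ p s x' := by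
  -- first case: the second link is inexact of smaller or equal class
  have caseA : ∀ c', lam ≤ c' → x' < τ.M c' + τ.M lam → r < τ.M c' + τ.M lam →
      (τ.G c' : ℤ) ∣ (x : ℤ) - x' → False := by
    intro c' hc' hx' hr hd
    have h1 : τ.M lam ≤ τ.M c' := τ.M_mono hc'
    have h2 := τ.G_ge' c'
    have h3 := τ.M_ge c'
    have h4 : x' + τ.G c' ≤ x := by
      obtain ⟨k, hk⟩ := hd
      have hk0 : k ≠ 0 := by
        rintro rfl
        apply hne
        have : (x : ℤ) = x' := by linarith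
        exact_mod_cast this
      rcases lt_or_gt_of_ne hk0 with hk1 | hk1
      · exfalso
        have : (τ.G c' : ℤ) * k ≤ -(τ.G c' : ℤ) := by nlinarith [(by positivity : (0:ℤ) ≤ (τ.G c' : ℤ))]
        have : (x : ℤ) - x' ≤ -(τ.G c' : ℤ) := by linarith
        omega
      · have : (τ.G c' : ℤ) ≤ (τ.G c' : ℤ) * k := by nlinarith [(by positivity : (0:ℤ) ≤ (τ.G c' : ℤ))]
        omega
    rcases hpl with hlt | ⟨s, hs, h3s⟩
    · omega
    · have h5 : s < c' := Tower.lt_of_M_lt (by omega : τ.M s < τ.M c')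
      have h6 := hs.2
      have h7 := hp.le s
      have h8 : τ.M (s + 1) ≤ τ.M c' := τ.M_mono h5
      omega
  -- second case
  have caseB : ∀ c, lam ≤ c → x < τ.M c + τ.M lam → r < τ.M c + τ.M lam →
      (τ.G c : ℤ) ∣ (x' : ℤ) - x → 4 * r < x' ∧ ∀ s, ¬ Reg τ p s x' := by
    intro c hc hx hr hd
    have h1 : τ.M lam ≤ τ.M c := τ.M_mono hc
    have h2 := τ.G_ge' c
    have h3 := τ.M_ge c
    have h4 : x + τ.G c ≤ x' := by
      obtain ⟨k, hk⟩ := hd
      have hk0 : k ≠ 0 := by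
        rintro rfl
        apply hne
        have : (x : ℤ) = x' := by linarith
        exact_mod_cast this
      rcases lt_or_gt_of_ne hk0 with hk1 | hk1
      · exfalso
        have : (τ.G c : ℤ) * k ≤ -(τ.G c : ℤ) := by nlinarith [(by positivity : (0:ℤ) ≤ (τ.G c : ℤ))]
        omega
      · have : (τ.G c : ℤ) ≤ (τ.G c : ℤ) * k := by nlinarith [(by positivity : (0:ℤ) ≤ (τ.G c : ℤ))]
        omega
    refine ⟨by omega, ?_⟩
    intro s hs
    have h6 := hs.2
    have h7 := hp.le s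
    have h5 : c ≤ s := by
      by_contra hlt
      have h8 : τ.M (s + 1) ≤ τ.M c := τ.M_mono (by omega)
      omega
    have h9 : τ.M c ≤ τ.M s := τ.M_mono h5
    exact link_D' hp hD h' hs (by omega)
  rcases h with h | ⟨c, hc, h1, h2, h3⟩
  · rcases h' with h' | ⟨c', hc', h1', h2', h3'⟩
    · exfalso; apply hne
      have : (x : ℤ) = x' := by linarith
      exact_mod_cast this
    · exfalso
      apply caseA c' hc' h1' h2'
      have : (x : ℤ) - x' = (r : ℤ) - x' - ν := by linarith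
      rw [this]; exact h3'
  · rcases h' with h'' | ⟨c', hc', h1', h2', h3'⟩
    · apply caseB c hc h1 h2
      have : (x' : ℤ) - x = (r : ℤ) - x - ν := by linarith
      rw [this]; exact h3
    · rcases le_total c' c with hcc | hcc
      · exfalso
        apply caseA c' hc' h1' h2'
        have h8 : (τ.G c' : ℤ) ∣ (τ.G c : ℤ) := by exact_mod_cast τ.G_dvd' hcc
        have : (x : ℤ) - x' = ((r : ℤ) - x' - ν) - ((r : ℤ) - x - ν) := by ring
        rw [this]
        exact dvd_sub h3' (h8.trans h3)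
      · apply caseB c hc h1 h2
        have h8 : (τ.G c : ℤ) ∣ (τ.G c' : ℤ) := by exact_mod_cast τ.G_dvd' hcc
        have : (x' : ℤ) - x = ((r : ℤ) - x - ν) - ((r : ℤ) - x' - ν) := by ring
        rw [this]
        exact dvd_sub h3 (h8.trans h3')

theorem link_U' {w w' r : ℕ} (h : Lk τ lam ν r w) (hpl : PL τ p w r) (h' : Lk τ lam ν r w')
    (hne : w ≠ w') : 4 * r < w' ∧ ∀ s, ¬ Reg τ p s w' :=
  link_U hp hD.neg h.symm hpl h'.symm hne

/-- one side in a window, the other not in the same window -/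
theorem link_V {x w s z : ℕ} (h : Lk τ lam ν x w) (hw : StepS τ p lam s z w)
    (hx : ¬ ∃ z', StepS τ p lam s z' x) :
    3 * τ.M s < x ∧ (∀ s', Reg τ p s' x → s' = s) ∧ ¬ ∃ z', Step τ p lam z' x := by
  have hreg := hw.reg hp
  have h1 : 3 * τ.M s < x := by
    by_contra hle
    exact link_D hp hD h hreg (by omega)
  have h2 : ∀ s', Reg τ p s' x → s' = s := by
    intro s' hs'
    rcases lt_trichotomy s' s with hlt | heq | hgt
    · exfalso
      have h3 := hs'.2
      have h4 := hp.le s'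
      have h5 : τ.M (s' + 1) ≤ τ.M s := τ.M_mono hlt
      omega
    · exact heq
    · exfalso
      have h3 := hreg.2
      have h4 := hp.le s
      have h5 : τ.M (s + 1) ≤ τ.M s' := τ.M_mono hgt
      exact link_D' hp hD h hs' (by omega)
  refine ⟨h1, h2, ?_⟩
  rintro ⟨z', s', hz'⟩
  have := h2 s' (hz'.reg hp)
  subst this
  exact hx ⟨z', hz'⟩

theorem link_V' {x w s z : ℕ} (h : Lk τ lam ν x w) (hx : StepS τ p lam s z x)
    (hw : ¬ ∃ z', StepS τ p lam s z' w) :
    3 * τ.M s < w ∧ (∀ s', Reg τ p s' w → s' = s) ∧ ¬ ∃ z', Step τ p lam z' w :=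
  link_V hp hD.neg h.symm hx hw

omit hD in
theorem link_strip {x w s z z' : ℕ} (h : Lk τ lam ν x w) (hx : StepS τ p lam s z x)
    (hw : StepS τ p lam s z' w) : Lk τ lam ν z z' := by
  have hxr := (hx.reg hp).1
  have hps := hp.ge s
  obtain ⟨h1, h2, i, hi, hxe⟩ := hx
  obtain ⟨_, h2', i', hi', hwe⟩ := hw
  refine Or.inr ⟨τ.c s, h1, h2, h2', ?_⟩
  have hd : (τ.G (τ.c s) : ℤ) ∣ (w : ℤ) - x - ν := by
    rcases h with h | ⟨c, hc, h3, h4, h5⟩
    · have : (w : ℤ) - x - ν = 0 := by linarith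
      rw [this]; exact dvd_zero _
    · have h6 : τ.M lam ≤ τ.M c := τ.M_mono hc
      have h7 := τ.M_ge s
      have h8 : s < c := Tower.lt_of_M_lt (by omega : τ.M s < τ.M c)
      have h9 : (τ.G (τ.c s) : ℤ) ∣ (τ.G c : ℤ) := by
        exact_mod_cast τ.G_dvd' ((τ.c_le s).trans h8.le)
      exact h9.trans h5
  have : (z' : ℤ) - z - ν = ((w : ℤ) - x - ν) - (τ.G (τ.c s) : ℤ) * ((i' : ℤ) - i) := by
    rw [hxe, hwe]; push_cast; ring
  rw [this]
  exact dvd_sub hd (dvd_mul_right _ _)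

omit hD in
/-- strip all common windows -/
theorem link_reduce : ∀ {x w : ℕ}, Lk τ lam ν x w → ∃ x' w', Lk τ lam ν x' w' ∧
    root τ p lam x' = root τ p lam x ∧ root τ p lam w' = root τ p lam w ∧
    ∀ s, ¬ ((∃ z, StepS τ p lam s z x') ∧ ∃ z, StepS τ p lam s z w') := by
  intro x
  induction x using Nat.strong_induction_on with
  | _ x ih =>
    intro w h
    by_cases hc : ∃ s, (∃ z, StepS τ p lam s z x) ∧ ∃ z, StepS τ p lam s z w
    · obtain ⟨s, ⟨z, hz⟩, ⟨z', hz'⟩⟩ := hc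
      obtain ⟨x', w', h1, h2, h3, h4⟩ := ih z (hz.lt hp) (link_strip hp h hz hz')
      exact ⟨x', w', h1, h2.trans (root_step hp ⟨s, hz⟩).symm,
        h3.trans (root_step hp ⟨s, hz'⟩).symm, h4⟩
    · exact ⟨x, w, h, rfl, rfl, fun s hs => hc ⟨s, hs⟩⟩

end links

/-- not in a region of low class -/
def NotLow (τ : Tower) (p : ℕ → ℕ) (lam r : ℕ) : Prop := ∀ s, τ.c s < lam → ¬ Reg τ p s r

/-- the good roots: target side (`true`) and source side (`false`) -/
inductive Good (τ : Tower) (p : ℕ → ℕ) (lam : ℕ) (ν : ℤ) (v : ℕ) : Bool → ℕ → Prop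
  | t0 (x r : ℕ) (h : root τ p lam x = v) (l : Lk τ lam ν x r) (pl : PL τ p x r)
      (rt : ¬ ∃ z, Step τ p lam z r) (nl : NotLow τ p lam r) : Good τ p lam ν v true r
  | t1 (x r : ℕ) (h : Good τ p lam ν v false (root τ p lam x)) (l : Lk τ lam ν x r)
      (pl : PL τ p x r) (rt : ¬ ∃ z, Step τ p lam z r) (nl : NotLow τ p lam r) :
      Good τ p lam ν v true r
  | f0 (w r : ℕ) (h : Good τ p lam ν v true (root τ p lam w)) (l : Lk τ lam ν r w)
      (pl : PL τ p w r) (rt : ¬ ∃ z, Step τ p lam z r) (nl : NotLow τ p lam r) :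
      Good τ p lam ν v false r

section main

variable {τ : Tower} {p : ℕ → ℕ} {lam : ℕ} {ν : ℤ} {v : ℕ}

theorem Good.inv_true {r : ℕ} (h : Good τ p lam ν v true r) :
    ∃ x, (root τ p lam x = v ∨ Good τ p lam ν v false (root τ p lam x)) ∧ Lk τ lam ν x r ∧
      PL τ p x r ∧ NotLow τ p lam r := by
  cases h with
  | t0 x _ h l pl rt nl => exact ⟨x, Or.inl h, l, pl, nl⟩
  | t1 x _ h l pl rt nl => exact ⟨x, Or.inr h, l, pl, nl⟩

theorem Good.inv_false {r : ℕ} (h : Good τ p lam ν v false r) :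
    ∃ w, Good τ p lam ν v true (root τ p lam w) ∧ Lk τ lam ν r w ∧
      PL τ p w r ∧ NotLow τ p lam r := by
  cases h with
  | f0 w _ h l pl rt nl => exact ⟨w, h, l, pl, nl⟩

theorem Lk.dvd {x w : ℕ} (h : Lk τ lam ν x w) : (τ.G lam : ℤ) ∣ (w : ℤ) - x - ν := by
  rcases h with h | ⟨c, hc, h3, h4, h5⟩
  · have : (w : ℤ) - x - ν = 0 := by linarith
    rw [this]; exact dvd_zero _
  · exact (by exact_mod_cast τ.G_dvd' hc : (τ.G lam : ℤ) ∣ (τ.G c : ℤ)).trans h5

theorem good_large_aux (hp : IsPos τ p)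
    (hne : ∀ d : ℤ, (τ.G lam : ℤ) ∣ d - ν → 8 * (τ.M lam : ℤ) < |d|) {x r : ℕ}
    (l : Lk τ lam ν x r) (pl : PL τ p x r) : 3 * τ.M lam < r := by
  have h1 := hne ((r : ℤ) - x) (by simpa using l.dvd)
  rcases pl with hlt | ⟨s, hs, h3⟩
  · rw [abs_of_pos (by omega)] at h1
    omega
  · by_cases hs' : lam ≤ s
    · have := τ.M_mono hs'
      omega
    · have h4 := hs.2
      have h5 := hp.le s
      have h6 : τ.M (s + 1) ≤ τ.M lam := τ.M_mono (by omega)
      have h7 : x ≤ τ.M lam := by omega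
      rcases le_or_gt 0 ((r : ℤ) - x) with h8 | h8
      · rw [abs_of_nonneg h8] at h1
        omega
      · rw [abs_of_neg h8] at h1
        omega

theorem neg_ne (hne : ∀ d : ℤ, (τ.G lam : ℤ) ∣ d - ν → 8 * (τ.M lam : ℤ) < |d|) :
    ∀ d : ℤ, (τ.G lam : ℤ) ∣ d - (-ν) → 8 * (τ.M lam : ℤ) < |d| := by
  intro d hd
  have := hne (-d) (by
    have : -d - ν = -(d - -ν) := by ring
    rw [this]; exact (dvd_neg).mpr hd)
  rwa [abs_neg] at this

theorem Good.large (hp : IsPos τ p)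
    (hne : ∀ d : ℤ, (τ.G lam : ℤ) ∣ d - ν → 8 * (τ.M lam : ℤ) < |d|) {b : Bool} {r : ℕ}
    (h : Good τ p lam ν v b r) : 3 * τ.M lam < r := by
  cases h with
  | t0 x _ h l pl rt nl => exact good_large_aux hp hne l pl
  | t1 x _ h l pl rt nl => exact good_large_aux hp hne l pl
  | f0 w _ h l pl rt nl => exact good_large_aux hp (neg_ne hne) l.symm pl

theorem good_iff (hp : IsPos τ p) (hD : D3Z τ p ν) (hv : v ≤ τ.M lam)
    (hne : ∀ d : ℤ, (τ.G lam : ℤ) ∣ d - ν → 8 * (τ.M lam : ℤ) < |d|) {x w : ℕ}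
    (h0 : Lk τ lam ν x w) :
    (root τ p lam x = v ∨ Good τ p lam ν v false (root τ p lam x)) ↔
      Good τ p lam ν v true (root τ p lam w) := by
  obtain ⟨x', w', h, hrx, hrw, hcom⟩ := link_reduce hp h0
  rw [← hrx, ← hrw]
  clear hrx hrw h0 x w
  rename' x' => x, w' => w
  constructor
  · intro hT
    by_cases hw : ∃ z, Step τ p lam z w
    · obtain ⟨z, s, hz⟩ := hw
      have hx : ¬ ∃ z', StepS τ p lam s z' x := fun hx => hcom s ⟨hx, ⟨z, hz⟩⟩
      obtain ⟨h1, h2, h3⟩ := link_V hp hD h hz hx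
      rw [root_self h3] at hT
      rcases hT with hT | hT
      · exfalso
        have : τ.M lam ≤ τ.M s := τ.M_mono (hz.1.trans (τ.c_le s))
        omega
      · obtain ⟨w'', g1, g2, g3, g4⟩ := hT.inv_false
        by_cases heq : w'' = w
        · rwa [heq] at g1
        · exfalso
          exact (link_U' hp hD g2 g3 h heq).2 s (hz.reg hp)
    · rw [root_self hw]
      by_cases hx : ∃ z, Step τ p lam z x
      · obtain ⟨z, s, hz⟩ := hx
        have hw' : ¬ ∃ z', StepS τ p lam s z' w := fun hw' => hcom s ⟨⟨z, hz⟩, hw'⟩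
        obtain ⟨h1, h2, h3⟩ := link_V' hp hD h hz hw'
        have hpl : PL τ p x w := Or.inr ⟨s, hz.reg hp, h1⟩
        have hnl : NotLow τ p lam w := by
          intro s' hs' hr
          have := h2 s' hr
          subst this
          exact absurd hz.1 (by omega)
        rcases hT with hT | hT
        · exact Good.t0 x w hT h hpl hw hnl
        · exact Good.t1 x w hT h hpl hw hnl
      · have hxr := root_self hx
        rcases hT with hT | hT
        · have hxv : x = v := by rw [← hT, hxr]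
          have h1 := hne ((w : ℤ) - x) (by simpa using h.dvd)
          have h2 : 8 * τ.M lam < w := by
            rcases le_or_gt 0 ((w : ℤ) - x) with h8 | h8
            · rw [abs_of_nonneg h8] at h1
              omega
            · rw [abs_of_neg h8] at h1
              omega
          refine Good.t0 x w hT h (Or.inl (by omega)) hw ?_
          intro s hs hr
          by_cases hsl : lam ≤ s
          · have : τ.M lam ≤ τ.M s := τ.M_mono hsl
            exact link_D hp hD h hr (by omega)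
          · have h4 := hr.2
            have h5 := hp.le s
            have h6 : τ.M (s + 1) ≤ τ.M lam := τ.M_mono (by omega)
            omega
        · have hT' := hT
          rw [hxr] at hT
          obtain ⟨w'', g1, g2, g3, g4⟩ := hT.inv_false
          by_cases heq : w'' = w
          · rwa [heq, root_self hw] at g1
          · obtain ⟨u1, u2⟩ := link_U' hp hD g2 g3 h heq
            exact Good.t1 x w hT' h (Or.inl (by omega)) hw (fun s _ => u2 s)
  · intro hQ
    by_cases hx : ∃ z, Step τ p lam z x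
    · obtain ⟨z, s, hz⟩ := hx
      have hw' : ¬ ∃ z', StepS τ p lam s z' w := fun hw' => hcom s ⟨⟨z, hz⟩, hw'⟩
      obtain ⟨h1, h2, h3⟩ := link_V' hp hD h hz hw'
      rw [root_self h3] at hQ
      obtain ⟨x'', g1, g2, g3, g4⟩ := hQ.inv_true
      by_cases heq : x'' = x
      · rwa [heq] at g1
      · exfalso
        exact (link_U hp hD g2 g3 h heq).2 s (hz.reg hp)
    · rw [root_self hx]
      by_cases hw : ∃ z, Step τ p lam z w
      · obtain ⟨z, s, hz⟩ := hw
        have hx' : ¬ ∃ z', StepS τ p lam s z' x := fun hx' => hcom s ⟨hx', ⟨z, hz⟩⟩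
        obtain ⟨h1, h2, h3⟩ := link_V hp hD h hz hx'
        right
        refine Good.f0 w x hQ h (Or.inr ⟨s, hz.reg hp, h1⟩) hx ?_
        intro s' hs' hr
        have := h2 s' hr
        subst this
        exact absurd hz.1 (by omega)
      · have hQ' := hQ
        rw [root_self hw] at hQ
        obtain ⟨x'', g1, g2, g3, g4⟩ := hQ.inv_true
        by_cases heq : x'' = x
        · rwa [heq, root_self hx] at g1
        · obtain ⟨u1, u2⟩ := link_U hp hD g2 g3 h heq
          right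
          exact Good.f0 w x hQ' h (Or.inl (by omega)) hx (fun s _ => u2 s)

/-- The combinatorial core. -/
theorem core (hp : IsPos τ p) (n : ℕ) (hD : D3 τ p n) (hv : v ≤ τ.M lam)
    (hne : ∀ d : ℤ, (τ.G lam : ℤ) ∣ d - n → 8 * (τ.M lam : ℤ) < |d|) :
    ∃ Gf Gt : ℕ → Prop,
      (∀ r, Gf r → 3 * τ.M lam < r ∧ ∀ s, τ.c s < lam → ¬ Reg τ p s r) ∧
      (∀ r, Gt r → 3 * τ.M lam < r ∧ ∀ s, τ.c s < lam → ¬ Reg τ p s r) ∧
      ∀ x, (root τ p lam x = v ∨ Gf (root τ p lam x)) ↔ Gt (root τ p lam (x + n)) := by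
  refine ⟨Good τ p lam n v false, Good τ p lam n v true, ?_, ?_, ?_⟩
  · intro r hr
    exact ⟨hr.large hp hne, hr.inv_false.choose_spec.2.2.2⟩
  · intro r hr
    exact ⟨hr.large hp hne, hr.inv_true.choose_spec.2.2.2⟩
  · intro x
    exact good_iff hp hD hv hne (Or.inl (by push_cast; ring))

end main

end Pool.Agent.W_MP_94b3e1_an
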