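import Mathlib

/-!
# Definitions for the counterexample to dense lineability of reiteratively recurrent vectors
(MP_94b3e1_an, frozen statement S05452).
-/

set_option autoImplicit false

namespace Pool.Agent.W_MP_94b3e1_an

/-- Numerical tower: copy lengths `M s`, gaps `G s`, classes `c s` of the windows. -/
structure Tower where
  M : ℕ → ℕ
  G : ℕ → ℕ
  c : ℕ → ℕ
  M_zero : 256 ≤ M 0
  M_succ : ∀ s, 10 * M s ≤ M (s + 1)
  c_le : ∀ s, c s ≤ s
  c_inf : ∀ A L, ∃ t, L ≤ t ∧ c t = A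
  G_dvd : ∀ s, G s ∣ G (s + 1)
  G_ge : ∀ s, 1000 * 2 ^ s * M s ≤ G s

/-- Length of the region occupied by window `s`. -/
def Tower.D (τ : Tower) (s : ℕ) : ℕ := (s + 1) * τ.G s + 2 * τ.M s

/-- Admissible window positions. Window `s` is the progression
`p s + i * G (c s)`, `i ≤ s`; its region is `[p s, p s + D s]`. -/
structure IsPos (τ : Tower) (p : ℕ → ℕ) : Prop where
  ge : ∀ s, 10 * τ.M s ≤ p s
  dvd : ∀ s, τ.G s ∣ p s
  le : ∀ s, p s + τ.D s ≤ τ.M (s + 1)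

/-- The norming functions of the adversary space: the sequence looks approximately the same
after every element of a window. -/
def KW (τ : Tower) (p : ℕ → ℕ) : Set (ℕ → ℝ) :=
  {f | (∀ v, |f v| ≤ 2 ^ v) ∧
    ∀ s i, i ≤ s → ∀ v,
      |f (p s + i * τ.G (τ.c s) + v) - f v| ≤ 2 ^ v / 2 ^ (τ.M (τ.c s))}

/-- `n` is not congruent to `± x` for `x` in (an enlargement of) the region of window `s`. -/
def D3 (τ : Tower) (p : ℕ → ℕ) (n : ℕ) : Prop :=
  ∀ s, ∀ x : ℤ, (p s : ℤ) - 3 * τ.M s ≤ x → x ≤ p s + τ.D s →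
    ¬ ((τ.G (s + 1) : ℤ) ∣ (n : ℤ) - x) ∧ ¬ ((τ.G (s + 1) : ℤ) ∣ (n : ℤ) + x)

/-- `φ` is the pairing with an element of the closed linear span of the evaluations in
`ℓ_∞(K)`. -/
def IsV (K : Set (ℕ → ℝ)) (φ : (ℕ → ℝ) → ℝ) : Prop :=
  ∀ ε : ℝ, 0 < ε → ∃ z : ℕ →₀ ℝ, ∀ (f : ℕ → ℝ) (C : ℝ), 0 < C → (fun n => f n / C) ∈ K →
    |φ f - z.sum (fun n a => a * f n)| ≤ C * ε

/-- All numerical parameters: the tower together with the blocks of the space `X_0`. -/
structure Params extends Tower where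
  q : ℕ → Bool → ℕ
  a : ℕ → Bool → ℕ
  h : ℕ → Bool → ℕ
  q_dvd : ∀ s σ, q s σ ∣ G (s + 1)
  q_cop : ∀ s σ, Nat.Coprime (q s σ) (G s)
  q_cop' : ∀ s, Nat.Coprime (q s true) (q s false)
  q_le : ∀ s σ, q s σ ≤ 2 * a s σ
  a_le : ∀ s σ, a s σ + h s σ + (toTower.D s + 3 * M s + 1) ≤ q s σ
  h_ge : ∀ s σ, 8 * q s σ * 2 ^ s ≤ 2 ^ (h s σ)
  G_le_a : ∀ s σ, 2 * G s ≤ a s σ
  q_big : ∀ s σ, 2 ^ (2 * s + 14) * (h s σ + (toTower.D s + 3 * M s + 1)) ^ 2 ≤ q s σ
  M_succ_ge : ∀ s, 10 * M s + q s true * q s false * G s + toTower.D s ≤ M (s + 1)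
  prod_le : ∀ s, G s * q s true * q s false ≤ G (s + 1)

/-- length of the high interval of block `s` -/
def Params.H (P : Params) (s : ℕ) : ℕ := P.toTower.D s + 3 * P.M s + 1

/-- the ramp interval (ramp plus high interval) of a block: residues with weight `≠ 2^{-s}` -/
def Params.InR (P : Params) (s : ℕ) (σ : Bool) (x : ℕ) : Prop :=
  P.a s σ ≤ x % P.q s σ ∧ x % P.q s σ < P.a s σ + P.h s σ + P.H s

/-- the high interval of a block -/
def Params.InHigh (P : Params) (s : ℕ) (σ : Bool) (x : ℕ) : Prop :=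
  P.a s σ + P.h s σ ≤ x % P.q s σ ∧ x % P.q s σ < P.a s σ + P.h s σ + P.H s

/-- the weight of residue `r` in block `(s, σ)` -/
noncomputable def Params.om (P : Params) (s : ℕ) (σ : Bool) (r : ℕ) : ℝ :=
  if r < P.a s σ then 1 / 2 ^ s
  else if r < P.a s σ + P.h s σ then 2 ^ (r - P.a s σ) / 2 ^ s
  else if r < P.a s σ + P.h s σ + P.H s then 2 ^ (P.h s σ) / 2 ^ s
  else 1 / 2 ^ s

/-- the norming functions of `X_0` -/
def Params.K0 (P : Params) : Set (ℕ → ℝ) :=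
  {f | (∃ c : ℝ, |c| ≤ 1 ∧ f = fun _ => c) ∨
    ∃ (s : ℕ) (σ : Bool) (r : ℕ) (c : ℝ), |c| ≤ 1 ∧ r < P.q s σ ∧
      f = fun n => if n % P.q s σ = r then c * P.om s σ r else 0}

/-- window positions adapted to the phases `m` -/
structure IsPosM (P : Params) (m : ℕ → Bool → ℕ) (p : ℕ → ℕ) : Prop where
  pos : IsPos P.toTower p
  plus : ∀ s, p s + m s true ≡ P.a s true + P.h s true + 3 * P.M s [MOD P.q s true]
  minus : ∀ s, m s false ≡ P.a s false + P.h s false + p s + P.toTower.D s [MOD P.q s false]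

/-- A kind: a pointwise bounded class of functions stable under `f ↦ f(· + 1) / 2`. -/
structure Kind where
  K : Set (ℕ → ℝ)
  bdd : ∀ n, ∃ C : ℝ, ∀ f ∈ K, |f n| ≤ C
  shift : ∀ f ∈ K, (fun n => f (n + 1) / 2) ∈ K

open Classical in
/-- extension of a function on `K` to all functions `f` with `f / C ∈ K` for some `C > 0`
(by homogeneity), and `0` elsewhere -/
noncomputable def ext (K : Set (ℕ → ℝ)) (g : K → ℝ) (f : ℕ → ℝ) : ℝ :=
  if h : ∃ C : ℝ, 0 < C ∧ (fun n => f n / C) ∈ K then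
    Classical.choose h * g ⟨_, (Classical.choose_spec h).2⟩ else 0

/-- The dynamical system attached to a family of kinds: `X` is the closed linear span of the
evaluations `ev a n` in `ℓ_∞(Σ a, 𝒦 a)`. -/
structure Frame {Γ : Type} (𝒦 : Γ → Kind) where
  X : Type
  [ng : NormedAddCommGroup X]
  [ns : NormedSpace ℝ X]
  [cs : CompleteSpace X]
  T : X →L[ℝ] X
  ev : Γ → ℕ → X
  val : (a : Γ) → X → (𝒦 a).K → ℝ
  T_norm : ‖T‖ ≤ 2
  T_ev : ∀ a n, T (ev a n) = ev a (n + 1)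
  dense : Dense (Submodule.span ℝ (Set.range fun x : Γ × ℕ => ev x.1 x.2) : Set X)
  val_add : ∀ a x y f, val a (x + y) f = val a x f + val a y f
  val_sub : ∀ a x y f, val a (x - y) f = val a x f - val a y f
  val_T : ∀ a x n (f g : (𝒦 a).K), (∀ v, g.1 v = f.1 (v + n) / 2 ^ n) →
    val a ((T ^ n) x) f = 2 ^ n * val a x g
  val_le : ∀ a x f, |val a x f| ≤ ‖x‖
  norm_le : ∀ x (C : ℝ), 0 ≤ C → (∀ a f, |val a x f| ≤ C) → ‖x‖ ≤ C
  val_ev_self : ∀ a n f, val a (ev a n) f = f.1 n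
  val_ev_ne : ∀ a b n f, a ≠ b → val a (ev b n) f = 0
  countable : ∀ x, {a | ∃ f, val a x f ≠ 0}.Countable
  approx : ∀ a x (ε : ℝ), 0 < ε → ∃ z : ℕ →₀ ℝ, ∀ f : (𝒦 a).K,
    |val a x f - z.sum (fun n b => b * f.1 n)| ≤ ε

attribute [instance] Frame.ng Frame.ns Frame.cs

/-- canonical sequence taking every value infinitely often -/
def kk (j : ℕ) : ℕ := (Nat.unpair j).1

end Pool.Agent.W_MP_94b3e1_an
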