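import Pool.Agent.W_MP_94b3e1_an.Core

/-!
# Masses of root classes and the incompatibility theorem
-/

set_option autoImplicit false

namespace Pool.Agent.W_MP_94b3e1_an

section isv

variable {K : Set (ℕ → ℝ)} {φ : (ℕ → ℝ) → ℝ}

theorem IsV.rel (hφ : IsV K φ) {ι : Type} (t : Finset ι)
    (F : ι → ℕ → ℝ) (co : ι → ℝ) (hF : ∀ i ∈ t, ∃ C : ℝ, 0 < C ∧ (fun n => F i n / C) ∈ K)
    (hrel : ∀ x, ∑ i ∈ t, co i * F i x = 0) : ∑ i ∈ t, co i * φ (F i) = 0 := by
  classical
  have hF' : ∀ i, ∃ C : ℝ, 0 < C ∧ (i ∈ t → (fun n => F i n / C) ∈ K) := by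
    intro i
    by_cases hi : i ∈ t
    · obtain ⟨C, hC, h⟩ := hF i hi
      exact ⟨C, hC, fun _ => h⟩
    · exact ⟨1, one_pos, fun h => absurd h hi⟩
  choose C hC hCK using hF'
  set A : ℝ := ∑ i ∈ t, |co i| * C i with hA
  have hA0 : 0 ≤ A := Finset.sum_nonneg (fun i _ => mul_nonneg (abs_nonneg _) (hC i).le)
  have key : ∀ ε : ℝ, 0 < ε → |∑ i ∈ t, co i * φ (F i)| ≤ A * ε := by
    intro ε hε
    obtain ⟨z, hz⟩ := hφ ε hε
    have h0 : ∑ i ∈ t, co i * z.sum (fun n a => a * F i n) = 0 := by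
      have : ∑ i ∈ t, co i * z.sum (fun n a => a * F i n) =
          z.sum (fun n a => a * ∑ i ∈ t, co i * F i n) := by
        simp only [Finsupp.sum, Finset.mul_sum]
        rw [Finset.sum_comm]
        refine Finset.sum_congr rfl fun n _ => Finset.sum_congr rfl fun i _ => ?_
        ring
      rw [this]
      simp [hrel, Finsupp.sum]
    have h1 : ∑ i ∈ t, co i * φ (F i) =
        ∑ i ∈ t, co i * (φ (F i) - z.sum (fun n a => a * F i n)) := by
      have : ∀ i, co i * (φ (F i) - z.sum (fun n a => a * F i n)) =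
          co i * φ (F i) - co i * z.sum (fun n a => a * F i n) := fun i => by ring
      simp only [this, Finset.sum_sub_distrib, h0, sub_zero]
    rw [h1, hA, Finset.sum_mul]
    refine (Finset.abs_sum_le_sum_abs _ _).trans (Finset.sum_le_sum fun i hi => ?_)
    rw [abs_mul, mul_assoc]
    exact mul_le_mul_of_nonneg_left (hz (F i) (C i) (hC i) (hCK i hi)) (abs_nonneg _)
  by_contra hne
  have hpos : 0 < |∑ i ∈ t, co i * φ (F i)| := abs_pos.mpr hne
  have h2 := key (|∑ i ∈ t, co i * φ (F i)| / (2 * (A + 1))) (by positivity)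
  have h3 : A * (|∑ i ∈ t, co i * φ (F i)| / (2 * (A + 1))) ≤
      |∑ i ∈ t, co i * φ (F i)| / 2 := by
    rw [mul_div_assoc', div_le_div_iff₀ (by positivity) (by positivity)]
    nlinarith
  linarith

theorem IsV.tendsto (hφ : IsV K φ) {C : ℝ} (hC : 0 < C) (f : ℕ → ℝ) (ft : ℕ → ℕ → ℝ)
    (hf : (fun n => f n / C) ∈ K) (hft : ∀ t, (fun n => ft t n / C) ∈ K)
    (hpt : ∀ x, ∃ t0, ∀ t ≥ t0, ft t x = f x) (ε : ℝ) (hε : 0 < ε) :
    ∃ t, |φ (ft t) - φ f| ≤ ε := by
  obtain ⟨z, hz⟩ := hφ (ε / (2 * C)) (by positivity)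
  choose t0 ht0 using hpt
  refine ⟨z.support.sup t0, ?_⟩
  set t := z.support.sup t0
  have h1 := hz (ft t) C hC (hft t)
  have h2 := hz f C hC hf
  have h3 : z.sum (fun n a => a * ft t n) = z.sum (fun n a => a * f n) := by
    refine Finset.sum_congr rfl fun n hn => ?_
    simp only
    rw [ht0 n t (Finset.le_sup hn)]
  rw [h3] at h1
  have h4 : C * (ε / (2 * C)) = ε / 2 := by field_simp
  rw [h4] at h1 h2
  rw [abs_le] at *
  constructor <;> linarith [h1.1, h1.2, h2.1, h2.2]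

/-- three-term relation -/
theorem IsV.rel3 (hφ : IsV K φ) (f g h : ℕ → ℝ) (c : ℝ)
    (hf : ∃ C : ℝ, 0 < C ∧ (fun n => f n / C) ∈ K) (hg : ∃ C : ℝ, 0 < C ∧ (fun n => g n / C) ∈ K)
    (hh : ∃ C : ℝ, 0 < C ∧ (fun n => h n / C) ∈ K) (hrel : ∀ x, f x = c * g x + h x) :
    φ f = c * φ g + φ h := by
  have := hφ.rel (Finset.univ : Finset (Fin 3)) ![f, g, h] ![1, -c, -1] (by
    intro i _
    fin_cases i
    · exact hf
    · exact hg
    · exact hh) (by
    intro x
    simp [Fin.sum_univ_three, hrel x])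
  simp [Fin.sum_univ_three] at this
  linarith

end isv

section kw

variable {τ : Tower} {p : ℕ → ℕ}

theorem KW_shift_n (f : ℕ → ℝ) (hf : f ∈ KW τ p) (n : ℕ) :
    (fun x => f (x + n) / 2 ^ n) ∈ KW τ p := by
  obtain ⟨h1, h2⟩ := hf
  refine ⟨fun v => ?_, fun s i hi v => ?_⟩
  · rw [abs_div, abs_of_pos (by positivity : (0:ℝ) < 2 ^ n), div_le_iff₀ (by positivity),
      ← pow_add]
    exact h1 _
  · rw [← sub_div, abs_div, abs_of_pos (by positivity : (0:ℝ) < 2 ^ n),
      div_le_iff₀ (by positivity)]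
    have := h2 s i hi (v + n)
    rw [← add_assoc] at this
    refine this.trans (le_of_eq ?_)
    rw [pow_add]; ring

open Classical in
/-- multiples of indicators in `KW` -/
theorem ind_mem {A : ℕ → Prop} {a : ℝ} (ha : 0 ≤ a) (h1 : ∀ x, A x → a ≤ 2 ^ x)
    (h2 : ∀ s i, i ≤ s → ∀ v, (A (p s + i * τ.G (τ.c s) + v) ↔ A v) ∨
      a ≤ 2 ^ v / 2 ^ (τ.M (τ.c s))) :
    (fun x => if A x then a else 0) ∈ KW τ p := by
  refine ⟨fun v => ?_, fun s i hi v => ?_⟩
  · by_cases hA : A v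
    · simp only [hA, if_true]
      rw [abs_of_nonneg ha]; exact h1 v hA
    · simp only [hA, if_false, abs_zero]; positivity
  · rcases h2 s i hi v with h | h
    · have : (if A (p s + i * τ.G (τ.c s) + v) then a else 0) = (if A v then a else 0) := by
        simp only [h]
      simp only [this, sub_self, abs_zero]
      positivity
    · refine le_trans ?_ h
      by_cases hA : A (p s + i * τ.G (τ.c s) + v) <;> by_cases hB : A v <;>
        simp [hA, hB, abs_of_nonneg ha, ha]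

theorem step_of_lt {lam s i v : ℕ} (hc : lam ≤ τ.c s) (hi : i ≤ s)
    (hv : v < τ.M (τ.c s) + τ.M lam) : Step τ p lam v (p s + i * τ.G (τ.c s) + v) :=
  ⟨s, hc, hv, i, hi, rfl⟩

theorem reg_of_small {s i v : ℕ} (hi : i ≤ s) (hv : v ≤ 2 * τ.M s) :
    Reg τ p s (p s + i * τ.G (τ.c s) + v) := by
  have h5 : τ.G (τ.c s) ≤ τ.G s := τ.G_le (τ.c_le s)
  have h6 : i * τ.G (τ.c s) ≤ s * τ.G s := Nat.mul_le_mul hi h5
  have h7 : (s + 1) * τ.G s = s * τ.G s + τ.G s := by ring
  refine ⟨by omega, ?_⟩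
  unfold Tower.D
  omega

theorem isRoot_of_low (hp : IsPos τ p) {lam s x : ℕ} (hc : τ.c s < lam) (hr : Reg τ p s x) :
    ¬ ∃ z, Step τ p lam z x := by
  rintro ⟨z, s', hs'⟩
  have := reg_unique hp hr (hs'.reg hp)
  subst this
  exact absurd hs'.1 (by omega)

open Classical in
/-- crude membership -/
theorem mem_crude (hp : IsPos τ p) (μ : ℕ) (Q : ℕ → Prop) :
    (fun x => (if Q (root τ p (μ + 1) x) then (1:ℝ) else 0) / 2 ^ (τ.M μ)) ∈ KW τ p := by
  have h := ind_mem (τ := τ) (p := p) (A := fun x => Q (root τ p (μ + 1) x))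
    (a := 1 / 2 ^ (τ.M μ)) (by positivity)
    (fun x _ => by
      have h1 : (1:ℝ) ≤ 2 ^ (τ.M μ) := one_le_pow₀ (by norm_num)
      have h2 : (1:ℝ) ≤ 2 ^ x := one_le_pow₀ (by norm_num)
      exact ((div_le_one (by positivity)).mpr h1).trans h2)
    (fun s i hi v => by
      by_cases hc : μ + 1 ≤ τ.c s
      · by_cases hv : v < τ.M (τ.c s) + τ.M (μ + 1)
        · left
          rw [root_step hp (step_of_lt hc hi hv)]
        · right
          have h3 : τ.M μ ≤ τ.M (τ.c s) := τ.M_mono (by omega)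
          have h1 : (1:ℝ) ≤ 2 ^ (τ.M μ) := one_le_pow₀ (by norm_num)
          have h2 : (2:ℝ) ^ (τ.M (τ.c s)) ≤ 2 ^ v :=
            pow_le_pow_right₀ (by norm_num) (by omega)
          exact ((div_le_one (by positivity)).mpr h1).trans ((one_le_div (by positivity)).mpr h2)
      · right
        have h3 : τ.M (τ.c s) ≤ τ.M μ := τ.M_mono (by omega)
        have h2 : (2:ℝ) ^ (τ.M (τ.c s)) ≤ 2 ^ (τ.M μ) := pow_le_pow_right₀ (by norm_num) h3
        have h4 : (1:ℝ) ≤ 2 ^ v := one_le_pow₀ (by norm_num)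
        exact div_le_div₀ (by positivity) h4 (by positivity) h2)
  convert h using 1
  funext x
  split_ifs <;> simp

open Classical in
/-- fine membership -/
theorem mem_fine (hp : IsPos τ p) (μ : ℕ) (Q : ℕ → Prop)
    (hQ : ∀ r, Q r → 3 * τ.M (μ + 1) < r ∧ ∀ s, τ.c s < μ + 1 → ¬ Reg τ p s r) :
    (fun x => if Q (root τ p (μ + 1) x) then (2:ℝ) ^ (τ.M (μ + 1)) / 2 ^ (τ.M μ) else 0)
      ∈ KW τ p := by
  have hone : (1:ℝ) ≤ 2 ^ (τ.M μ) := one_le_pow₀ (by norm_num)
  have hle : (2:ℝ) ^ (τ.M (μ + 1)) / 2 ^ (τ.M μ) ≤ 2 ^ (τ.M (μ + 1)) :=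
    div_le_self (by positivity) hone
  refine ind_mem (A := fun x => Q (root τ p (μ + 1) x)) (by positivity) ?_ ?_
  · intro x hx
    have h1 := (hQ _ hx).1
    have h2 := root_le hp (μ + 1) x
    exact hle.trans (pow_le_pow_right₀ (by norm_num) (by omega))
  · intro s i hi v
    by_cases hc : μ + 1 ≤ τ.c s
    · by_cases hv : v < τ.M (τ.c s) + τ.M (μ + 1)
      · left
        rw [root_step hp (step_of_lt hc hi hv)]
      · right
        refine hle.trans ?_
        rw [le_div_iff₀ (by positivity), ← pow_add]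
        exact pow_le_pow_right₀ (by norm_num) (by omega)
    · have h3 : τ.M (τ.c s) ≤ τ.M μ := τ.M_mono (by omega)
      by_cases hv : τ.M (μ + 1) ≤ v
      · right
        exact div_le_div₀ (by positivity) (pow_le_pow_right₀ (by norm_num) hv) (by positivity)
          (pow_le_pow_right₀ (by norm_num) h3)
      · left
        have hnv : ¬ Q (root τ p (μ + 1) v) := fun h => by
          have h1 := (hQ _ h).1
          have h2 := root_le hp (μ + 1) v
          omega
        have hnx : ¬ Q (root τ p (μ + 1) (p s + i * τ.G (τ.c s) + v)) := by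
          intro h
          have h1 := (hQ _ h).1
          have h2 := root_le hp (μ + 1) (p s + i * τ.G (τ.c s) + v)
          by_cases hs : μ + 1 ≤ s
          · have h4 : τ.M (μ + 1) ≤ τ.M s := τ.M_mono hs
            have hr : Reg τ p s (p s + i * τ.G (τ.c s) + v) := reg_of_small hi (by omega)
            have hroot := root_self (isRoot_of_low hp (lam := μ + 1) (by omega) hr)
            rw [hroot] at h
            exact (hQ _ h).2 s (by omega) hr
          · have hr : Reg τ p s (p s + i * τ.G (τ.c s) + 0) := reg_of_small hi (by omega)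
            have h4 := hr.2
            have h5 := hp.le s
            have h6 : τ.M (s + 1) ≤ τ.M (μ + 1) := τ.M_mono (by omega)
            omega
        exact ⟨fun h => absurd h hnx, fun h => absurd h hnv⟩

/-- the root set used for the mass decomposition -/
def QS (τ : Tower) (p : ℕ → ℕ) (lam : ℕ) (r : ℕ) : Prop :=
  r ≤ τ.M lam ∨ ∃ s i z, lam ≤ s ∧ τ.c s < lam ∧ i ≤ s ∧ z ≤ τ.M (τ.c s) ∧
    r = p s + i * τ.G (τ.c s) + z

/-- its truncations -/
def QT (τ : Tower) (p : ℕ → ℕ) (lam t : ℕ) (r : ℕ) : Prop :=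
  r ≤ τ.M lam ∨ ∃ s i z, lam ≤ s ∧ s < t ∧ τ.c s < lam ∧ i ≤ s ∧ z ≤ τ.M (τ.c s) ∧
    r = p s + i * τ.G (τ.c s) + z

open Classical in
theorem mem_QS (hp : IsPos τ p) (lam : ℕ) :
    (fun x => if QS τ p lam (root τ p lam x) then (1:ℝ) else 0) ∈ KW τ p := by
  refine ind_mem (A := fun x => QS τ p lam (root τ p lam x)) (by norm_num)
    (fun x _ => one_le_pow₀ (by norm_num)) ?_
  intro s i hi v
  by_cases hv : τ.M (τ.c s) ≤ v
  · right
    exact (one_le_div (by positivity)).mpr (pow_le_pow_right₀ (by norm_num) hv)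
  · left
    by_cases hc : lam ≤ τ.c s
    · rw [root_step hp (step_of_lt hc hi (by omega))]
    · have h3 : τ.M (τ.c s) ≤ τ.M lam := τ.M_mono (by omega)
      have h1 : QS τ p lam (root τ p lam v) := Or.inl (by
        have := root_le hp lam v
        omega)
      have h2 : QS τ p lam (root τ p lam (p s + i * τ.G (τ.c s) + v)) := by
        have h4 : τ.M (τ.c s) ≤ τ.M s := τ.M_mono (τ.c_le s)
        have hr : Reg τ p s (p s + i * τ.G (τ.c s) + v) := reg_of_small hi (by omega)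
        by_cases hs : lam ≤ s
        · rw [root_self (isRoot_of_low hp (lam := lam) (by omega) hr)]
          exact Or.inr ⟨s, i, v, hs, by omega, hi, by omega, rfl⟩
        · left
          have h5 := root_le hp lam (p s + i * τ.G (τ.c s) + v)
          have h6 := hr.2
          have h7 := hp.le s
          have h8 : τ.M (s + 1) ≤ τ.M lam := τ.M_mono (by omega)
          omega
      exact ⟨fun _ => h1, fun _ => h2⟩

/-- change of level -/
theorem root_level (hp : IsPos τ p) {lam s v : ℕ} (hs : lam ≤ s) (hc : τ.c s < lam)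
    (hv : Reg τ p s v) (x : ℕ) : root τ p lam x = v ↔ root τ p (s + 1) x = v := by
  have hps := hp.ge s
  have hle := hp.le s
  have hv1 := hv.1
  have hv2 := hv.2
  have hvr : ¬ ∃ z, Step τ p lam z v := isRoot_of_low hp hc hv
  have hvr' : ¬ ∃ z, Step τ p (s + 1) z v :=
    isRoot_of_low hp (lt_of_le_of_lt (τ.c_le s) (Nat.lt_succ_self s)) hv
  have hML : τ.M lam ≤ τ.M s := τ.M_mono hs
  have hpos := τ.M_ge lam
  induction x using Nat.strong_induction_on with
  | _ x ih =>
    constructor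
    · intro h
      by_cases hx : ∃ z, Step τ p lam z x
      · obtain ⟨z, s', hz⟩ := hx
        have hzx := hz.lt hp
        rw [root_step hp ⟨s', hz⟩] at h
        have h1 := root_le hp lam z
        have h2 : s < τ.c s' := by
          have := hz.2.1
          exact Tower.lt_of_M_lt (τ := τ) (by omega)
        have h3 : τ.M lam ≤ τ.M (s + 1) := τ.M_mono (by omega)
        have hz' : StepS τ p (s + 1) s' z x := ⟨h2, by have := hz.2.1; omega, hz.2.2⟩
        rw [root_step hp ⟨s', hz'⟩]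
        exact (ih z hzx).mp h
      · rw [root_self hx] at h
        rw [h, root_self hvr']
    · intro h
      by_cases hx : ∃ z, Step τ p (s + 1) z x
      · obtain ⟨z, s', hz⟩ := hx
        have hzx := hz.lt hp
        rw [root_step hp ⟨s', hz⟩] at h
        have hcs : s + 1 ≤ τ.c s' := hz.1
        have hzM : z ≤ τ.M (τ.c s') := by
          by_cases hzz : ∃ z', Step τ p (s + 1) z' z
          · obtain ⟨z', s'', hz''⟩ := hzz
            have h4 := hz''.reg hp
            have h5 := hp.ge s''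
            have h6 := hp.le s''
            have h7 := hz.2.1
            have h8 : τ.M (s + 1) ≤ τ.M s'' := τ.M_mono (hz''.1.trans (τ.c_le s''))
            have h9 := h4.1
            have h10 := h4.2
            have h12 := τ.M_ge s''
            have h11 : s'' < τ.c s' := Tower.lt_of_M_lt (τ := τ) (by omega)
            have h13 : τ.M (s'' + 1) ≤ τ.M (τ.c s') := τ.M_mono h11
            omega
          · rw [root_self hzz] at h
            have h4 : τ.M (s + 1) ≤ τ.M (τ.c s') := τ.M_mono hcs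
            omega
        have hz' : StepS τ p lam s' z x := ⟨by omega, by omega, hz.2.2⟩
        rw [root_step hp ⟨s', hz'⟩]
        exact (ih z hzx).mpr h
      · rw [root_self hx] at h
        rw [h, root_self hvr]

end kw

section mass

variable {τ : Tower} {p : ℕ → ℕ} {φ : (ℕ → ℝ) → ℝ}

open Classical in
/-- mass of a root class -/
noncomputable def mass (τ : Tower) (p : ℕ → ℕ) (φ : (ℕ → ℝ) → ℝ) (lam v : ℕ) : ℝ :=
  φ (fun x => if root τ p lam x = v then (1:ℝ) else 0)

open Classical in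
/-- mass of a root set -/
noncomputable def massQ (τ : Tower) (p : ℕ → ℕ) (φ : (ℕ → ℝ) → ℝ) (lam : ℕ) (Q : ℕ → Prop) : ℝ :=
  φ (fun x => if Q (root τ p lam x) then (1:ℝ) else 0)

theorem massQ_le (hp : IsPos τ p) (hφ : IsV (KW τ p) φ) (μ L : ℕ) (Q : ℕ → Prop)
    (hQ : ∀ r, Q r → r ≤ L) (ε : ℝ) (hε : 0 ≤ ε)
    (hm : ∀ v, Q v → |mass τ p φ (μ + 1) v| ≤ ε) :
    |massQ τ p φ (μ + 1) Q| ≤ (L + 1) * ε := by
  classical
  have hrel := hφ.rel (Finset.range (L + 2))
    (fun j x => if j = L + 1 then (if Q (root τ p (μ + 1) x) then (1:ℝ) else 0)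
      else (if root τ p (μ + 1) x = j then (1:ℝ) else 0))
    (fun j => if j = L + 1 then 1 else if Q j then -1 else 0)
    (by
      intro j _
      by_cases hj : j = L + 1
      · simp only [hj, if_true]
        exact ⟨2 ^ (τ.M μ), by positivity, mem_crude hp μ Q⟩
      · simp only [hj, if_false]
        exact ⟨2 ^ (τ.M μ), by positivity, by convert mem_crude hp μ (fun r => r = j)⟩)
    (by
      intro x
      rw [Finset.sum_range_succ]
      simp only [if_true, one_mul]
      have h1 : ∀ j ∈ Finset.range (L + 1),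
          (if j = L + 1 then (1:ℝ) else if Q j then -1 else 0) *
            (if j = L + 1 then (if Q (root τ p (μ + 1) x) then (1:ℝ) else 0)
              else (if root τ p (μ + 1) x = j then (1:ℝ) else 0)) =
          if root τ p (μ + 1) x = j then (if Q (root τ p (μ + 1) x) then (-1:ℝ) else 0) else 0 := by
        intro j hj
        have hj' : j ≠ L + 1 := by
          have := Finset.mem_range.mp hj
          omega
        simp only [hj', if_false]
        by_cases h2 : root τ p (μ + 1) x = j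
        · subst h2
          simp
        · simp [h2]
      rw [Finset.sum_congr rfl h1, Finset.sum_ite_eq]
      by_cases h3 : Q (root τ p (μ + 1) x)
      · have h4 : root τ p (μ + 1) x ∈ Finset.range (L + 1) :=
          Finset.mem_range.mpr (by have := hQ _ h3; omega)
        simp [h3, h4]
      · simp [h3])
  rw [Finset.sum_range_succ] at hrel
  simp only [if_true, one_mul] at hrel
  have h5 : massQ τ p φ (μ + 1) Q = -∑ j ∈ Finset.range (L + 1),
      (if j = L + 1 then (1:ℝ) else if Q j then -1 else 0) *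
        φ (fun x => if j = L + 1 then (if Q (root τ p (μ + 1) x) then (1:ℝ) else 0)
              else (if root τ p (μ + 1) x = j then (1:ℝ) else 0)) := by
    unfold massQ
    linarith
  rw [h5, abs_neg]
  refine (Finset.abs_sum_le_sum_abs _ _).trans ?_
  have h6 : ∀ j ∈ Finset.range (L + 1),
      |(if j = L + 1 then (1:ℝ) else if Q j then -1 else 0) *
        φ (fun x => if j = L + 1 then (if Q (root τ p (μ + 1) x) then (1:ℝ) else 0)
              else (if root τ p (μ + 1) x = j then (1:ℝ) else 0))| ≤ ε := by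
    intro j hj
    have hj' : j ≠ L + 1 := by
      have := Finset.mem_range.mp hj
      omega
    simp only [hj', if_false]
    by_cases h7 : Q j
    · simp only [h7, if_true]
      rw [neg_one_mul, abs_neg]
      exact hm j h7
    · simp only [h7, if_false, zero_mul, abs_zero]
      exact hε
  refine (Finset.sum_le_sum h6).trans (le_of_eq ?_)
  rw [Finset.sum_const, Finset.card_range, nsmul_eq_mul]
  push_cast
  ring

theorem eps_bound (τ : Tower) (μ : ℕ) :
    ((τ.M (μ + 1) : ℝ) + 1) * (8 * 2 ^ (τ.M μ) / 2 ^ (τ.M (μ + 1))) ≤ 1 / 2 ^ (μ + 2) := by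
  have hMs : ∀ s, 2 ^ (s + 8) ≤ τ.M s := by
    intro s
    induction s with
    | zero => simpa using τ.M_zero
    | succ s ih =>
      have := τ.M_succ s
      rw [show s + 1 + 8 = (s + 8) + 1 by ring, pow_succ]
      omega
  have h1 := hMs μ
  have h2 := τ.M_succ μ
  set m := τ.M μ with hm
  set m' := τ.M (μ + 1) with hm'
  -- (m'+1) * 8 * 2^(μ+2) * 2^m ≤ 2^m'
  have h3 : m < 2 ^ m := Nat.lt_two_pow_self
  have h4 : m' + 1 ≤ 2 ^ (m' / 2 + 2) := by
    have h5 : m' / 2 < 2 ^ (m' / 2) := Nat.lt_two_pow_self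
    rw [pow_add]
    omega
  have h6 : (m' + 1) * 8 * 2 ^ (μ + 2) * 2 ^ m ≤ 2 ^ m' := by
    have h7 : 8 * 2 ^ (μ + 2) ≤ m := by
      rw [pow_add] at h1 ⊢
      omega
    calc (m' + 1) * 8 * 2 ^ (μ + 2) * 2 ^ m = (m' + 1) * (8 * 2 ^ (μ + 2)) * 2 ^ m := by ring
      _ ≤ 2 ^ (m' / 2 + 2) * 2 ^ m * 2 ^ m := by
          exact Nat.mul_le_mul (Nat.mul_le_mul h4 (h7.trans h3.le)) le_rfl
      _ = 2 ^ (m' / 2 + 2 + m + m) := by rw [pow_add _ _ m, pow_add _ _ m]
      _ ≤ 2 ^ m' := by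
          apply Nat.pow_le_pow_right (by norm_num)
          have := τ.M_ge μ
          omega
  have h8 : (((m' + 1) * 8 * 2 ^ (μ + 2) * 2 ^ m : ℕ) : ℝ) ≤ ((2 ^ m' : ℕ) : ℝ) := by
    exact_mod_cast h6
  push_cast at h8
  rw [mul_div_assoc', div_le_div_iff₀ (by positivity) (by positivity)]
  nlinarith [h8]

/-- Some root class of high level carries a large mass. -/
theorem mass_exists (hp : IsPos τ p) (hφ : IsV (KW τ p) φ)
    (h0 : ∀ f ∈ KW τ p, |φ f - f 0| ≤ 1 / 4) (Λ : ℕ) :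
    ∃ μ v, Λ ≤ μ ∧ v ≤ τ.M (μ + 1) ∧
      8 * 2 ^ (τ.M μ) / 2 ^ (τ.M (μ + 1)) ≤ |mass τ p φ (μ + 1) v| := by
  classical
  by_contra hcon
  push Not at hcon
  set ε : ℕ → ℝ := fun μ => 8 * 2 ^ (τ.M μ) / 2 ^ (τ.M (μ + 1)) with hε
  have hε0 : ∀ μ, 0 ≤ ε μ := fun μ => by positivity
  -- bound of the truncations
  have key : ∀ t, |massQ τ p φ (Λ + 1) (QT τ p (Λ + 1) (Λ + 1 + t))| ≤
      1 / 2 - 1 / 2 ^ (Λ + 2 + t) := by
    intro t
    induction t with
    | zero =>
      have h1 := massQ_le hp hφ Λ (τ.M (Λ + 1)) (QT τ p (Λ + 1) (Λ + 1 + 0)) (by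
        rintro r (hr | ⟨s, i, z, h1, h2, _⟩)
        · exact hr
        · omega) (ε Λ) (hε0 Λ) (by
        rintro r (hr | ⟨s, i, z, h1, h2, _⟩)
        · exact (hcon Λ r le_rfl hr).le
        · omega)
      have h2 := eps_bound τ Λ
      have h3 : (1:ℝ) / 2 ^ (Λ + 2) ≤ 1 / 4 := by
        apply one_div_le_one_div_of_le (by norm_num)
        have : (2:ℝ) ^ 2 ≤ 2 ^ (Λ + 2) := pow_le_pow_right₀ (by norm_num) (by omega)
        norm_num at this ⊢
        exact this
      have h4 : ((τ.M (Λ + 1) : ℝ) + 1) * ε Λ ≤ 1 / 2 ^ (Λ + 2) := h2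
      simp only [add_zero] at h1 ⊢
      linarith
    | succ t ih =>
      set s := Λ + 1 + t with hs
      set D : ℕ → Prop := fun r => ¬ QT τ p (Λ + 1) s r ∧ QT τ p (Λ + 1) (s + 1) r with hDdef
      have hDs : ∀ r, D r → Reg τ p s r ∧ τ.c s < Λ + 1 := by
        rintro r ⟨hr1, hr2 | ⟨s', i, z, h1, h2, h3, h4, h5, h6⟩⟩
        · exact absurd (Or.inl hr2) hr1
        · have hss : s' = s := by
            by_contra hne
            exact hr1 (Or.inr ⟨s', i, z, h1, by omega, h3, h4, h5, h6⟩)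
          rw [hss] at h2 h3 h4 h5 h6
          have h7 : τ.M (τ.c s) ≤ τ.M s := τ.M_mono (τ.c_le s)
          exact ⟨by rw [h6]; exact reg_of_small h4 (by omega), h3⟩
      have hsplit : massQ τ p φ (Λ + 1) (QT τ p (Λ + 1) (s + 1)) =
          1 * massQ τ p φ (Λ + 1) (QT τ p (Λ + 1) s) + massQ τ p φ (Λ + 1) D := by
        unfold massQ
        refine hφ.rel3 _ _ _ 1 ⟨2 ^ (τ.M Λ), by positivity, mem_crude hp Λ _⟩
          ⟨2 ^ (τ.M Λ), by positivity, mem_crude hp Λ _⟩
          ⟨2 ^ (τ.M Λ), by positivity, mem_crude hp Λ _⟩ ?_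
        intro x
        have hmono : QT τ p (Λ + 1) s (root τ p (Λ + 1) x) →
            QT τ p (Λ + 1) (s + 1) (root τ p (Λ + 1) x) := by
          rintro (hr2 | ⟨s', i, z, h1, h2, h3, h4, h5, h6⟩)
          · exact Or.inl hr2
          · exact Or.inr ⟨s', i, z, h1, by omega, h3, h4, h5, h6⟩
        by_cases ha : QT τ p (Λ + 1) s (root τ p (Λ + 1) x)
        · have hb := hmono ha
          have hd : ¬ D (root τ p (Λ + 1) x) := fun h => h.1 ha
          simp [ha, hb, hd]
        · by_cases hb : QT τ p (Λ + 1) (s + 1) (root τ p (Λ + 1) x)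
          · have hd : D (root τ p (Λ + 1) x) := ⟨ha, hb⟩
            simp [ha, hb, hd]
          · have hd : ¬ D (root τ p (Λ + 1) x) := fun h => hb h.2
            simp [ha, hb, hd]
      -- change of level for `D`
      have hlev : massQ τ p φ (Λ + 1) D = massQ τ p φ (s + 1) D := by
        unfold massQ
        congr 1
        funext x
        have : D (root τ p (Λ + 1) x) ↔ D (root τ p (s + 1) x) := by
          constructor
          · intro h
            obtain ⟨h1, h2⟩ := hDs _ h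
            have := (root_level hp (by omega) h2 h1 x).mp rfl
            rwa [this]
          · intro h
            obtain ⟨h1, h2⟩ := hDs _ h
            have := (root_level hp (by omega) h2 h1 x).mpr rfl
            rwa [this]
        by_cases h : D (root τ p (s + 1) x)
        · simp [this.mpr h, h]
        · have h' : ¬ D (root τ p (Λ + 1) x) := fun h1 => h (this.mp h1)
          simp [h', h]
      have hDle : ∀ r, D r → r ≤ τ.M (s + 1) := by
        intro r hr
        have h1 := (hDs r hr).1.2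
        have h2 := hp.le s
        omega
      have h1 := massQ_le hp hφ s (τ.M (s + 1)) D hDle (ε s) (hε0 s)
        (fun v hv => (hcon s v (by omega) (hDle v hv)).le)
      have h2 : ((τ.M (s + 1) : ℝ) + 1) * ε s ≤ 1 / 2 ^ (s + 2) := eps_bound τ s
      have h3 : |massQ τ p φ (Λ + 1) (QT τ p (Λ + 1) (s + 1))| ≤
          (1 / 2 - 1 / 2 ^ (Λ + 2 + t)) + 1 / 2 ^ (s + 2) := by
        rw [hsplit, one_mul, hlev]
        exact (abs_add_le _ _).trans (add_le_add ih (h1.trans h2))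
      have h4 : Λ + 1 + (t + 1) = s + 1 := by omega
      rw [h4]
      refine h3.trans ?_
      have h5 : s + 2 = (Λ + 2 + t) + 1 := by omega
      have h6 : Λ + 2 + (t + 1) = (Λ + 2 + t) + 1 := by omega
      rw [h5, h6, pow_succ]
      have h7 : (1:ℝ) / (2 ^ (Λ + 2 + t) * 2) = (1 / 2 ^ (Λ + 2 + t)) / 2 := by
        field_simp
      rw [h7]
      linarith
  -- the limit
  have hlim := hφ.tendsto (C := 2 ^ (τ.M Λ)) (by positivity)
    (fun x => if QS τ p (Λ + 1) (root τ p (Λ + 1) x) then (1:ℝ) else 0)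
    (fun t x => if QT τ p (Λ + 1) (Λ + 1 + t) (root τ p (Λ + 1) x) then (1:ℝ) else 0)
    (mem_crude hp Λ _) (fun t => mem_crude hp Λ _) (by
      intro x
      by_cases h : QS τ p (Λ + 1) (root τ p (Λ + 1) x)
      · rcases h with h | ⟨s, i, z, h1, h2, h3, h4, h5⟩
        · refine ⟨0, fun t _ => ?_⟩
          have ha : QT τ p (Λ + 1) (Λ + 1 + t) (root τ p (Λ + 1) x) := Or.inl h
          have hb : QS τ p (Λ + 1) (root τ p (Λ + 1) x) := Or.inl h
          simp [ha, hb]
        · refine ⟨s, fun t ht => ?_⟩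
          have ha : QT τ p (Λ + 1) (Λ + 1 + t) (root τ p (Λ + 1) x) :=
            Or.inr ⟨s, i, z, h1, by omega, h2, h3, h4, h5⟩
          have hb : QS τ p (Λ + 1) (root τ p (Λ + 1) x) :=
            Or.inr ⟨s, i, z, h1, h2, h3, h4, h5⟩
          simp [ha, hb]
      · refine ⟨0, fun t _ => ?_⟩
        have ha : ¬ QT τ p (Λ + 1) (Λ + 1 + t) (root τ p (Λ + 1) x) := by
          rintro (h' | ⟨s, i, z, h1, h1', h2, h3, h4, h5⟩)
          · exact h (Or.inl h')
          · exact h (Or.inr ⟨s, i, z, h1, h2, h3, h4, h5⟩)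
        simp [ha, h]) (1 / 8) (by norm_num)
  obtain ⟨t, ht⟩ := hlim
  have h1 := h0 _ (mem_QS hp (Λ + 1))
  have h2 : QS τ p (Λ + 1) (root τ p (Λ + 1) 0) := by
    have := root_le hp (Λ + 1) 0
    exact Or.inl (by omega)
  simp only [h2, if_true] at h1
  have h3 := key t
  unfold massQ at h3
  have h4 : (0:ℝ) < 1 / 2 ^ (Λ + 2 + t) := by positivity
  rw [abs_le] at h1 h3 ht
  linarith [h1.1, h1.2, h3.1, h3.2, ht.1, ht.2]

/-- the good times are exceptional -/
theorem exceptional (hp : IsPos τ p) (hφ : IsV (KW τ p) φ)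
    (h0 : ∀ f ∈ KW τ p, |φ f - f 0| ≤ 1 / 4) {μ v n : ℕ} (hv : v ≤ τ.M (μ + 1))
    (hm : 8 * 2 ^ (τ.M μ) / 2 ^ (τ.M (μ + 1)) ≤ |mass τ p φ (μ + 1) v|)
    (hD : D3 τ p n) (hT : ∀ f ∈ KW τ p, |φ (fun x => f (x + n))| ≤ 3) :
    ∃ d : ℤ, (τ.G (μ + 1) : ℤ) ∣ d - n ∧ |d| ≤ 8 * (τ.M (μ + 1) : ℤ) := by
  classical
  by_contra hcon
  push Not at hcon
  obtain ⟨Gf, Gt, hGf, hGt, hiff⟩ := core (lam := μ + 1) hp n hD hv hcon
  set C : ℝ := (2:ℝ) ^ (τ.M (μ + 1)) / 2 ^ (τ.M μ) with hC
  have hC0 : 0 < C := by positivity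
  have m1 := mem_fine hp μ Gt hGt
  have m2 := mem_fine hp μ Gf hGf
  rw [← hC] at m1 m2
  have hv' : ¬ Gf v := fun h => by
    have := (hGf v h).1
    omega
  have hrel := hφ.rel3
    (fun x => if Gt (root τ p (μ + 1) (x + n)) then C else 0)
    (fun x => if root τ p (μ + 1) x = v then (1:ℝ) else 0)
    (fun x => if Gf (root τ p (μ + 1) x) then C else 0) C
    ⟨2 ^ n, by positivity, KW_shift_n _ m1 n⟩
    ⟨2 ^ (τ.M μ), by positivity, by convert mem_crude hp μ (fun r => r = v)⟩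
    ⟨1, one_pos, by simpa using m2⟩ (by
      intro x
      have := hiff x
      by_cases ha : root τ p (μ + 1) x = v
      · have hb : ¬ Gf (root τ p (μ + 1) x) := by rw [ha]; exact hv'
        have hc : Gt (root τ p (μ + 1) (x + n)) := this.mp (Or.inl ha)
        simp [ha, hc, hv']
      · by_cases hb : Gf (root τ p (μ + 1) x)
        · have hc : Gt (root τ p (μ + 1) (x + n)) := this.mp (Or.inr hb)
          simp [ha, hb, hc]
        · have hc : ¬ Gt (root τ p (μ + 1) (x + n)) := fun h => by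
            rcases this.mpr h with h | h
            · exact ha h
            · exact hb h
          simp [ha, hb, hc])
  have h1 := hT _ m1
  rw [hrel] at h1
  have h2 := h0 _ m2
  have h3 : ¬ Gf (root τ p (μ + 1) 0) := fun h => by
    have := (hGf _ h).1
    have := root_le hp (μ + 1) 0
    omega
  simp only [h3, if_false, sub_zero] at h2
  have h4 : 8 ≤ |C * mass τ p φ (μ + 1) v| := by
    rw [abs_mul, abs_of_pos hC0]
    have h5 : (8:ℝ) = C * (8 * 2 ^ (τ.M μ) / 2 ^ (τ.M (μ + 1))) := by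
      rw [hC]; field_simp
    calc (8:ℝ) = C * (8 * 2 ^ (τ.M μ) / 2 ^ (τ.M (μ + 1))) := h5
      _ ≤ _ := mul_le_mul_of_nonneg_left hm hC0.le
  have h6 : |C * mass τ p φ (μ + 1) v| ≤ 3 + 1 / 4 := by
    have h7 : C * mass τ p φ (μ + 1) v = (C * mass τ p φ (μ + 1) v +
        φ (fun x => if Gf (root τ p (μ + 1) x) then C else 0)) -
        φ (fun x => if Gf (root τ p (μ + 1) x) then C else 0) := by ring
    rw [h7]
    refine (abs_sub _ _).trans (add_le_add ?_ h2)
    exact h1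
  linarith

theorem count_exc (G R m : ℕ) (S : Set ℕ)
    (hS : ∀ n ∈ S, ∃ d : ℤ, (G : ℤ) ∣ d - n ∧ |d| ≤ (R : ℤ)) :
    {n : ℕ | m ≤ n ∧ n < m + G ∧ n ∈ S}.ncard ≤ 2 * R + 1 := by
  classical
  have hd : ∀ n : ℕ, ∃ d : ℤ, n ∈ S → ((G : ℤ) ∣ d - n ∧ |d| ≤ (R : ℤ)) := by
    intro n
    by_cases hn : n ∈ S
    · obtain ⟨d, h⟩ := hS n hn
      exact ⟨d, fun _ => h⟩
    · exact ⟨0, fun h => absurd h hn⟩
  choose d hd using hd
  have hsub : ∀ n ∈ {n : ℕ | m ≤ n ∧ n < m + G ∧ n ∈ S},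
      d n ∈ ((Finset.Icc (-(R : ℤ)) R : Finset ℤ) : Set ℤ) := by
    intro n hn
    have := (hd n hn.2.2).2
    rw [abs_le] at this
    simpa using this
  have hinj : Set.InjOn d {n : ℕ | m ≤ n ∧ n < m + G ∧ n ∈ S} := by
    intro a ha b hb hab
    have h1 := (hd a ha.2.2).1
    have h2 := (hd b hb.2.2).1
    rw [hab] at h1
    have h3 : (G : ℤ) ∣ (a : ℤ) - b := by
      have := dvd_sub h2 h1
      have h4 : (d b - (b:ℤ)) - (d b - (a:ℤ)) = (a : ℤ) - b := by ring
      rwa [h4] at this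
    have h5 : |(a : ℤ) - b| < G := by
      rw [abs_lt]
      have := ha.1; have := ha.2.1; have := hb.1; have := hb.2.1
      constructor <;> omega
    have h6 := Int.eq_zero_of_abs_lt_dvd h3 h5
    omega
  have := Set.ncard_le_ncard_of_injOn d hsub hinj (Finset.finite_toSet _)
  refine this.trans ?_
  rw [Set.ncard_coe_finset, Int.card_Icc]
  omega

/-- **Incompatibility**: the joint return times have zero upper Banach density. -/
theorem incompat (hp : IsPos τ p) (hφ : IsV (KW τ p) φ)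
    (h0 : ∀ f ∈ KW τ p, |φ f - f 0| ≤ 1 / 4) (S : Set ℕ)
    (hS : ∀ n ∈ S, D3 τ p n ∧ ∀ f ∈ KW τ p, |φ (fun x => f (x + n))| ≤ 3) (δ : ℝ) (hδ : 0 < δ) :
    ∃ N : ℕ, 1 ≤ N ∧ ∀ m : ℕ,
      (({n : ℕ | m ≤ n ∧ n < m + N ∧ n ∈ S}.ncard : ℕ) : ℝ) < δ * N := by
  obtain ⟨Λ, hΛ⟩ := exists_pow_lt_of_lt_one hδ (by norm_num : (1 / 2 : ℝ) < 1)
  obtain ⟨μ, v, hμ, hv, hm⟩ := mass_exists hp hφ h0 Λ
  refine ⟨τ.G (μ + 1), τ.G_pos _, fun m => ?_⟩
  have h1 := count_exc (τ.G (μ + 1)) (8 * τ.M (μ + 1)) m S (by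
    intro n hn
    obtain ⟨d, h1, h2⟩ := exceptional hp hφ h0 hv hm (hS n hn).1 (hS n hn).2
    exact ⟨d, h1, by push_cast; exact h2⟩)
  have h2 : ((({n : ℕ | m ≤ n ∧ n < m + τ.G (μ + 1) ∧ n ∈ S}.ncard : ℕ) : ℝ)) ≤
      2 * (8 * τ.M (μ + 1)) + 1 := by exact_mod_cast h1
  have h3 := τ.G_ge (μ + 1)
  have h4 : (1000 * 2 ^ (μ + 1) * τ.M (μ + 1) : ℝ) ≤ τ.G (μ + 1) := by exact_mod_cast h3
  have h5 : (256 : ℝ) ≤ τ.M (μ + 1) := by exact_mod_cast τ.M_ge (μ + 1)
  have h6 : (1 / 2 : ℝ) ^ μ ≤ (1 / 2) ^ Λ := pow_le_pow_of_le_one (by norm_num) (by norm_num) hμ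
  have h7 : (1 / 2 : ℝ) ^ μ < δ := lt_of_le_of_lt h6 hΛ
  have h8 : (1 / 2 : ℝ) ^ μ * (1000 * 2 ^ (μ + 1) * τ.M (μ + 1)) = 2000 * τ.M (μ + 1) := by
    rw [pow_succ, one_div, inv_pow]; field_simp; norm_num
  have h9 : (1 / 2 : ℝ) ^ μ * (1000 * 2 ^ (μ + 1) * τ.M (μ + 1)) ≤ δ * τ.G (μ + 1) :=
    mul_le_mul h7.le h4 (by positivity) hδ.le
  linarith

end mass

end Pool.Agent.W_MP_94b3e1_an
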