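import Pool.Agent.W_MP_94b3e1_an.Defs

/-!
# Choice of the phases `θ` by averaging, and the numbers `N j` by the Chinese remainder theorem
(MP_94b3e1_an, frozen statement S05452).
-/

set_option autoImplicit false
set_option linter.unusedVariables false

namespace Pool.Agent.W_MP_94b3e1_an

namespace Theta

open Finset

/-- number of residues of the ramp interval -/
def R (P : Params) (s : ℕ) (σ : Bool) : ℕ := P.h s σ + P.H s

/-- threshold of the runs handled by averaging -/
def JJ (P : Params) (s : ℕ) (σ : Bool) : ℕ := 2 ^ (s + 6) * R P s σ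

instance instDecInR (P : Params) (s : ℕ) (σ : Bool) (x : ℕ) : Decidable (P.InR s σ x) := by
  unfold Params.InR
  infer_instance

lemma R_pos (P : Params) (s : ℕ) (σ : Bool) : 1 ≤ R P s σ := by
  unfold R Params.H
  omega

lemma q_ge (P : Params) (s : ℕ) (σ : Bool) : 2 ^ (2 * s + 14) * R P s σ ^ 2 ≤ P.q s σ := by
  have := P.q_big s σ
  simpa [R, Params.H] using this

lemma q_pos (P : Params) (s : ℕ) (σ : Bool) : 0 < P.q s σ := by
  have h1 := q_ge P s σ
  have h2 := R_pos P s σ
  have : 0 < 2 ^ (2 * s + 14) * R P s σ ^ 2 := by positivity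
  omega

lemma G_dvd_of_le (P : Params) {i j : ℕ} (h : i ≤ j) : P.G i ∣ P.G j := by
  induction j, h using Nat.le_induction with
  | base => exact dvd_rfl
  | succ n _ ih => exact ih.trans (P.G_dvd n)

lemma card_Ico (P : Params) (s : ℕ) (σ : Bool) :
    (Ico (P.a s σ) (P.a s σ + P.h s σ + P.H s)).card = R P s σ := by
  rw [Nat.card_Ico]
  unfold R
  omega

/-- for a fixed shift, few phases are bad -/
lemma card_theta_le (P : Params) (s : ℕ) (σ : Bool) (c : ℕ) :
    ((range (P.q s σ)).filter (fun θ => P.InR s σ (θ + c))).card ≤ R P s σ := by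
  rw [← card_Ico P s σ]
  apply Finset.card_le_card_of_injOn (fun θ => (θ + c) % P.q s σ)
  · intro θ hθ
    have h := (Finset.mem_filter.mp (Finset.mem_coe.mp hθ)).2
    exact Finset.mem_coe.mpr (Finset.mem_Ico.mpr h)
  · intro x hx y hy hxy
    have h1 := Finset.mem_range.mp (Finset.mem_filter.mp (Finset.mem_coe.mp hx)).1
    have h2 := Finset.mem_range.mp (Finset.mem_filter.mp (Finset.mem_coe.mp hy)).1
    have h3 : x + c ≡ y + c [MOD P.q s σ] := hxy
    have h4 : x ≡ y [MOD P.q s σ] := Nat.ModEq.add_right_cancel' c h3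
    exact Nat.ModEq.eq_of_lt_of_lt h4 h1 h2

/-- for a fixed phase, few elements of a long progression are bad -/
lemma card_run_le (P : Params) (s : ℕ) (σ : Bool) (c g n : ℕ) (hg : Nat.Coprime (P.q s σ) g) :
    ((range n).filter (fun y => P.InR s σ (c + y * g))).card ≤
      (n / P.q s σ + 1) * R P s σ := by
  rw [← card_Ico P s σ]
  apply Finset.card_le_mul_card_image_of_maps_to (f := fun y => (c + y * g) % P.q s σ)
  · intro y hy
    have h := (Finset.mem_filter.mp hy).2
    exact Finset.mem_Ico.mpr h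
  · intro b _
    rw [← Finset.card_range (n / P.q s σ + 1)]
    apply Finset.card_le_card_of_injOn (fun y => y / P.q s σ)
    · intro y hy
      have h1 := Finset.mem_range.mp (Finset.mem_filter.mp
        (Finset.mem_filter.mp (Finset.mem_coe.mp hy)).1).1
      have : y / P.q s σ ≤ n / P.q s σ := Nat.div_le_div_right h1.le
      exact Finset.mem_coe.mpr (Finset.mem_range.mpr (by show y / P.q s σ < _; omega))
    · intro x hx y hy hxy
      have h1 : (c + x * g) % P.q s σ = b := (Finset.mem_filter.mp (Finset.mem_coe.mp hx)).2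
      have h2 : (c + y * g) % P.q s σ = b := (Finset.mem_filter.mp (Finset.mem_coe.mp hy)).2
      have h3 : c + x * g ≡ c + y * g [MOD P.q s σ] := h1.trans h2.symm
      have h4 : x * g ≡ y * g [MOD P.q s σ] := Nat.ModEq.add_left_cancel' c h3
      have h5 : x ≡ y [MOD P.q s σ] := Nat.ModEq.cancel_right_of_coprime hg h4
      have h6 : x / P.q s σ = y / P.q s σ := hxy
      have h7 : x % P.q s σ = y % P.q s σ := h5
      rw [← Nat.div_add_mod x (P.q s σ), ← Nat.div_add_mod y (P.q s σ), h6, h7]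

/-- number of bad elements of a run -/
def bad (P : Params) (s : ℕ) (σ : Bool) (θ c g n : ℕ) : ℕ :=
  ((range n).filter (fun y => P.InR s σ (θ + (c + y * g)))).card

lemma bad_long (P : Params) (s : ℕ) (σ : Bool) (θ c g n : ℕ) (hg : Nat.Coprime (P.q s σ) g)
    (hn : JJ P s σ ≤ n) : bad P s σ θ c g n * 2 ^ (s + 5) ≤ n := by
  have h1 : bad P s σ θ c g n ≤ (n / P.q s σ + 1) * R P s σ := by
    have := card_run_le P s σ (θ + c) g n hg
    unfold bad
    simpa [add_assoc] using this
  have h2 := q_ge P s σ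
  have hR := R_pos P s σ
  have h3 : 2 ^ (s + 6) * R P s σ ≤ P.q s σ := by
    refine le_trans ?_ h2
    apply Nat.mul_le_mul
    · exact Nat.pow_le_pow_right (by norm_num) (by omega)
    · nlinarith
  have h4 : n / P.q s σ * P.q s σ ≤ n := Nat.div_mul_le_self n _
  have h5 : n / P.q s σ * (2 ^ (s + 6) * R P s σ) ≤ n :=
    le_trans (Nat.mul_le_mul_left _ h3) h4
  have h6 : 2 ^ (s + 6) * R P s σ ≤ n := hn
  have h7 : (2 : ℕ) ^ (s + 6) = 2 * 2 ^ (s + 5) := by ring
  have h8 : bad P s σ θ c g n * 2 ^ (s + 5) ≤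
      ((n / P.q s σ + 1) * R P s σ) * 2 ^ (s + 5) := Nat.mul_le_mul_right _ h1
  have h9 : 2 * (((n / P.q s σ + 1) * R P s σ) * 2 ^ (s + 5)) =
      n / P.q s σ * (2 ^ (s + 6) * R P s σ) + 2 ^ (s + 6) * R P s σ := by
    rw [h7]; ring
  omega

/-- Markov: for a fixed run, few phases produce many bad elements -/
lemma card_bad_phase (P : Params) (s : ℕ) (σ : Bool) (c g n : ℕ) (hn : 0 < n) :
    ((range (P.q s σ)).filter (fun θ => n < bad P s σ θ c g n * 2 ^ (s + 5))).card ≤
      2 ^ (s + 5) * R P s σ := by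
  set B := (range (P.q s σ)).filter (fun θ => n < bad P s σ θ c g n * 2 ^ (s + 5)) with hB
  have h1 : ∑ θ ∈ range (P.q s σ), bad P s σ θ c g n ≤ n * R P s σ := by
    have : ∑ θ ∈ range (P.q s σ), bad P s σ θ c g n =
        ∑ y ∈ range n, ((range (P.q s σ)).filter
          (fun θ => P.InR s σ (θ + (c + y * g)))).card := by
      unfold bad
      simp_rw [Finset.card_filter]
      rw [Finset.sum_comm]
    rw [this]
    calc _ ≤ ∑ _y ∈ range n, R P s σ := Finset.sum_le_sum fun y _ => card_theta_le P s σ _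
      _ = n * R P s σ := by simp
  have h2 : B.card * n ≤ ∑ θ ∈ B, bad P s σ θ c g n * 2 ^ (s + 5) := by
    rw [← smul_eq_mul]
    apply Finset.card_nsmul_le_sum
    intro θ hθ
    exact (Finset.mem_filter.mp hθ).2.le
  have h3 : ∑ θ ∈ B, bad P s σ θ c g n * 2 ^ (s + 5) ≤
      (∑ θ ∈ range (P.q s σ), bad P s σ θ c g n) * 2 ^ (s + 5) := by
    rw [← Finset.sum_mul]
    apply Nat.mul_le_mul_right
    apply Finset.sum_le_sum_of_subset
    exact Finset.filter_subset _ _
  have h4 : B.card * n ≤ (2 ^ (s + 5) * R P s σ) * n := by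
    calc B.card * n ≤ _ := h2
      _ ≤ _ := h3
      _ ≤ (n * R P s σ) * 2 ^ (s + 5) := Nat.mul_le_mul_right _ h1
      _ = _ := by ring
  exact Nat.le_of_mul_le_mul_right h4 hn

/-- the phase of one block -/
lemma exists_phase (P : Params) (s : ℕ) (σ : Bool) (c g : ℕ → ℕ) :
    ∃ θ, θ < P.q s σ ∧ ¬ P.InR s σ θ ∧
      ∀ j ≤ JJ P s σ, bad P s σ θ (c j) (g j) (j + 1) * 2 ^ (s + 5) ≤ j + 1 := by
  set B0 := (range (P.q s σ)).filter (fun θ => P.InR s σ (θ + 0)) with hB0
  set B1 := (range (JJ P s σ + 1)).biUnion (fun j => (range (P.q s σ)).filter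
    (fun θ => j + 1 < bad P s σ θ (c j) (g j) (j + 1) * 2 ^ (s + 5))) with hB1
  have hR := R_pos P s σ
  have h0 : B0.card ≤ R P s σ := card_theta_le P s σ 0
  have h1 : B1.card ≤ (JJ P s σ + 1) * (2 ^ (s + 5) * R P s σ) := by
    calc B1.card ≤ ∑ j ∈ range (JJ P s σ + 1), ((range (P.q s σ)).filter
          (fun θ => j + 1 < bad P s σ θ (c j) (g j) (j + 1) * 2 ^ (s + 5))).card :=
        Finset.card_biUnion_le
      _ ≤ ∑ _j ∈ range (JJ P s σ + 1), 2 ^ (s + 5) * R P s σ :=
        Finset.sum_le_sum fun j _ => card_bad_phase P s σ _ _ _ (Nat.succ_pos j)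
      _ = _ := by simp
  have h2 : (B0 ∪ B1).card < (range (P.q s σ)).card := by
    rw [Finset.card_range]
    have h3 := Finset.card_union_le B0 B1
    have h4 := q_ge P s σ
    have h5 : JJ P s σ + 1 ≤ 2 ^ (s + 7) * R P s σ := by
      unfold JJ
      have : 1 ≤ 2 ^ (s + 6) * R P s σ := Nat.one_le_iff_ne_zero.mpr (by positivity)
      have h7 : (2 : ℕ) ^ (s + 7) = 2 * 2 ^ (s + 6) := by ring
      rw [h7]
      nlinarith
    have h6 : (JJ P s σ + 1) * (2 ^ (s + 5) * R P s σ) ≤ 2 ^ (2 * s + 12) * R P s σ ^ 2 := by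
      calc _ ≤ (2 ^ (s + 7) * R P s σ) * (2 ^ (s + 5) * R P s σ) := Nat.mul_le_mul_right _ h5
        _ = _ := by ring
    have h7 : (2 : ℕ) ^ (2 * s + 14) = 4 * 2 ^ (2 * s + 12) := by ring
    have h8 : R P s σ ≤ R P s σ ^ 2 := by nlinarith
    have h9 : 1 ≤ (2 : ℕ) ^ (2 * s + 12) := Nat.one_le_two_pow
    have h10 : R P s σ ^ 2 ≤ 2 ^ (2 * s + 12) * R P s σ ^ 2 := Nat.le_mul_of_pos_left _ (by omega)
    have h11 : 0 < R P s σ ^ 2 := by positivity
    rw [h7, mul_assoc] at h4
    omega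
  obtain ⟨θ, hθ, hθ'⟩ := Finset.exists_mem_notMem_of_card_lt_card h2
  refine ⟨θ, Finset.mem_range.mp hθ, ?_, ?_⟩
  · intro h
    apply hθ'
    apply Finset.mem_union_left
    exact Finset.mem_filter.mpr ⟨hθ, h⟩
  · intro j hj
    by_contra h
    apply hθ'
    apply Finset.mem_union_right
    exact Finset.mem_biUnion.mpr ⟨j, Finset.mem_range.mpr (by omega),
      Finset.mem_filter.mpr ⟨hθ, by omega⟩⟩

lemma not_InR_zero (P : Params) (s : ℕ) (σ : Bool) : ¬ P.InR s σ 0 := by
  intro h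
  have h1 := h.1
  rw [Nat.zero_mod] at h1
  have h2 := P.q_le s σ
  have h3 := q_pos P s σ
  omega

end Theta

open Theta Finset in
theorem exists_theta (P : Params) (A nst : ℕ → ℕ) (hA : ∀ k, k ≤ A k)
    (hn : ∀ j, P.G (A (kk j)) ∣ nst j) (s0 : ℕ) :
    ∃ θ : ℕ → Bool → ℕ, (∀ s < s0, ∀ σ, θ s σ = 0) ∧ (∀ s σ, θ s σ < P.q s σ) ∧
      (∀ s σ, ¬ P.InR s σ (θ s σ)) ∧
      ∀ k, ∃ J, ∀ j ≥ J, kk j = k →
        ((j + 1 : ℕ) : ℝ) / 2 ≤
          ({y : ℕ | y ≤ j ∧ ∀ s, A k ≤ s → ∀ σ,
            ¬ P.InR s σ (θ s σ + (nst j + y * P.G (A k)))}.ncard : ℝ) := by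
  choose φ hφ1 hφ2 hφ3 using
    fun s σ => exists_phase P s σ nst (fun j => P.G (A (kk j)))
  refine ⟨fun s σ => if s < s0 then 0 else φ s σ, ?_, ?_, ?_, ?_⟩
  · intro s hs σ
    simp [hs]
  · intro s σ
    dsimp only
    split_ifs
    · exact q_pos P s σ
    · exact hφ1 s σ
  · intro s σ
    dsimp only
    split_ifs
    · exact not_InR_zero P s σ
    · exact hφ2 s σ
  intro k
  refine ⟨∑ s ∈ range s0, (JJ P s true + JJ P s false), ?_⟩
  intro j hj hk
  set θ : ℕ → Bool → ℕ := fun s σ => if s < s0 then 0 else φ s σ with hθ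
  -- every block has few bad elements
  have key : ∀ s, A k ≤ s → ∀ σ,
      bad P s σ (θ s σ) (nst j) (P.G (A k)) (j + 1) * 2 ^ (s + 5) ≤ j + 1 := by
    intro s hs σ
    have hcop : Nat.Coprime (P.q s σ) (P.G (A k)) :=
      Nat.Coprime.coprime_dvd_right (G_dvd_of_le P hs) (P.q_cop s σ)
    by_cases h : JJ P s σ ≤ j + 1
    · exact bad_long P s σ _ _ _ _ hcop h
    · by_cases hs0 : s < s0
      · exfalso
        apply h
        have h1 : JJ P s true + JJ P s false ≤ ∑ s ∈ range s0, (JJ P s true + JJ P s false) :=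
          Finset.single_le_sum (f := fun s => JJ P s true + JJ P s false)
            (fun _ _ => Nat.zero_le _) (Finset.mem_range.mpr hs0)
        cases σ <;> omega
      · have h1 := hφ3 s σ j (by omega)
        have h2 : θ s σ = φ s σ := by simp [hθ, hs0]
        rw [h2]
        simpa [hk] using h1
  -- the finite set of bad elements
  set Bd : Finset ℕ := (range (j + 1)).biUnion (fun s => if A k ≤ s then
    ((range (j + 1)).filter (fun y => P.InR s true (θ s true + (nst j + y * P.G (A k))))) ∪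
    ((range (j + 1)).filter (fun y => P.InR s false (θ s false + (nst j + y * P.G (A k)))))
    else ∅) with hBd
  have hsub : ((range (j + 1) \ Bd : Finset ℕ) : Set ℕ) ⊆ {y : ℕ | y ≤ j ∧ ∀ s, A k ≤ s → ∀ σ,
            ¬ P.InR s σ (θ s σ + (nst j + y * P.G (A k)))} := by
    intro y hy
    rw [Finset.mem_coe, Finset.mem_sdiff, Finset.mem_range] at hy
    refine ⟨by omega, ?_⟩
    intro s hs σ hIn
    by_cases hsj : s < j + 1
    · apply hy.2
      rw [hBd, Finset.mem_biUnion]
      refine ⟨s, Finset.mem_range.mpr hsj, ?_⟩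
      rw [if_pos hs]
      cases σ
      · exact Finset.mem_union_right _ (Finset.mem_filter.mpr ⟨Finset.mem_range.mpr hy.1, hIn⟩)
      · exact Finset.mem_union_left _ (Finset.mem_filter.mpr ⟨Finset.mem_range.mpr hy.1, hIn⟩)
    · have h1 := key s hs σ
      have h2 : 1 ≤ bad P s σ (θ s σ) (nst j) (P.G (A k)) (j + 1) :=
        Finset.card_pos.mpr ⟨y, Finset.mem_filter.mpr ⟨Finset.mem_range.mpr hy.1, hIn⟩⟩
      have h3 : j + 1 < 2 ^ (s + 5) := by
        calc j + 1 < 2 ^ (j + 1) := Nat.lt_two_pow_self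
          _ ≤ 2 ^ (s + 5) := Nat.pow_le_pow_right (by norm_num) (by omega)
      have h4 : 2 ^ (s + 5) ≤ bad P s σ (θ s σ) (nst j) (P.G (A k)) (j + 1) * 2 ^ (s + 5) :=
        Nat.le_mul_of_pos_left _ h2
      omega
  have hfin : {y : ℕ | y ≤ j ∧ ∀ s, A k ≤ s → ∀ σ,
            ¬ P.InR s σ (θ s σ + (nst j + y * P.G (A k)))}.Finite :=
    (Set.finite_Iic j).subset fun y hy => hy.1
  have hcard1 : (range (j + 1) \ Bd).card ≤ {y : ℕ | y ≤ j ∧ ∀ s, A k ≤ s → ∀ σ,
            ¬ P.InR s σ (θ s σ + (nst j + y * P.G (A k)))}.ncard := by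
    rw [← Set.ncard_coe_finset]
    exact Set.ncard_le_ncard hsub hfin
  have hcard2 : (j + 1 : ℕ) - Bd.card ≤ (range (j + 1) \ Bd).card := by
    have := Finset.le_card_sdiff Bd (range (j + 1))
    rwa [Finset.card_range] at this
  have hBdcard : (Bd.card : ℝ) ≤ ((j + 1 : ℕ) : ℝ) / 8 := by
    have h1 : Bd.card ≤ ∑ s ∈ range (j + 1), (if A k ≤ s then
        bad P s true (θ s true) (nst j) (P.G (A k)) (j + 1) +
        bad P s false (θ s false) (nst j) (P.G (A k)) (j + 1) else 0) := by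
      refine le_trans Finset.card_biUnion_le (Finset.sum_le_sum fun s _ => ?_)
      split_ifs
      · exact Finset.card_union_le _ _
      · simp
    have h2 : (Bd.card : ℝ) ≤ ∑ s ∈ range (j + 1), ((j + 1 : ℕ) : ℝ) / 16 * (1 / 2) ^ s := by
      refine le_trans (Nat.cast_le.mpr h1) ?_
      rw [Nat.cast_sum]
      refine Finset.sum_le_sum fun s _ => ?_
      split_ifs with hs
      · have h3 := key s hs true
        have h4 := key s hs false
        have h3' : (bad P s true (θ s true) (nst j) (P.G (A k)) (j + 1) : ℝ) * 2 ^ (s + 5) ≤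
            ((j + 1 : ℕ) : ℝ) := by exact_mod_cast h3
        have h4' : (bad P s false (θ s false) (nst j) (P.G (A k)) (j + 1) : ℝ) * 2 ^ (s + 5) ≤
            ((j + 1 : ℕ) : ℝ) := by exact_mod_cast h4
        rw [Nat.cast_add]
        have h5 : ((j + 1 : ℕ) : ℝ) / 16 * (1 / 2) ^ s = 2 * ((j + 1 : ℕ) : ℝ) / 2 ^ (s + 5) := by
          rw [one_div, inv_pow, pow_add]
          field_simp
          ring
        rw [h5, le_div_iff₀ (by positivity)]
        linarith
      · simp only [Nat.cast_zero]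
        positivity
    refine le_trans h2 ?_
    rw [← Finset.mul_sum]
    have h6 : ∑ s ∈ range (j + 1), ((1 : ℝ) / 2) ^ s ≤ 2 := sum_geometric_two_le (j + 1)
    have h7 : (0 : ℝ) ≤ ((j + 1 : ℕ) : ℝ) / 16 := by positivity
    nlinarith
  have hle : ((j + 1 : ℕ) : ℝ) - (Bd.card : ℝ) ≤ ((range (j + 1) \ Bd).card : ℝ) := by
    have : j + 1 ≤ (range (j + 1) \ Bd).card + Bd.card := by omega
    have h8 : ((j + 1 : ℕ) : ℝ) ≤ ((range (j + 1) \ Bd).card : ℝ) + (Bd.card : ℝ) := by
      exact_mod_cast this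
    linarith
  have hle2 : ((range (j + 1) \ Bd).card : ℝ) ≤ ({y : ℕ | y ≤ j ∧ ∀ s, A k ≤ s → ∀ σ,
            ¬ P.InR s σ (θ s σ + (nst j + y * P.G (A k)))}.ncard : ℝ) := by
    exact_mod_cast hcard1
  have hpos : (0 : ℝ) ≤ ((j + 1 : ℕ) : ℝ) := by positivity
  linarith

open Theta in
theorem exists_N (P : Params) (θ : ℕ → Bool → ℕ) (hθ : ∀ s σ, θ s σ < P.q s σ) :
    ∃ N : ℕ → ℕ, ∀ j, N j < P.G j ∧ ∀ s < j, ∀ σ, N j % P.q s σ = θ s σ := by
  have hG0 : 0 < P.G 0 := by
    have h1 := P.G_ge 0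
    have h2 := P.M_zero
    omega
  have step : ∀ j, ∃ n, n < P.G j ∧ ∀ s < j, ∀ σ, n % P.q s σ = θ s σ := by
    intro j
    induction j with
    | zero => exact ⟨0, hG0, fun s hs => absurd hs (Nat.not_lt_zero s)⟩
    | succ j ih =>
      obtain ⟨n, hn1, hn2⟩ := ih
      have c1 : Nat.Coprime (P.G j) (P.q j true) := (P.q_cop j true).symm
      have c2 : Nat.Coprime (P.G j * P.q j true) (P.q j false) :=
        Nat.Coprime.mul_left (P.q_cop j false).symm (P.q_cop' j)
      obtain ⟨x, hx1, hx2⟩ := Nat.chineseRemainder c1 n (θ j true)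
      obtain ⟨z, hz1, hz2⟩ := Nat.chineseRemainder c2 x (θ j false)
      have hpos : 0 < P.G j * P.q j true * P.q j false := by
        have := q_pos P j true
        have := q_pos P j false
        have h3 : 0 < P.G j := by omega
        positivity
      refine ⟨z % (P.G j * P.q j true * P.q j false),
        lt_of_lt_of_le (Nat.mod_lt _ hpos) (P.prod_le j), ?_⟩
      intro s hs σ
      have hzx : z ≡ x [MOD P.G j] := hz1.of_mul_right _
      have hzx' : z ≡ x [MOD P.q j true] := hz1.of_mul_left _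
      rcases Nat.lt_succ_iff_lt_or_eq.mp hs with h | h
      · -- older block
        have hd : P.q s σ ∣ P.G j := (P.q_dvd s σ).trans (G_dvd_of_le P h)
        have hd2 : P.q s σ ∣ P.G j * P.q j true * P.q j false :=
          (hd.mul_right _).mul_right _
        rw [Nat.mod_mod_of_dvd _ hd2]
        have h4 : z ≡ n [MOD P.q s σ] := (hzx.trans hx1).of_dvd hd
        rw [← hn2 s h σ]
        exact h4
      · subst h
        cases σ
        · have hd2 : P.q s false ∣ P.G s * P.q s true * P.q s false := dvd_mul_left _ _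
          rw [Nat.mod_mod_of_dvd _ hd2]
          have h4 : z % P.q s false = θ s false % P.q s false := hz2
          rw [h4, Nat.mod_eq_of_lt (hθ s false)]
        · have hd2 : P.q s true ∣ P.G s * P.q s true * P.q s false :=
            (dvd_mul_left _ _).mul_right _
          rw [Nat.mod_mod_of_dvd _ hd2]
          have h4 : z % P.q s true = θ s true % P.q s true := hzx'.trans hx2
          rw [h4, Nat.mod_eq_of_lt (hθ s true)]
  choose N hN using step
  exact ⟨N, hN⟩

end Pool.Agent.W_MP_94b3e1_an
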